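import Pool.Agent.V8H73.NK2.Union
import Pool.Agent.H494R3.NK.MatZ
import Pool.Agent.Y78.NK.RR
import Pool.Agent.Y78.NK.Urp

set_option autoImplicit false

/-!
Fibres of the C*-algebra of continuous functions on a power of the Cantor space.
-/

namespace Pool.Agent.V8H73.NK2

open Pool.Agent.H494R3.NK Pool.Agent.Y78.NK
open scoped Matrix.Norms.L2Operator

variable (F : Fam) (I : Type)

/-- the fibre at `t` -/
def At (t : I → T) : Subalgebra ℂ M2 where
  carrier := {x | Pool.Agent.Y78.NK.Good F I t x}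
  mul_mem' := by
    intro f g hf hg y hy
    show y * (f * g) = f * g * y
    rw [← mul_assoc, hf y hy, mul_assoc, hg y hy, mul_assoc]
  add_mem' := by
    intro f g hf hg y hy
    show y * (f + g) = (f + g) * y
    rw [mul_add, add_mul, hf y hy, hg y hy]
  algebraMap_mem' := by
    intro r y _
    show y * algebraMap ℂ M2 r = algebraMap ℂ M2 r * y
    exact (Algebra.commutes r y).symm

theorem compl_idem' {P : M2} (hP : P * P = P) : (1 - P) * (1 - P) = 1 - P := by
  rw [mul_sub, mul_one, sub_mul, one_mul, hP, sub_self, sub_zero]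

/-- the three types of fibres -/
theorem fibre_cases (t : I → T) :
    (∀ x, Pool.Agent.Y78.NK.Good F I t x → ∃ c : ℂ, x = algebraMap ℂ M2 c) ∨
    (∃ i, (F.P (t i)).trace = 1 ∧ ∀ x, Pool.Agent.Y78.NK.Good F I t x →
      x = (x * (1 - F.P (t i))).trace • (1 - F.P (t i)) + (x * F.P (t i)).trace • F.P (t i)) ∨
    ∃ i j, F.P (t i) * F.P (t j) ≠ F.P (t j) * F.P (t i) := by
  by_cases hc : ∀ i j, F.P (t i) * F.P (t j) = F.P (t j) * F.P (t i)
  · by_cases h0 : ∀ i, F.P (t i) = 0
    · left
      intro x hx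
      exact Pool.Agent.Y78.NK.scalar_of_comm x fun y => hx y fun i => by rw [h0 i]; simp
    · right; left
      push Not at h0
      obtain ⟨i, hi⟩ := h0
      have htr : (F.P (t i)).trace = 1 := (F.rk _).resolve_left hi
      refine ⟨i, htr, fun x hx => ?_⟩
      have hns := F.not_scalar (t i) htr
      obtain ⟨α, β, hx'⟩ := comm_span (F.P (t i)) x hns (hx (F.P (t i)) (fun j => hc i j))
      have hQ : (1 - F.P (t i)).trace = 1 := by
        rw [Matrix.trace_sub, htr, Matrix.trace_one]
        norm_num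
      have h1 : x * F.P (t i) = (α + β) • F.P (t i) := by
        rw [hx', add_mul, smul_mul_assoc, F.idem, Algebra.algebraMap_eq_smul_one,
          smul_mul_assoc, one_mul, add_smul]
      have h2 : x * (1 - F.P (t i)) = α • (1 - F.P (t i)) := by
        rw [mul_sub, h1, mul_one, hx', Algebra.algebraMap_eq_smul_one]
        module
      rw [h1, h2, Matrix.trace_smul, Matrix.trace_smul, htr, hQ, smul_eq_mul, smul_eq_mul,
        mul_one, mul_one, hx', Algebra.algebraMap_eq_smul_one]
      module
  · right; right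
    push Not at hc
    exact hc

theorem semisimple_of_artinian (S : Type*) [Ring S] [IsArtinianRing S]
    (h : ∀ x : S, ∃ y, x * y * x = x) : IsSemisimpleRing S := by
  rw [IsArtinianRing.isSemisimpleRing_iff_jacobson, ← Ideal.jacobson_bot, eq_bot_iff]
  intro x hx
  obtain ⟨y, hy⟩ := h x
  rw [Ideal.mem_bot]
  obtain ⟨z, hz⟩ := Ideal.mem_jacobson_iff.1 hx (-y)
  rw [Ideal.mem_bot] at hz
  have h1 : z * (1 - y * x) = 1 := by
    have : z * (1 - y * x) = (z * -y * x + z - 1) + 1 := by noncomm_ring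
    rw [this, hz, zero_add]
  have h2 : (1 - y * x) * (1 - y * x) = 1 - y * x := by
    have : (1 - y * x) * (1 - y * x) = 1 - y * x - y * x + y * (x * y * x) := by noncomm_ring
    rw [this, hy]
    abel
  have h3 : (1 : S) = 1 - y * x := by
    calc (1 : S) = z * ((1 - y * x) * (1 - y * x)) := by rw [h2, h1]
      _ = (z * (1 - y * x)) * (1 - y * x) := by rw [mul_assoc]
      _ = 1 - y * x := by rw [h1, one_mul]
  have h4 : y * x = 0 := by
    have := h3.symm
    rwa [sub_eq_self] at this
  rw [← hy, mul_assoc, h4, mul_zero]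

theorem At_reg (t : I → T) (x : At F I t) : ∃ y : At F I t, x * y * x = x := by
  rcases fibre_cases F I t with h | ⟨i, htr, h⟩ | ⟨i, j, hij⟩
  · obtain ⟨c, hc⟩ := h x.1 x.2
    refine ⟨algebraMap ℂ _ c⁻¹, ?_⟩
    apply Subtype.ext
    show x.1 * algebraMap ℂ M2 c⁻¹ * x.1 = x.1
    rw [hc, ← map_mul, ← map_mul]
    congr 1
    by_cases h0 : c = 0
    · rw [h0]; simp
    · field_simp
  · have hx := h x.1 x.2
    obtain ⟨a, ha⟩ : ∃ a, a = (x.1 * (1 - F.P (t i))).trace := ⟨_, rfl⟩
    obtain ⟨b, hb⟩ : ∃ b, b = (x.1 * F.P (t i)).trace := ⟨_, rfl⟩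
    rw [← ha, ← hb] at hx
    have hmem : Pool.Agent.Y78.NK.Good F I t (a⁻¹ • (1 - F.P (t i)) + b⁻¹ • F.P (t i)) := by
      have h1 := good_proj F I t i a⁻¹ (b⁻¹ - a⁻¹)
      have h2 : algebraMap ℂ M2 a⁻¹ + (b⁻¹ - a⁻¹) • F.P (t i) =
          a⁻¹ • (1 - F.P (t i)) + b⁻¹ • F.P (t i) := by
        rw [Algebra.algebraMap_eq_smul_one]
        module
      rwa [h2] at h1
    refine ⟨⟨_, hmem⟩, ?_⟩
    apply Subtype.ext
    show x.1 * (a⁻¹ • (1 - F.P (t i)) + b⁻¹ • F.P (t i)) * x.1 = x.1
    have hP := F.idem (t i)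
    obtain ⟨P, hPd⟩ : ∃ P, P = F.P (t i) := ⟨_, rfl⟩
    rw [← hPd] at hx hP ⊢
    have hQ : (1 - P) * (1 - P) = 1 - P := compl_idem' hP
    have hPQ : P * (1 - P) = 0 := by rw [mul_sub, hP]; simp
    have hQP : (1 - P) * P = 0 := by rw [sub_mul, hP]; simp
    have mm : ∀ a b c d : ℂ, (a • (1 - P) + b • P) * (c • (1 - P) + d • P) =
        (a * c) • (1 - P) + (b * d) • P := by
      intro a b c d
      rw [add_mul, mul_add, mul_add, smul_mul_smul_comm, smul_mul_smul_comm,
        smul_mul_smul_comm, smul_mul_smul_comm, hQ, hPQ, hQP, hP]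
      simp
    rw [hx, mm, mm]
    congr 2
    · by_cases h0 : a = 0
      · rw [h0]; simp
      · field_simp
    · by_cases h0 : b = 0
      · rw [h0]; simp
      · field_simp
  · have h0 : ∀ x : ℂ, ∃ y : ℂ, x * y * x = x := by
      intro x
      by_cases hx : x = 0
      · exact ⟨0, by simp [hx]⟩
      · exact ⟨x⁻¹, by rw [mul_inv_cancel₀ hx, one_mul]⟩
    obtain ⟨y, hy⟩ := Pool.Agent.Y78.NK.mreg_fin h0 2 2 x.1
    exact ⟨⟨y, good_noncomm F I t i j hij y⟩, Subtype.ext hy⟩

instance At_semisimple (t : I → T) : IsSemisimpleRing (At F I t) := by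
  have : IsArtinianRing (At F I t) := IsArtinianRing.of_finite ℂ _
  exact semisimple_of_artinian _ (At_reg F I t)

/-- evaluation -/
noncomputable def evA (t : I → T) : Alg F I →+* At F I t where
  toFun f := ⟨f.1 t, f.2 t⟩
  map_one' := rfl
  map_mul' _ _ := rfl
  map_zero' := rfl
  map_add' _ _ := rfl

theorem evA_apply (t : I → T) (f : Alg F I) : (evA F I t f : M2) = f.1 t := rfl

open Classical in
/-- the characteristic function of a clopen set -/
noncomputable def chi (U : TopologicalSpace.Clopens (I → T)) : Alg F I :=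
  ⟨⟨fun s => if s ∈ U then 1 else 0, by
    have : (fun s => if s ∈ U then (1 : M2) else 0) = (U : Set (I → T)).piecewise 1 0 := by
      funext s
      rfl
    rw [this]
    refine Continuous.piecewise ?_ continuous_const continuous_const
    intro t ht
    rw [U.isClopen.frontier_eq] at ht
    exact ht.elim⟩, fun s => by
    show Pool.Agent.Y78.NK.Good F I s (if s ∈ U then (1 : M2) else 0)
    split_ifs
    · have := good_scalar F I s 1
      rwa [map_one] at this
    · have := good_scalar F I s 0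
      rwa [map_zero] at this⟩

variable {F I}

theorem chi_of_mem {U : TopologicalSpace.Clopens (I → T)} {s : I → T} (h : s ∈ U) :
    (chi F I U).1 s = 1 := if_pos h

theorem chi_of_notMem {U : TopologicalSpace.Clopens (I → T)} {s : I → T} (h : s ∉ U) :
    (chi F I U).1 s = 0 := if_neg h

theorem alg_ext {f g : Alg F I} (h : ∀ s, f.1 s = g.1 s) : f = g :=
  Subtype.ext (ContinuousMap.ext h)

theorem chi_comm (U : TopologicalSpace.Clopens (I → T)) (f : Alg F I) :
    chi F I U * f = f * chi F I U := by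
  apply alg_ext
  intro s
  show (chi F I U).1 s * f.1 s = f.1 s * (chi F I U).1 s
  by_cases h : s ∈ U
  · rw [chi_of_mem h, one_mul, mul_one]
  · rw [chi_of_notMem h, zero_mul, mul_zero]

theorem chi_mul (U V : TopologicalSpace.Clopens (I → T)) :
    chi F I U * chi F I V = chi F I (U ⊓ V) := by
  apply alg_ext
  intro s
  show (chi F I U).1 s * (chi F I V).1 s = (chi F I (U ⊓ V)).1 s
  by_cases h : s ∈ U
  · by_cases h' : s ∈ V
    · have h2 : s ∈ U ⊓ V := ⟨h, h'⟩
      rw [chi_of_mem h, chi_of_mem h', chi_of_mem h2, one_mul]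
    · have h2 : s ∉ U ⊓ V := fun h2 => h' h2.2
      rw [chi_of_notMem h', chi_of_notMem h2, mul_zero]
  · have h2 : s ∉ U ⊓ V := fun h2 => h h2.1
    rw [chi_of_notMem h, chi_of_notMem h2, zero_mul]

theorem chi_sup {U V : TopologicalSpace.Clopens (I → T)} (hd : Disjoint U V) :
    chi F I (U ⊔ V) = chi F I U + chi F I V := by
  apply alg_ext
  intro s
  show (chi F I (U ⊔ V)).1 s = (chi F I U).1 s + (chi F I V).1 s
  by_cases h : s ∈ U
  · have h' : s ∉ V := fun h' => by
      have h3 : s ∈ U ⊓ V := ⟨h, h'⟩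
      rw [hd.eq_bot] at h3
      exact h3
    have h2 : s ∈ U ⊔ V := Or.inl h
    rw [chi_of_mem h, chi_of_mem h2, chi_of_notMem h', add_zero]
  · by_cases h' : s ∈ V
    · have h2 : s ∈ U ⊔ V := Or.inr h'
      rw [chi_of_notMem h, chi_of_mem h', chi_of_mem h2, zero_add]
    · have h2 : s ∉ U ⊔ V := fun h2 => h2.elim h h'
      rw [chi_of_notMem h, chi_of_notMem h', chi_of_notMem h2, zero_add]

theorem chi_top : chi F I ⊤ = 1 := alg_ext fun _ => chi_of_mem (U := ⊤) trivial

theorem chi_bot : chi F I ⊥ = 0 := alg_ext fun _ => chi_of_notMem (U := ⊥) fun h => h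

/-- local smallness -/
theorem small_near {ι : Type} [Finite ι] (f : ι → Alg F I) (t : I → T) (hf : ∀ k, (f k).1 t = 0)
    (η : ℝ) (hη : 0 < η) : ∃ U : TopologicalSpace.Clopens (I → T), t ∈ U ∧
      ∀ V ≤ U, ∀ k, ‖chi F I V * f k‖ ≤ η := by
  have hopen : IsOpen (⋂ k, {s | ‖(f k).1 s‖ < η}) :=
    isOpen_iInter_of_finite fun k => isOpen_lt (by fun_prop) continuous_const
  have ht : t ∈ ⋂ k, {s | ‖(f k).1 s‖ < η} := by
    refine Set.mem_iInter.2 fun k => ?_
    show ‖(f k).1 t‖ < η
    rw [hf, norm_zero]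
    exact hη
  obtain ⟨W, hW, hW1, hW2⟩ := compact_exists_isClopen_in_isOpen hopen ht
  refine ⟨⟨W, hW⟩, hW1, fun V hV k => ?_⟩
  have h3 : ‖(chi F I V * f k).1‖ ≤ η := by
    rw [ContinuousMap.norm_le _ hη.le]
    intro s
    show ‖(chi F I V).1 s * (f k).1 s‖ ≤ η
    by_cases h : s ∈ V
    · rw [chi_of_mem h, one_mul]
      have h4 : s ∈ W := hV h
      exact (Set.mem_iInter.1 (hW2 h4) k).le
    · rw [chi_of_notMem h, zero_mul, norm_zero]
      exact hη.le
  exact h3

/-- lifting homomorphisms -/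
theorem exists_section (t : I → T) : ∃ σ : At F I t →ₙ+* Alg F I, ∀ x, evA F I t (σ x) = x := by
  rcases fibre_cases F I t with h | ⟨i, htr, h⟩ | ⟨i, j, hij⟩
  · -- scalars
    have hev : ∀ x : At F I t, x.1 = algebraMap ℂ M2 (x.1 0 0) := by
      intro x
      obtain ⟨c, hc⟩ := h x.1 x.2
      have h1 : x.1 0 0 = c := by rw [hc]; simp [Matrix.algebraMap_matrix_apply]
      rw [h1, hc]
    refine ⟨{ toFun := fun x => algebraMap ℂ (Alg F I) (x.1 0 0)
              map_mul' := ?_
              map_zero' := ?_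
              map_add' := ?_ }, ?_⟩
    · intro x y
      rw [← map_mul]
      congr 1
      show (x.1 * y.1) 0 0 = _
      rw [hev x, hev y, ← map_mul]
      simp [Matrix.algebraMap_matrix_apply]
    · have : ((0 : At F I t) : M2) 0 0 = 0 := rfl
      rw [this, map_zero]
    · intro x y
      rw [← map_add]
      rfl
    · intro x
      apply Subtype.ext
      exact (hev x).symm
  · -- two characters
    have hPc := F.cont
    have hP := F.idem (t i)
    obtain ⟨P, hPd⟩ : ∃ P, P = F.P (t i) := ⟨_, rfl⟩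
    rw [← hPd] at h htr hP
    have hQ : (1 - P) * (1 - P) = 1 - P := compl_idem' hP
    have hPQ : P * (1 - P) = 0 := by rw [mul_sub, hP]; simp
    have hQP : (1 - P) * P = 0 := by rw [sub_mul, hP]; simp
    have hQt : (1 - P).trace = 1 := by
      rw [Matrix.trace_sub, htr, Matrix.trace_one]
      norm_num
    let a : M2 → ℂ := fun x => (x * (1 - P)).trace
    let b : M2 → ℂ := fun x => (x * P).trace
    have hab : ∀ c d : ℂ, a (c • (1 - P) + d • P) = c ∧ b (c • (1 - P) + d • P) = d := by
      intro c d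
      constructor
      · show ((c • (1 - P) + d • P) * (1 - P)).trace = c
        rw [add_mul, smul_mul_assoc, smul_mul_assoc, hQ, hPQ, smul_zero, add_zero,
          Matrix.trace_smul, hQt, smul_eq_mul, mul_one]
      · show ((c • (1 - P) + d • P) * P).trace = d
        rw [add_mul, smul_mul_assoc, smul_mul_assoc, hQP, hP, smul_zero, zero_add,
          Matrix.trace_smul, htr, smul_eq_mul, mul_one]
    have hdec : ∀ x : At F I t, x.1 = a x.1 • (1 - P) + b x.1 • P := fun x => h x.1 x.2
    have hmulab : ∀ x y : At F I t, a (x.1 * y.1) = a x.1 * a y.1 ∧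
        b (x.1 * y.1) = b x.1 * b y.1 := by
      intro x y
      have h1 : x.1 * y.1 = (a x.1 * a y.1) • (1 - P) + (b x.1 * b y.1) • P := by
        conv_lhs => rw [hdec x, hdec y]
        rw [add_mul, mul_add, mul_add, smul_mul_smul_comm, smul_mul_smul_comm,
          smul_mul_smul_comm, smul_mul_smul_comm, hQ, hPQ, hQP, hP]
        simp
      rw [h1]
      exact hab _ _
    have haddab : ∀ x y : M2, a (x + y) = a x + a y ∧ b (x + y) = b x + b y := by
      intro x y
      constructor
      · show ((x + y) * (1 - P)).trace = _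
        rw [add_mul, Matrix.trace_add]
      · show ((x + y) * P).trace = _
        rw [add_mul, Matrix.trace_add]
    let σ0 : M2 → Alg F I := fun x =>
      ⟨⟨fun s => a x • (1 - F.P (s i)) + b x • F.P (s i), by fun_prop⟩, fun s => by
        have h1 := good_proj F I s i (a x) (b x - a x)
        have h2 : algebraMap ℂ M2 (a x) + (b x - a x) • F.P (s i) =
            a x • (1 - F.P (s i)) + b x • F.P (s i) := by
          rw [Algebra.algebraMap_eq_smul_one]
          module
        rw [h2] at h1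
        exact h1⟩
    have hσ0 : ∀ x s, (σ0 x).1 s = a x • (1 - F.P (s i)) + b x • F.P (s i) := fun _ _ => rfl
    refine ⟨{ toFun := fun x => σ0 x.1
              map_mul' := ?_
              map_zero' := ?_
              map_add' := ?_ }, ?_⟩
    · intro x y
      apply alg_ext
      intro s
      show (σ0 (x.1 * y.1)).1 s = (σ0 x.1).1 s * (σ0 y.1).1 s
      rw [hσ0, hσ0, hσ0, (hmulab x y).1, (hmulab x y).2]
      have hP' := F.idem (s i)
      have hQ' : (1 - F.P (s i)) * (1 - F.P (s i)) = 1 - F.P (s i) := compl_idem' hP'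
      have hPQ' : F.P (s i) * (1 - F.P (s i)) = 0 := by rw [mul_sub, hP']; simp
      have hQP' : (1 - F.P (s i)) * F.P (s i) = 0 := by rw [sub_mul, hP']; simp
      rw [add_mul, mul_add, mul_add, smul_mul_smul_comm, smul_mul_smul_comm,
        smul_mul_smul_comm, smul_mul_smul_comm, hQ', hPQ', hQP', hP']
      simp
    · apply alg_ext
      intro s
      show (σ0 0).1 s = 0
      rw [hσ0]
      have h1 : a 0 = 0 := by show (0 * (1 - P)).trace = 0; simp
      have h2 : b 0 = 0 := by show (0 * P).trace = 0; simp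
      rw [h1, h2, zero_smul, zero_smul, add_zero]
    · intro x y
      apply alg_ext
      intro s
      show (σ0 (x.1 + y.1)).1 s = (σ0 x.1).1 s + (σ0 y.1).1 s
      rw [hσ0, hσ0, hσ0, (haddab x.1 y.1).1, (haddab x.1 y.1).2]
      module
    · intro x
      apply Subtype.ext
      show (σ0 x.1).1 t = x.1
      rw [hσ0, ← hPd]
      exact (hdec x).symm
  · -- the full matrix algebra
    have hopen : IsOpen {s : I → T | F.P (s i) * F.P (s j) ≠ F.P (s j) * F.P (s i)} := by
      have := F.cont
      exact isOpen_ne_fun (by fun_prop) (by fun_prop)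
    obtain ⟨W, hW, hW1, hW2⟩ := compact_exists_isClopen_in_isOpen hopen hij
    obtain ⟨U, hU⟩ : ∃ U : TopologicalSpace.Clopens (I → T), U = ⟨W, hW⟩ := ⟨_, rfl⟩
    have hUW : ∀ s, s ∈ U → F.P (s i) * F.P (s j) ≠ F.P (s j) * F.P (s i) := by
      intro s hs
      rw [hU] at hs
      exact hW2 hs
    have htU : t ∈ U := by rw [hU]; exact hW1
    let σ0 : M2 → Alg F I := fun x =>
      ⟨(chi F I U).1 * ContinuousMap.const _ x, fun s => by
        show Pool.Agent.Y78.NK.Good F I s ((chi F I U).1 s * x)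
        by_cases hs : s ∈ U
        · exact good_noncomm F I s i j (hUW s hs) _
        · rw [chi_of_notMem hs, zero_mul]
          have := good_scalar F I s 0
          rwa [map_zero] at this⟩
    have hσ0 : ∀ x s, (σ0 x).1 s = (chi F I U).1 s * x := fun _ _ => rfl
    refine ⟨{ toFun := fun x => σ0 x.1
              map_mul' := ?_
              map_zero' := ?_
              map_add' := ?_ }, ?_⟩
    · intro x y
      apply alg_ext
      intro s
      show (σ0 (x.1 * y.1)).1 s = (σ0 x.1).1 s * (σ0 y.1).1 s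
      rw [hσ0, hσ0, hσ0]
      by_cases hs : s ∈ U
      · rw [chi_of_mem hs, one_mul, one_mul, one_mul]
      · rw [chi_of_notMem hs, zero_mul, zero_mul, zero_mul]
    · apply alg_ext
      intro s
      show (σ0 0).1 s = 0
      rw [hσ0, mul_zero]
    · intro x y
      apply alg_ext
      intro s
      show (σ0 (x.1 + y.1)).1 s = (σ0 x.1).1 s + (σ0 y.1).1 s
      rw [hσ0, hσ0, hσ0, mul_add]
    · intro x
      apply Subtype.ext
      show (σ0 x.1).1 t = x.1
      rw [hσ0, chi_of_mem htU, one_mul]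

end Pool.Agent.V8H73.NK2
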