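import Pool.Agent.V8H73.NK2.Union
import Pool.Agent.H494R3.NK.MatZ

set_option autoImplicit false

/-!
The monoid `V` of a ring of sections over a zero-dimensional space with semisimple fibres.
-/

namespace Pool.Agent.V8H73.NK2

open Pool.Agent.H494R3.NK

universe u

/-- A ring `B` of sections over a space `X` with a Boolean algebra `L` of clopen sets. -/
structure Shf (B : Type) [Ring B] (X : Type) (L : Type) [BooleanAlgebra L] where
  /-- membership -/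
  mem : X → L → Prop
  mem_inf : ∀ t U V, mem t U → mem t V → mem t (U ⊓ V)
  /-- characteristic functions -/
  chi : L → B
  comm : ∀ U b, chi U * b = b * chi U
  mul : ∀ U V, chi U * chi V = chi (U ⊓ V)
  top : chi ⊤ = 1
  bot : chi ⊥ = 0
  sup : ∀ U V, Disjoint U V → chi (U ⊔ V) = chi U + chi V
  /-- the fibres -/
  A : X → Type
  /-- the ring structure of the fibres -/
  ringA : ∀ t, Ring (A t)
  ss : ∀ t, IsSemisimpleRing (A t)
  /-- evaluation -/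
  ev : ∀ t, B →+* A t
  ev_chi : ∀ t U, mem t U → ev t (chi U) = 1
  sec : ∀ t, ∃ σ : A t →ₙ+* B, ∀ x, ev t (σ x) = x
  near : ∀ t (n : ℕ) (D : Matrix (Fin n) (Fin n) B), (∀ i j, ev t (D i j) = 0) →
    ∃ U, mem t U ∧ ∀ V ≤ U, ∃ W : Matrix (Fin n) (Fin n) B,
      (1 - (Matrix.diagonal fun _ => chi V) * D) * W = 1 ∧
        W * (1 - (Matrix.diagonal fun _ => chi V) * D) = 1
  glue : ∀ K : L → Prop, K ⊥ → (∀ U V, U ≤ V → K V → K U) →
    (∀ U V, Disjoint U V → K U → K V → K (U ⊔ V)) → (∀ t, ∃ U, mem t U ∧ K U) → K ⊤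

attribute [instance] Shf.ringA Shf.ss

section
variable {B : Type} [Ring B] {X : Type} {L : Type} [BooleanAlgebra L] (𝒮 : Shf B X L)

/-- multiplication with the characteristic function -/
noncomputable def mulU (U : L) : B →ₙ+* B where
  toFun f := 𝒮.chi U * f
  map_mul' f g := by
    calc 𝒮.chi U * (f * g) = (𝒮.chi U * 𝒮.chi U) * f * g := by
          rw [𝒮.mul, inf_idem, mul_assoc]
      _ = 𝒮.chi U * (𝒮.chi U * f) * g := by simp only [mul_assoc]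
      _ = 𝒮.chi U * (f * 𝒮.chi U) * g := by rw [𝒮.comm U f]
      _ = _ := by simp only [mul_assoc]
  map_zero' := mul_zero _
  map_add' f g := mul_add _ _ _

theorem mulU_apply (U : L) (f : B) : mulU 𝒮 U f = 𝒮.chi U * f := rfl

/-- restriction to a clopen set -/
noncomputable def rU (U : L) : VV B →+ VV B := vmap (mulU 𝒮 U)

theorem rU_gcl (U : L) {ι : Type} [Fintype ι] {E : Matrix ι ι B} (h : E * E = E) :
    rU 𝒮 U (gcl E h) = gcl (E.map (mulU 𝒮 U)) (map_idem _ h) := vmap_gcl _ h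

theorem rU_rU (U V : L) (c : VV B) : rU 𝒮 U (rU 𝒮 V c) = rU 𝒮 (U ⊓ V) c := by
  obtain ⟨n, E, hE, rfl⟩ := exists_gcl c
  rw [rU_gcl, rU_gcl, rU_gcl]
  apply gcl_congr
  ext1 i j
  show 𝒮.chi U * (𝒮.chi V * E i j) = 𝒮.chi (U ⊓ V) * E i j
  rw [← mul_assoc, 𝒮.mul]

theorem rU_top (c : VV B) : rU 𝒮 ⊤ c = c := by
  obtain ⟨n, E, hE, rfl⟩ := exists_gcl c
  rw [rU_gcl]
  apply gcl_congr
  ext1 i j
  show 𝒮.chi ⊤ * E i j = E i j
  rw [𝒮.top, one_mul]

theorem rU_bot (c : VV B) : rU 𝒮 ⊥ c = 0 := by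
  obtain ⟨n, E, hE, rfl⟩ := exists_gcl c
  rw [rU_gcl, gcl_eq_zero]
  ext1 i j
  show 𝒮.chi ⊥ * E i j = 0
  rw [𝒮.bot, zero_mul]

/-- the diagonal matrix of the characteristic function -/
noncomputable def XU (U : L) (n : ℕ) : Matrix (Fin n) (Fin n) B :=
  Matrix.diagonal fun _ => 𝒮.chi U

theorem XU_mul (U : L) {n m : ℕ} (M : Matrix (Fin n) (Fin m) B) :
    XU 𝒮 U n * M = M.map (mulU 𝒮 U) := by
  ext1 i j
  unfold XU
  rw [Matrix.diagonal_mul]
  rfl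

theorem XU_comm (U : L) {n m : ℕ} (M : Matrix (Fin n) (Fin m) B) :
    XU 𝒮 U n * M = M * XU 𝒮 U m := by
  ext1 i j
  unfold XU
  rw [Matrix.diagonal_mul, Matrix.mul_diagonal, 𝒮.comm]

theorem XU_XU (U V : L) (n : ℕ) : (XU 𝒮 U n : Matrix (Fin n) (Fin n) B) * XU 𝒮 V n =
    XU 𝒮 (U ⊓ V) n := by
  unfold XU
  rw [Matrix.diagonal_mul_diagonal]
  congr 1
  funext i
  exact 𝒮.mul U V

theorem rU_sup {U V : L} (hd : Disjoint U V) (c : VV B) :
    rU 𝒮 (U ⊔ V) c = rU 𝒮 U c + rU 𝒮 V c := by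
  obtain ⟨n, E, hE, rfl⟩ := exists_gcl c
  rw [rU_gcl, rU_gcl, rU_gcl]
  have h1 : E.map (mulU 𝒮 (U ⊔ V)) = E.map (mulU 𝒮 U) + E.map (mulU 𝒮 V) := by
    ext1 i j
    show 𝒮.chi (U ⊔ V) * E i j = 𝒮.chi U * E i j + 𝒮.chi V * E i j
    rw [𝒮.sup _ _ hd, add_mul]
  have ho : ∀ U V : L, Disjoint U V → E.map (mulU 𝒮 U) * E.map (mulU 𝒮 V) = 0 := by
    intro U V hd
    rw [← XU_mul, ← XU_mul]
    calc XU 𝒮 U n * E * (XU 𝒮 V n * E) = XU 𝒮 U n * (E * XU 𝒮 V n) * E := by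
          simp only [Matrix.mul_assoc]
      _ = (XU 𝒮 U n * XU 𝒮 V n) * E * E := by rw [← XU_comm]; simp only [Matrix.mul_assoc]
      _ = 0 := by
        rw [XU_XU, hd.eq_bot]
        have : (XU 𝒮 ⊥ n : Matrix (Fin n) (Fin n) B) = 0 := by
          unfold XU
          rw [𝒮.bot, Matrix.diagonal_zero]
        rw [this, Matrix.zero_mul, Matrix.zero_mul]
  have h2 : (E.map (mulU 𝒮 U) + E.map (mulU 𝒮 V)) * (E.map (mulU 𝒮 U) + E.map (mulU 𝒮 V)) =
      E.map (mulU 𝒮 U) + E.map (mulU 𝒮 V) := by rw [← h1, map_idem _ hE]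
  rw [← gcl_orth (map_idem _ hE) (map_idem _ hE) (ho U V hd) (ho V U hd.symm) h2]
  exact gcl_congr h1 _ _

/-- the class of the fibre -/
noncomputable def evV (t : X) : VV B →+ VV (𝒮.A t) := vr (𝒮.ev t)

theorem evV_surj (t : X) (c : VV (𝒮.A t)) : ∃ d : VV B, evV 𝒮 t d = c := by
  obtain ⟨σ, hσ⟩ := 𝒮.sec t
  refine ⟨vmap σ c, ?_⟩
  obtain ⟨n, E, hE, rfl⟩ := exists_gcl c
  rw [vmap_gcl]
  unfold evV
  rw [vr_gcl]
  apply gcl_congr
  ext1 i j
  exact hσ _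

/-- equality of classes is local -/
theorem loc_eq (t : X) (c d : VV B) (h : evV 𝒮 t c = evV 𝒮 t d) :
    ∃ U : L, 𝒮.mem t U ∧ rU 𝒮 U c = rU 𝒮 U d := by
  obtain ⟨n, E, hE, rfl⟩ := exists_gcl c
  obtain ⟨m, G, hG, rfl⟩ := exists_gcl d
  unfold evV at h
  rw [vr_gcl, vr_gcl, gcl_eq] at h
  obtain ⟨x0, y0, hxy0, hyx0⟩ := h
  obtain ⟨σ, hσ⟩ := 𝒮.sec t
  obtain ⟨ε, hε⟩ : ∃ ε : B →+* 𝒮.A t, ε = 𝒮.ev t := ⟨_, rfl⟩
  rw [← hε] at hxy0 hyx0 hσ
  obtain ⟨x, hx⟩ : ∃ x : Matrix (Fin n) (Fin m) B, x.map ε = x0 :=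
    ⟨x0.map σ, by ext1 i j; exact hσ _⟩
  obtain ⟨y, hy⟩ : ∃ y : Matrix (Fin m) (Fin n) B, y.map ε = y0 :=
    ⟨y0.map σ, by ext1 i j; exact hσ _⟩
  obtain ⟨x1, hx1⟩ : ∃ x1, x1 = E * x * G := ⟨_, rfl⟩
  obtain ⟨y1, hy1⟩ : ∃ y1, y1 = G * y * E := ⟨_, rfl⟩
  have Ex1 : E * x1 = x1 := by rw [hx1, ← Matrix.mul_assoc, ← Matrix.mul_assoc, hE]
  have x1G : x1 * G = x1 := by rw [hx1, Matrix.mul_assoc, hG]
  have Gy1 : G * y1 = y1 := by rw [hy1, ← Matrix.mul_assoc, ← Matrix.mul_assoc, hG]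
  have y1E : y1 * E = y1 := by rw [hy1, Matrix.mul_assoc, hE]
  have emap : ∀ {a b c : ℕ} (M : Matrix (Fin a) (Fin b) B)
      (N : Matrix (Fin b) (Fin c) B), (M * N).map ε = M.map ε * N.map ε :=
    fun M N => Matrix.map_mul
  have hEt : E.map ε * E.map ε = E.map ε := by rw [← emap, hE]
  have hGt : G.map ε * G.map ε = G.map ε := by rw [← emap, hG]
  have hx1y1 : x1.map ε * y1.map ε = E.map ε := by
    rw [hx1, hy1, emap, emap, emap, emap, hx, hy]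
    calc E.map ε * x0 * G.map ε * (G.map ε * y0 * E.map ε) =
        E.map ε * x0 * (G.map ε * G.map ε) * y0 * E.map ε := by simp only [Matrix.mul_assoc]
      _ = E.map ε * (x0 * y0) * (x0 * y0) * E.map ε := by
        rw [hGt, ← hyx0]; simp only [Matrix.mul_assoc]
      _ = E.map ε := by rw [hxy0, hEt, hEt, hEt]
  have hy1x1 : y1.map ε * x1.map ε = G.map ε := by
    rw [hx1, hy1, emap, emap, emap, emap, hx, hy]
    calc G.map ε * y0 * E.map ε * (E.map ε * x0 * G.map ε) =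
        G.map ε * y0 * (E.map ε * E.map ε) * x0 * G.map ε := by simp only [Matrix.mul_assoc]
      _ = G.map ε * (y0 * x0) * (y0 * x0) * G.map ε := by
        rw [hEt, ← hxy0]; simp only [Matrix.mul_assoc]
      _ = G.map ε := by rw [hyx0, hGt, hGt, hGt]
  obtain ⟨D, hD⟩ : ∃ D, D = E - x1 * y1 := ⟨_, rfl⟩
  have zero_of : ∀ {a b : ℕ} (M N : Matrix (Fin a) (Fin b) B), M.map ε = N.map ε →
      ∀ i j, 𝒮.ev t ((M - N) i j) = 0 := by
    intro a b M N hMN i j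
    have h1 : ε (M i j) = ε (N i j) := congrFun (congrFun hMN i) j
    rw [hε] at h1
    rw [Matrix.sub_apply, map_sub, h1, sub_self]
  obtain ⟨U, hU, hUW⟩ := 𝒮.near t n D (by
    rw [hD]
    exact zero_of _ _ (by rw [emap, hx1y1]))
  obtain ⟨W, hvW, hWv⟩ := hUW U le_rfl
  obtain ⟨X, hX⟩ : ∃ X : Matrix (Fin n) (Fin n) B, X = XU 𝒮 U n := ⟨_, rfl⟩
  obtain ⟨X', hX'⟩ : ∃ X' : Matrix (Fin m) (Fin m) B, X' = XU 𝒮 U m := ⟨_, rfl⟩
  have XX : X * X = X := by rw [hX, XU_XU, inf_idem]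
  have XX' : X' * X' = X' := by rw [hX', XU_XU, inf_idem]
  have Xc : ∀ M : Matrix (Fin n) (Fin n) B, X * M = M * X := fun M => by
    rw [hX, XU_comm]
  have Xc1 : ∀ M : Matrix (Fin n) (Fin m) B, X * M = M * X' := fun M => by
    rw [hX, hX', XU_comm]
  have Xc2 : ∀ M : Matrix (Fin m) (Fin n) B, X' * M = M * X := fun M => by
    rw [hX, hX', XU_comm]
  have hXe : (Matrix.diagonal fun _ => 𝒮.chi U : Matrix (Fin n) (Fin n) B) = X := hX.symm
  rw [hXe] at hvW hWv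
  have ED : E * D = D := by
    rw [hD, Matrix.mul_sub, hE, ← Matrix.mul_assoc, Ex1]
  -- the factorisation of `1_U E`
  have hXE : X * E = X * x1 * (y1 * W) := by
    have h1 : X * E * (1 - X * D) = X * x1 * y1 := by
      calc X * E * (1 - X * D) = X * E - (X * X) * (E * D) := by
            rw [Matrix.mul_sub, Matrix.mul_one]
            congr 1
            calc X * E * (X * D) = X * (E * X) * D := by simp only [Matrix.mul_assoc]
              _ = X * X * (E * D) := by rw [← Xc]; simp only [Matrix.mul_assoc]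
        _ = X * (E - D) := by rw [XX, ED, Matrix.mul_sub]
        _ = X * x1 * y1 := by
          rw [hD, Matrix.mul_assoc]
          congr 1
          abel
    calc X * E = X * E * ((1 - X * D) * W) := by rw [hvW, Matrix.mul_one]
      _ = X * E * (1 - X * D) * W := by simp only [Matrix.mul_assoc]
      _ = _ := by rw [h1]; simp only [Matrix.mul_assoc]
  obtain ⟨x2, hx2⟩ : ∃ x2, x2 = X * x1 := ⟨_, rfl⟩
  obtain ⟨y2, hy2⟩ : ∃ y2, y2 = y1 * W := ⟨_, rfl⟩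
  rw [← hx2, ← hy2] at hXE
  have hXEx2 : (X * E) * x2 = x2 := by
    calc (X * E) * x2 = X * (E * X) * x1 := by rw [hx2]; simp only [Matrix.mul_assoc]
      _ = (X * X) * (E * x1) := by rw [← Xc]; simp only [Matrix.mul_assoc]
      _ = x2 := by rw [XX, Ex1, hx2]
  obtain ⟨g, hg⟩ : ∃ g, g = y2 * x2 := ⟨_, rfl⟩
  have hgg : g * g = g := by
    calc g * g = y2 * ((x2 * y2) * x2) := by rw [hg]; simp only [Matrix.mul_assoc]
      _ = g := by rw [← hXE, hXEx2, hg]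
  have hGg : G * g = g := by
    rw [hg, hy2, ← Matrix.mul_assoc, ← Matrix.mul_assoc, Gy1]
  have hgG : g * G = g := by
    rw [hg, hx2, Matrix.mul_assoc, Matrix.mul_assoc, x1G]
  have hX'g : X' * g = g := by
    rw [hg, hx2]
    calc X' * (y2 * (X * x1)) = (X' * y2) * (X * x1) := by rw [Matrix.mul_assoc]
      _ = y2 * ((X * X) * x1) := by rw [Xc2]; simp only [Matrix.mul_assoc]
      _ = _ := by rw [XX]
  have hgX' : g * X' = g := by
    calc g * X' = y2 * (X * (x1 * X')) := by rw [hg, hx2]; simp only [Matrix.mul_assoc]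
      _ = y2 * ((X * X) * x1) := by rw [← Xc1]; simp only [Matrix.mul_assoc]
      _ = g := by rw [XX, hg, hx2]
  obtain ⟨k, hk⟩ : ∃ k, k = X' * G - g := ⟨_, rfl⟩
  have hX'G : (X' * G) * (X' * G) = X' * G := by
    calc (X' * G) * (X' * G) = X' * (G * X') * G := by simp only [Matrix.mul_assoc]
      _ = (X' * X') * (G * G) := by
        have : G * X' = X' * G := by rw [hX', XU_comm]
        rw [this]
        simp only [Matrix.mul_assoc]
      _ = X' * G := by rw [XX', hG]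
  have hkk : k * k = k := by
    rw [hk, Matrix.mul_sub, Matrix.sub_mul, Matrix.sub_mul, hX'G, hgg]
    have e1 : g * (X' * G) = g := by rw [← Matrix.mul_assoc, hgX', hgG]
    have e2 : (X' * G) * g = g := by rw [Matrix.mul_assoc, hGg, hX'g]
    rw [e1, e2]
    abel
  -- the values at `t`
  have hXt : ∀ a : ℕ, (XU 𝒮 U a : Matrix (Fin a) (Fin a) B).map ε = 1 := by
    intro a
    ext1 i j
    by_cases hij : i = j
    · subst hij
      rw [Matrix.one_apply_eq]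
      show ε (XU 𝒮 U a i i) = 1
      unfold XU
      rw [Matrix.diagonal_apply_eq, hε]
      exact 𝒮.ev_chi t U hU
    · rw [Matrix.one_apply_ne hij]
      show ε (XU 𝒮 U a i j) = 0
      unfold XU
      rw [Matrix.diagonal_apply_ne _ hij, map_zero]
  have hone : (1 : Matrix (Fin n) (Fin n) B).map ε = 1 :=
    Matrix.map_one _ (map_zero ε) (map_one ε)
  have hDt : D.map ε = 0 := by
    rw [hD]
    have : (E - x1 * y1).map ε = E.map ε - (x1 * y1).map ε := Matrix.map_sub _ (map_sub ε) _ _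
    rw [this, emap, hx1y1, sub_self]
  have hWt : W.map ε = 1 := by
    have h1 : ((1 - X * D) * W).map ε = (1 : Matrix (Fin n) (Fin n) B).map ε := by rw [hvW]
    rw [emap, hone] at h1
    have h2 : (1 - X * D).map ε = 1 := by
      have : (1 - X * D).map ε = (1 : Matrix (Fin n) (Fin n) B).map ε - (X * D).map ε :=
        Matrix.map_sub _ (map_sub ε) _ _
      rw [this, emap, hone, hDt, Matrix.mul_zero, sub_zero]
    rwa [h2, Matrix.one_mul] at h1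
  have hkt : ∀ i j, 𝒮.ev t (k i j) = 0 := by
    rw [hk]
    apply zero_of
    rw [emap, hX', hXt, Matrix.one_mul, hg, hx2, hy2, emap, emap, emap, hWt, hX, hXt,
      Matrix.mul_one, Matrix.one_mul, hy1x1]
  obtain ⟨V0, hV0, hV0W⟩ := 𝒮.near t m k hkt
  obtain ⟨V, hV⟩ : ∃ V : L, V = U ⊓ V0 := ⟨_, rfl⟩
  have htV : 𝒮.mem t V := by rw [hV]; exact 𝒮.mem_inf _ _ _ hU hV0
  have hVU : V ≤ U := by rw [hV]; exact inf_le_left
  obtain ⟨W', _, hWv'⟩ := hV0W V (by rw [hV]; exact inf_le_right)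
  have hXV : (Matrix.diagonal fun _ => 𝒮.chi V : Matrix (Fin m) (Fin m) B) = XU 𝒮 V m := rfl
  rw [hXV] at hWv'
  have hVk : XU 𝒮 V m * k = 0 := by
    have e1 : XU 𝒮 V m * k * (XU 𝒮 V m * k) = XU 𝒮 V m * k := by
      calc XU 𝒮 V m * k * (XU 𝒮 V m * k) = XU 𝒮 V m * (k * XU 𝒮 V m) * k := by
            simp only [Matrix.mul_assoc]
        _ = (XU 𝒮 V m * XU 𝒮 V m) * (k * k) := by rw [← XU_comm]; simp only [Matrix.mul_assoc]
        _ = XU 𝒮 V m * k := by rw [XU_XU, inf_idem, hkk]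
    have e2 : (1 - XU 𝒮 V m * k) * (XU 𝒮 V m * k) = 0 := by
      rw [Matrix.sub_mul, Matrix.one_mul, e1, sub_self]
    calc XU 𝒮 V m * k = (W' * (1 - XU 𝒮 V m * k)) * (XU 𝒮 V m * k) := by rw [hWv', Matrix.one_mul]
      _ = 0 := by rw [Matrix.mul_assoc, e2, Matrix.mul_zero]
  refine ⟨V, htV, ?_⟩
  rw [rU_gcl, rU_gcl, gcl_eq, ← XU_mul, ← XU_mul]
  refine ⟨XU 𝒮 V n * x2, y2, ?_, ?_⟩
  · rw [Matrix.mul_assoc, ← hXE, hX, ← Matrix.mul_assoc, XU_XU, inf_eq_left.2 hVU]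
  · calc y2 * (XU 𝒮 V n * x2) = (y2 * XU 𝒮 V n) * x2 := by rw [Matrix.mul_assoc]
      _ = XU 𝒮 V m * g := by rw [← XU_comm, Matrix.mul_assoc, hg]
      _ = XU 𝒮 V m * (X' * G) := by
        have : g = X' * G - k := by rw [hk]; abel
        rw [this, Matrix.mul_sub, hVk, sub_zero]
      _ = XU 𝒮 V m * G := by rw [hX', ← Matrix.mul_assoc, XU_XU, inf_eq_left.2 hVU]

include 𝒮 in
/-- The monoid `V` of the ring is good. -/
theorem Shf.good : GoodMon (VV B) where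
  cancel a b c h := by
    have := 𝒮.glue (fun U : L => rU 𝒮 U a = rU 𝒮 U b) (by rw [rU_bot, rU_bot])
      (fun U V hUV hV => by
        have h1 := congrArg (rU 𝒮 U) hV
        rwa [rU_rU, rU_rU, inf_eq_left.2 hUV] at h1)
      (fun U V hd hU hV => by rw [rU_sup 𝒮 hd, rU_sup 𝒮 hd, hU, hV])
      (fun t => by
        have h1 := congrArg (evV 𝒮 t) h
        rw [map_add, map_add] at h1
        exact loc_eq 𝒮 t a b ((good_semisimple (𝒮.A t)).cancel _ _ _ h1))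
    rwa [rU_top, rU_top] at this
  unperf n a b x hn h := by
    have := 𝒮.glue (fun U : L => ∃ y, rU 𝒮 U a + rU 𝒮 U y = rU 𝒮 U b)
      ⟨0, by rw [rU_bot, rU_bot, rU_bot, add_zero]⟩
      (fun U V hUV ⟨y, hy⟩ => by
        have h1 := congrArg (rU 𝒮 U) hy
        rw [map_add, rU_rU, rU_rU, rU_rU, inf_eq_left.2 hUV] at h1
        exact ⟨y, h1⟩)
      (fun U V hd ⟨y, hy⟩ ⟨z, hz⟩ => by
        refine ⟨rU 𝒮 U y + rU 𝒮 V z, ?_⟩
        rw [rU_sup 𝒮 hd, rU_sup 𝒮 hd, rU_sup 𝒮 hd, map_add, map_add, rU_rU, rU_rU, rU_rU, rU_rU,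
          inf_idem, inf_idem, hd.eq_bot, hd.symm.eq_bot, rU_bot, rU_bot, add_zero, zero_add,
          ← hy, ← hz]
        abel)
      (fun t => by
        have h1 := congrArg (evV 𝒮 t) h
        rw [map_add, map_nsmul, map_nsmul] at h1
        obtain ⟨y, hy⟩ := (good_semisimple (𝒮.A t)).unperf n _ _ _ hn h1
        obtain ⟨y', hy'⟩ := evV_surj 𝒮 t y
        rw [← hy', ← map_add] at hy
        obtain ⟨U, hU, h2⟩ := loc_eq 𝒮 t _ _ hy
        rw [map_add] at h2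
        exact ⟨U, hU, y', h2⟩)
    obtain ⟨y, hy⟩ := this
    rw [rU_top, rU_top, rU_top] at hy
    exact ⟨y, hy⟩
  refine a b c d h := by
    have := 𝒮.glue (fun U : L => ∃ x y z w, rU 𝒮 U a = rU 𝒮 U (x + y) ∧ rU 𝒮 U b = rU 𝒮 U (z + w) ∧
        rU 𝒮 U c = rU 𝒮 U (x + z) ∧ rU 𝒮 U d = rU 𝒮 U (y + w))
      ⟨0, 0, 0, 0, by simp only [rU_bot, and_self]⟩
      (fun U V hUV ⟨x, y, z, w, h1, h2, h3, h4⟩ => by
        refine ⟨x, y, z, w, ?_, ?_, ?_, ?_⟩
        · have h5 := congrArg (rU 𝒮 U) h1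
          rwa [rU_rU, rU_rU, inf_eq_left.2 hUV] at h5
        · have h5 := congrArg (rU 𝒮 U) h2
          rwa [rU_rU, rU_rU, inf_eq_left.2 hUV] at h5
        · have h5 := congrArg (rU 𝒮 U) h3
          rwa [rU_rU, rU_rU, inf_eq_left.2 hUV] at h5
        · have h5 := congrArg (rU 𝒮 U) h4
          rwa [rU_rU, rU_rU, inf_eq_left.2 hUV] at h5)
      (fun U V hd ⟨x, y, z, w, h1, h2, h3, h4⟩ ⟨x', y', z', w', h1', h2', h3', h4'⟩ => by
        have key : ∀ p q p' q' e : VV B, rU 𝒮 U e = rU 𝒮 U (p + q) →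
            rU 𝒮 V e = rU 𝒮 V (p' + q') →
            rU 𝒮 (U ⊔ V) e = rU 𝒮 (U ⊔ V) ((rU 𝒮 U p + rU 𝒮 V p') + (rU 𝒮 U q + rU 𝒮 V q')) := by
          intro p q p' q' e he he'
          rw [rU_sup 𝒮 hd, rU_sup 𝒮 hd, he, he']
          simp only [map_add, rU_rU, inf_idem, hd.eq_bot, hd.symm.eq_bot, rU_bot, add_zero,
            zero_add]
        exact ⟨rU 𝒮 U x + rU 𝒮 V x', rU 𝒮 U y + rU 𝒮 V y', rU 𝒮 U z + rU 𝒮 V z', rU 𝒮 U w + rU 𝒮 V w',
          key _ _ _ _ _ h1 h1', key _ _ _ _ _ h2 h2', key _ _ _ _ _ h3 h3',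
          key _ _ _ _ _ h4 h4'⟩)
      (fun t => by
        have h1 := congrArg (evV 𝒮 t) h
        rw [map_add, map_add] at h1
        obtain ⟨x, y, z, w, e1, e2, e3, e4⟩ := (good_semisimple (𝒮.A t)).refine _ _ _ _ h1
        obtain ⟨x', hx⟩ := evV_surj 𝒮 t x
        obtain ⟨y', hy⟩ := evV_surj 𝒮 t y
        obtain ⟨z', hz⟩ := evV_surj 𝒮 t z
        obtain ⟨w', hw⟩ := evV_surj 𝒮 t w
        rw [← hx, ← hy, ← map_add] at e1
        rw [← hz, ← hw, ← map_add] at e2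
        rw [← hx, ← hz, ← map_add] at e3
        rw [← hy, ← hw, ← map_add] at e4
        obtain ⟨U1, hU1, f1⟩ := loc_eq 𝒮 t _ _ e1
        obtain ⟨U2, hU2, f2⟩ := loc_eq 𝒮 t _ _ e2
        obtain ⟨U3, hU3, f3⟩ := loc_eq 𝒮 t _ _ e3
        obtain ⟨U4, hU4, f4⟩ := loc_eq 𝒮 t _ _ e4
        have res : ∀ (U V : L) (p q : VV B), U ≤ V → rU 𝒮 V p = rU 𝒮 V q →
            rU 𝒮 U p = rU 𝒮 U q := by
          intro U V p q hUV hpq
          have h5 := congrArg (rU 𝒮 U) hpq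
          rwa [rU_rU, rU_rU, inf_eq_left.2 hUV] at h5
        refine ⟨U1 ⊓ U2 ⊓ (U3 ⊓ U4), 𝒮.mem_inf _ _ _ (𝒮.mem_inf _ _ _ hU1 hU2)
          (𝒮.mem_inf _ _ _ hU3 hU4), x', y', z', w',
          res _ U1 _ _ (inf_le_left.trans inf_le_left) f1,
          res _ U2 _ _ (inf_le_left.trans inf_le_right) f2,
          res _ U3 _ _ (inf_le_right.trans inf_le_left) f3,
          res _ U4 _ _ (inf_le_right.trans inf_le_right) f4⟩)
    obtain ⟨x, y, z, w, h1, h2, h3, h4⟩ := this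
    rw [rU_top, rU_top] at h1 h2 h3 h4
    exact ⟨x, y, z, w, h1, h2, h3, h4⟩

end

end Pool.Agent.V8H73.NK2
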