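import Pool.Agent.V8H73.NK2.AlgG
import Pool.Agent.V8H73.NK2.Sheaf

set_option autoImplicit false

/-!
The monoid `V` of the C*-algebra of continuous functions on a power of the Cantor space is
cancellative and unperforated and has the refinement property.
-/

namespace Pool.Agent.V8H73.NK2

open Pool.Agent.H494R3.NK Pool.Agent.Y78.NK
open scoped Matrix.Norms.L2Operator

/-- gluing of local properties -/
theorem glue (I : Type) (K : TopologicalSpace.Clopens (I → T) → Prop) (h0 : K ⊥)
    (hmono : ∀ U V, U ≤ V → K V → K U)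
    (hsup : ∀ U V, Disjoint U V → K U → K V → K (U ⊔ V))
    (hloc : ∀ t : I → T, ∃ U : TopologicalSpace.Clopens (I → T), t ∈ U ∧ K U) : K ⊤ := by
  have key : ∃ V : TopologicalSpace.Clopens (I → T), (Set.univ : Set (I → T)) ⊆ V ∧ K V := by
    refine IsCompact.induction_on
      (p := fun s : Set (I → T) => ∃ V : TopologicalSpace.Clopens (I → T), s ⊆ V ∧ K V)
      isCompact_univ ?_ ?_ ?_ ?_
    · exact ⟨⊥, Set.empty_subset _, h0⟩
    · rintro s s' hss ⟨V, hV, hK⟩
      exact ⟨V, hss.trans hV, hK⟩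
    · rintro s s' ⟨V, hV, hK⟩ ⟨V', hV', hK'⟩
      refine ⟨V ⊔ (V' \ V), ?_, hsup _ _ disjoint_sdiff_self_right hK
        (hmono _ _ sdiff_le hK')⟩
      intro x hx
      rw [sup_sdiff_self_right]
      rcases hx with hx | hx
      · exact Or.inl (hV hx)
      · exact Or.inr (hV' hx)
    · intro t _
      obtain ⟨U, hU, hK⟩ := hloc t
      refine ⟨U, ?_, U, subset_rfl, hK⟩
      rw [nhdsWithin_univ]
      exact U.isOpen.mem_nhds hU
  obtain ⟨V, hV, hK⟩ := key
  have : V = ⊤ := by
    apply top_unique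
    intro x _
    exact hV (Set.mem_univ x)
  rwa [this] at hK

/-- small perturbations of the identity matrix are invertible -/
theorem unit_abs {B : Type} [NormedRing B] [CompleteSpace B] {n : ℕ}
    (D : Matrix (Fin n) (Fin n) B) (h : ∀ i j, ‖D i j‖ ≤ 1 / ((n : ℝ) + 1)) :
    ∃ W : Matrix (Fin n) (Fin n) B, (1 - D) * W = 1 ∧ W * (1 - D) = 1 := by
  let _ := Matrix.linftyOpNormedRing (n := Fin n) (α := B)
  have h1 : ‖D‖ ≤ n * (1 / ((n : ℝ) + 1)) := mat_norm _ _ (by positivity) h
  have h2 : ‖D‖ < 1 := by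
    refine lt_of_le_of_lt h1 ?_
    rw [mul_one_div, div_lt_one (by positivity)]
    linarith
  obtain ⟨v, hv⟩ := mat_unit _ h2
  exact ⟨((v⁻¹ : (Matrix (Fin n) (Fin n) B)ˣ) : Matrix (Fin n) (Fin n) B),
    by rw [← hv]; exact Units.mul_inv v, by rw [← hv]; exact Units.inv_mul v⟩

variable (F : Fam) (I : Type)

/-- the structure of a ring of sections -/
noncomputable def algShf : Shf (Alg F I) (I → T) (TopologicalSpace.Clopens (I → T)) where
  mem t U := t ∈ U
  mem_inf _ _ _ h h' := ⟨h, h'⟩
  chi U := chi F I U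
  comm := chi_comm
  mul := chi_mul
  top := chi_top
  bot := chi_bot
  sup _ _ h := chi_sup h
  A t := At F I t
  ringA t := inferInstance
  ss t := inferInstance
  ev t := evA F I t
  ev_chi t U h := Subtype.ext (chi_of_mem h)
  sec t := exists_section t
  near t n D hD := by
    obtain ⟨U, hU, h⟩ := small_near (fun p : Fin n × Fin n => D p.1 p.2) t
      (fun p => congrArg Subtype.val (hD p.1 p.2)) (1 / ((n : ℝ) + 1)) (by positivity)
    refine ⟨U, hU, fun V hV => ?_⟩
    apply unit_abs
    intro i j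
    have h1 := h V hV (i, j)
    rw [Matrix.diagonal_mul]
    exact h1
  glue := glue I

theorem Alg_good : GoodMon (VV (Alg F I)) := (algShf F I).good

end Pool.Agent.V8H73.NK2
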