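import Pool.Agent.V8H73.NK2.CId
import Pool.Agent.H996R3.NK.CornerSelf
import Pool.Agent.H823R3.NK.TaskClose
import Pool.Agent.H720R3.NK.TaskSpectral
import Pool.Agent.H486R3.NK.TaskDense
import Pool.Agent.H719R4.NK.Sum

set_option autoImplicit false

/-!
Approximation of self-adjoint elements of a corner of a C*-algebra of real rank zero by linear
combinations of orthogonal projections.
-/

namespace Pool.Agent.V8H73.NK2

open Pool.Agent.H494R3.NK

universe u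

section unital
variable {U : Type u} [CStarAlgebra U]

theorem appr_unital (p x : U) (hpp : p * p = p) (hps : star p = p)
    (hx : star x = x) (hpx : p * x = x) (hxp : x * p = x)
    (hR : ∀ y : U, IsSelfAdjoint y → ∀ ε : ℝ, 0 < ε →
      ∃ h : U, IsSelfAdjoint h ∧ (spectrum ℂ h).Finite ∧ ‖y - h‖ < ε)
    (ε : ℝ) (hε : 0 < ε) :
    ∃ (S : Finset ℝ) (g : ℝ → U) (c : ℝ → ℂ),
      (∀ μ ∈ S, g μ * g μ = g μ ∧ star (g μ) = g μ) ∧
      (∀ μ ∈ S, ∀ ν ∈ S, μ ≠ ν → g μ * g ν = 0) ∧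
      (∀ μ ∈ S, ‖c μ‖ ≤ 2 * (‖x‖ + 1)) ∧ ‖p - ∑ μ ∈ S, g μ‖ ≤ ε ∧ ‖p - ∑ μ ∈ S, g μ‖ ≤ 1 / 4 ∧
      ‖x - ∑ μ ∈ S, c μ • g μ‖ ≤ ε ∧
      ∃ v w : U, v * w = 1 ∧ w * v = 1 ∧ p = v * (∑ μ ∈ S, g μ) * w ∧
        (∑ μ ∈ S, g μ) * w * v * (∑ μ ∈ S, g μ) = ∑ μ ∈ S, g μ := by
  obtain ⟨N, hNdef⟩ : ∃ N : ℝ, N = ‖x‖ + 1 := ⟨_, rfl⟩
  have hx0 := norm_nonneg x
  have hN : 0 < N := by linarith
  have hN1 : 1 ≤ N := by linarith
  obtain ⟨δ, hδ0, hδN, hδε⟩ : ∃ δ : ℝ, 0 < δ ∧ δ ≤ N / 8 ∧ δ ≤ ε / 24 :=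
    ⟨min (N / 8) (ε / 24), lt_min (by linarith) (by linarith), min_le_left _ _, min_le_right _ _⟩
  obtain ⟨y, hy⟩ : ∃ y : U, y = x + (3 * N) • p := ⟨_, rfl⟩
  have hys : IsSelfAdjoint y := by
    rw [isSelfAdjoint_iff, hy, star_add, star_smul, star_trivial (3 * N), hx, hps]
  obtain ⟨h, hh, hf, hyh⟩ := hR y hys δ hδ0
  have hfr : (spectrum ℝ h).Finite := by
    rw [← spectrum.preimage_algebraMap ℂ]
    exact hf.preimage (fun _ _ _ _ h => (algebraMap ℝ ℂ).injective h)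
  obtain ⟨S, g, hS, hg, hgo, hpq, hyG⟩ := Pool.Agent.H823R3.NK.taskClose
    Pool.Agent.H720R3.NKSpectral.taskSpectral U p x h N δ hN hδ0 (by linarith) hpp hps hpx hxp hx
    (by linarith) hh hfr (by rw [← hy]; exact hyh.le)
  rw [← hy] at hyG
  have hgS := fun μ hμ => Pool.Agent.H996R3.NK.g_sum (fun μ hμ => (hg μ hμ).1) hgo μ hμ
  obtain ⟨q, hq⟩ : ∃ q : U, q = ∑ μ ∈ S, g μ := ⟨_, rfl⟩
  rw [← hq] at hpq hgS
  have hqq : q * q = q := by
    calc q * q = (∑ μ ∈ S, g μ) * q := by rw [← hq]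
      _ = ∑ μ ∈ S, g μ * q := Finset.sum_mul _ _ _
      _ = ∑ μ ∈ S, g μ := Finset.sum_congr rfl fun μ hμ => (hgS μ hμ).1
      _ = q := hq.symm
  have hp1 := Pool.Agent.H996R3.NK.norm_proj_le hpp hps
  have hpq4 : ‖p - q‖ ≤ 1 / 4 := by
    refine hpq.trans ?_
    rw [div_le_iff₀ hN]
    linarith
  have hq1 : ‖q‖ ≤ 5 / 4 := by
    have h1 : q = p - (p - q) := by abel
    rw [h1]
    exact (norm_sub_le _ _).trans (by linarith)
  obtain ⟨v, hv⟩ : ∃ v : U, v = p * q + (1 - p) * (1 - q) := ⟨_, rfl⟩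
  have hv1 : ‖1 - v‖ < 1 := by
    have h1 : 1 - v = p * (p - q) - (p - q) * q := by
      have h2 : p * (p - q) - (p - q) * q = p * p - p * q - p * q + q * q := by noncomm_ring
      rw [h2, hv, hpp, hqq]
      noncomm_ring
    rw [h1]
    have h3 : ‖p * (p - q)‖ ≤ 1 / 4 := by
      refine (norm_mul_le _ _).trans ?_
      calc ‖p‖ * ‖p - q‖ ≤ 1 * (1 / 4) :=
            mul_le_mul hp1 hpq4 (norm_nonneg _) zero_le_one
        _ = 1 / 4 := by norm_num
    have h4 : ‖(p - q) * q‖ ≤ 5 / 16 := by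
      refine (norm_mul_le _ _).trans ?_
      calc ‖p - q‖ * ‖q‖ ≤ (1 / 4) * (5 / 4) :=
            mul_le_mul hpq4 hq1 (norm_nonneg _) (by norm_num)
        _ = 5 / 16 := by norm_num
    exact lt_of_le_of_lt (norm_sub_le _ _) (by linarith)
  have hvu : IsUnit v := by
    have h1 : v = 1 - (1 - v) := by abel
    rw [h1]
    exact isUnit_one_sub_of_norm_lt_one hv1
  obtain ⟨w, hvw, hwv⟩ : ∃ w : U, v * w = 1 ∧ w * v = 1 := by
    obtain ⟨z, rfl⟩ := hvu
    exact ⟨(z⁻¹ : Uˣ), Units.mul_inv z, Units.inv_mul z⟩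
  have hvq : v * q = p * v := by
    have h1 : v * q = p * (q * q) + (1 - p) * (q - q * q) := by
      rw [hv]
      noncomm_ring
    have h2 : p * v = (p * p) * q + (p - p * p) * (1 - q) := by
      rw [hv]
      noncomm_ring
    rw [h1, h2, hqq, hpp, sub_self, sub_self, mul_zero, zero_mul]
  have hpvqw : p = v * q * w := by
    rw [hvq, mul_assoc, hvw, mul_one]
  obtain ⟨G, hG⟩ : ∃ G : U, G = ∑ μ ∈ S, μ • g μ := ⟨_, rfl⟩
  rw [← hG] at hyG
  have hGq : G * q = G := by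
    rw [hG, Finset.sum_mul]
    refine Finset.sum_congr rfl fun μ hμ => ?_
    rw [smul_mul_assoc, (hgS μ hμ).1]
  have hyn : ‖y‖ ≤ 4 * N := by
    rw [hy]
    refine (norm_add_le _ _).trans ?_
    rw [norm_smul, Real.norm_eq_abs, abs_of_pos (by positivity)]
    nlinarith [norm_nonneg p]
  have hGp : ‖G * p‖ ≤ 4 * N + 2 * δ := by
    have h1 : G * p = y - (y - G * p) := by abel
    rw [h1]
    exact (norm_sub_le _ _).trans (by linarith)
  have hGn : ‖G‖ ≤ 6 * N := by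
    have h1 : G = G * p - G * (p - q) := by
      rw [mul_sub, hGq]
      abel
    have h2 : ‖G‖ ≤ ‖G * p‖ + ‖G‖ * (1 / 4) := by
      conv_lhs => rw [h1]
      refine (norm_sub_le _ _).trans ?_
      have := (norm_mul_le G (p - q)).trans (mul_le_mul_of_nonneg_left hpq4 (norm_nonneg G))
      linarith
    linarith
  have hdN : 2 * δ / N ≤ 2 * δ := by
    rw [div_le_iff₀ hN]
    nlinarith
  refine ⟨S, g, fun μ => ((μ - 3 * N : ℝ) : ℂ), hg, hgo, ?_, ?_, ?_, ?_, v, w, hvw, hwv, ?_, ?_⟩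
  · intro μ hμ
    rw [Complex.norm_real, Real.norm_eq_abs, abs_le]
    have := hS μ hμ
    constructor <;> linarith
  · rw [← hq]
    linarith
  · rw [← hq]
    exact hpq4
  · have h1 : ∑ μ ∈ S, ((μ - 3 * N : ℝ) : ℂ) • g μ = G - (3 * N) • q := by
      rw [hG, hq, Finset.smul_sum, ← Finset.sum_sub_distrib]
      refine Finset.sum_congr rfl fun μ _ => ?_
      rw [Complex.coe_smul, sub_smul]
    rw [h1]
    have h2 : x - (G - (3 * N) • q) = (y - G * p) + G * (p - q) - (3 * N) • (p - q) := by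
      rw [hy, mul_sub, hGq, smul_sub]
      abel
    rw [h2]
    have e1 : ‖G * (p - q)‖ ≤ 12 * δ := by
      refine (norm_mul_le _ _).trans ?_
      calc ‖G‖ * ‖p - q‖ ≤ (6 * N) * (2 * δ / N) :=
            mul_le_mul hGn hpq (norm_nonneg _) (by positivity)
        _ = 12 * δ := by
          field_simp
          ring
    have e2 : ‖(3 * N) • (p - q)‖ ≤ 6 * δ := by
      rw [norm_smul, Real.norm_eq_abs, abs_of_pos (by positivity)]
      calc 3 * N * ‖p - q‖ ≤ (3 * N) * (2 * δ / N) :=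
            mul_le_mul_of_nonneg_left hpq (by positivity)
        _ = 6 * δ := by
          field_simp
          ring
    calc ‖(y - G * p) + G * (p - q) - (3 * N) • (p - q)‖ ≤
        ‖(y - G * p) + G * (p - q)‖ + ‖(3 * N) • (p - q)‖ := norm_sub_le _ _
      _ ≤ (‖y - G * p‖ + ‖G * (p - q)‖) + ‖(3 * N) • (p - q)‖ := by
        gcongr
        exact norm_add_le _ _
      _ ≤ ε := by linarith
  · rw [← hq]
    exact hpvqw
  · rw [← hq]
    calc q * w * v * q = q * (w * v) * q := by rw [mul_assoc q w v]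
      _ = q := by rw [hwv, mul_one, hqq]

end unital

section nonunital
variable {A : Type u} [NonUnitalCStarAlgebra A]

/-- an approximation of `p` and `x` by combinations of orthogonal projections -/
structure Appr (p x : A) (ε C : ℝ) where
  /-- the index set -/
  S : Finset ℝ
  /-- the projections -/
  g : ℝ → A
  /-- the coefficients -/
  c : ℝ → ℂ
  idem : ∀ μ, g μ * g μ = g μ
  sa : ∀ μ, star (g μ) = g μ
  orth : ∀ μ ν, μ ≠ ν → g μ * g ν = 0
  bound : ∀ μ, ‖c μ‖ ≤ C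
  hp : ‖p - ∑ μ ∈ S, g μ‖ ≤ ε
  hx : ‖x - ∑ μ ∈ S, c μ • g μ‖ ≤ ε
  cls : ∀ hp : p * p = p, cl hp = ∑ μ ∈ S, cl (idem μ)

theorem fst_zero {V : Type u} [NonUnitalCStarAlgebra V] (p : V) (S : Finset ℝ)
    (g : ℝ → Unitization ℂ V) (hg : ∀ μ ∈ S, g μ * g μ = g μ)
    (hgo : ∀ μ ∈ S, ∀ ν ∈ S, μ ≠ ν → g μ * g ν = 0)
    (h : ‖(p : Unitization ℂ V) - ∑ μ ∈ S, g μ‖ ≤ 1 / 4) : ∀ μ ∈ S, (g μ).fst = 0 := by
  classical
  intro μ hμ
  by_contra hne
  have h1 : (g μ).fst = 1 := by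
    have h2 : (g μ).fst * (g μ).fst = (g μ).fst := by
      rw [← Unitization.fst_mul, hg μ hμ]
    have h3 : (g μ).fst * ((g μ).fst - 1) = 0 := by rw [mul_sub, h2, mul_one, sub_self]
    exact sub_eq_zero.1 ((mul_eq_zero.1 h3).resolve_left hne)
  have h4 : (∑ μ ∈ S, g μ).fst = ∑ μ ∈ S, (g μ).fst :=
    map_sum (Unitization.fstHom ℂ V) g S
  have h5 : ∑ ν ∈ S, (g ν).fst = 1 := by
    rw [Finset.sum_eq_single μ, h1]
    · intro ν hν hνμ
      have h6 := congrArg (fun z : Unitization ℂ V => z.fst) (hgo ν hν μ hμ hνμ)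
      simp only [Unitization.fst_mul, h1, mul_one, Unitization.fst_zero] at h6
      exact h6
    · intro h; exact absurd hμ h
  have h7 : ‖((p : Unitization ℂ V) - ∑ μ ∈ S, g μ).fst‖ ≤
      ‖(p : Unitization ℂ V) - ∑ μ ∈ S, g μ‖ := by
    rw [Unitization.norm_eq_sup]
    exact le_sup_left
  have h8 : ((p : Unitization ℂ V) - ∑ μ ∈ S, g μ).fst = -1 := by
    rw [sub_eq_add_neg, Unitization.fst_add, Unitization.fst_neg, Unitization.fst_inr, h4, h5,
      zero_add]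
  rw [h8, norm_neg, norm_one] at h7
  linarith

theorem exists_appr (hA : RealRankZero A) (p x : A) (hpp : p * p = p) (hps : star p = p)
    (hx : star x = x) (hpx : p * x = x) (hxp : x * p = x) (ε : ℝ) (hε : 0 < ε) :
    Nonempty (Appr p x ε (2 * (‖x‖ + 1))) := by
  classical
  obtain ⟨S, g, c, hg, hgo, hc, hp1, hp2, hx1, v, w, hvw, hwv, hpv, hqv⟩ :=
    appr_unital (p : Unitization ℂ A) (x : Unitization ℂ A)
      (by rw [← Unitization.inr_mul, hpp]) (by rw [← Unitization.inr_star, hps])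
      (by rw [← Unitization.inr_star, hx]) (by rw [← Unitization.inr_mul, hpx])
      (by rw [← Unitization.inr_mul, hxp]) hA ε hε
  have hfst := fst_zero p S g (fun μ hμ => (hg μ hμ).1) hgo hp2
  have hinj : ∀ a b : A, (a : Unitization ℂ A) = b → a = b :=
    fun a b h => Unitization.inr_injective h
  let g' : ℝ → A := fun μ => if μ ∈ S then (g μ).snd else 0
  have hg' : ∀ μ ∈ S, (g' μ : Unitization ℂ A) = g μ := by
    intro μ hμ
    show ((if μ ∈ S then (g μ).snd else 0 : A) : Unitization ℂ A) = g μ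
    rw [if_pos hμ]
    exact (Pool.Agent.H486R3.NK.eq_inr (hfst μ hμ)).symm
  have hg0 : ∀ μ, μ ∉ S → g' μ = 0 := fun μ hμ => if_neg hμ
  have hidem : ∀ μ, g' μ * g' μ = g' μ := by
    intro μ
    by_cases hμ : μ ∈ S
    · apply hinj
      rw [Unitization.inr_mul, hg' μ hμ, (hg μ hμ).1]
    · rw [hg0 μ hμ, mul_zero]
  have hsa : ∀ μ, star (g' μ) = g' μ := by
    intro μ
    by_cases hμ : μ ∈ S
    · apply hinj
      rw [Unitization.inr_star, hg' μ hμ, (hg μ hμ).2]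
    · rw [hg0 μ hμ, star_zero]
  have horth : ∀ μ ν, μ ≠ ν → g' μ * g' ν = 0 := by
    intro μ ν hμν
    by_cases hμ : μ ∈ S
    · by_cases hν : ν ∈ S
      · apply hinj
        rw [Unitization.inr_mul, hg' μ hμ, hg' ν hν, hgo μ hμ ν hν hμν, Unitization.inr_zero]
      · rw [hg0 ν hν, mul_zero]
    · rw [hg0 μ hμ, zero_mul]
  have hsumU : ((∑ μ ∈ S, g' μ : A) : Unitization ℂ A) = ∑ μ ∈ S, g μ := by
    have h1 : ((∑ μ ∈ S, g' μ : A) : Unitization ℂ A) = ∑ μ ∈ S, (g' μ : Unitization ℂ A) :=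
      map_sum (Unitization.inrNonUnitalAlgHom ℂ A) g' S
    rw [h1]
    exact Finset.sum_congr rfl hg'
  refine ⟨⟨S, g', fun μ => if μ ∈ S then c μ else 0, hidem, hsa, horth, ?_, ?_, ?_, ?_⟩⟩
  · intro μ
    by_cases hμ : μ ∈ S
    · rw [if_pos hμ]
      have := hc μ hμ
      rwa [Unitization.norm_inr] at this
    · rw [if_neg hμ, norm_zero]
      positivity
  · rw [← Unitization.norm_inr (𝕜 := ℂ), Unitization.inr_sub, hsumU]
    exact hp1
  · rw [← Unitization.norm_inr (𝕜 := ℂ), Unitization.inr_sub]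
    have h1 : ((∑ μ ∈ S, (if μ ∈ S then c μ else 0) • g' μ : A) : Unitization ℂ A) =
        ∑ μ ∈ S, c μ • g μ := by
      have h2 : ((∑ μ ∈ S, (if μ ∈ S then c μ else 0) • g' μ : A) : Unitization ℂ A) =
          ∑ μ ∈ S, (((if μ ∈ S then c μ else 0) • g' μ : A) : Unitization ℂ A) :=
        map_sum (Unitization.inrNonUnitalAlgHom ℂ A) _ S
      rw [h2]
      refine Finset.sum_congr rfl fun μ hμ => ?_
      rw [if_pos hμ, Unitization.inr_smul, hg' μ hμ]
    rw [h1]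
    exact hx1
  · intro hpp'
    obtain ⟨h1, h2⟩ := gcl_sum S (fun μ => s1 (g' μ)) (fun μ => s1_idem (hidem μ))
      (fun μ ν hμν => by
        rw [Pool.Agent.H719R4.NK.s1_mul, horth μ ν hμν, Pool.Agent.H719R4.NK.s1_zero])
    have h3 : ∑ μ ∈ S, cl (hidem μ) = ∑ μ ∈ S, gcl (s1 (g' μ)) (s1_idem (hidem μ)) :=
      Finset.sum_congr rfl fun μ _ => cl_eq_gcl _
    have h4 : (∑ μ ∈ S, s1 (g' μ)) = s1 (∑ μ ∈ S, g' μ) := by
      ext i j
      rw [Matrix.sum_apply]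
      rfl
    rw [h3, ← h2, cl_eq_gcl, gcl_eq, h4]
    obtain ⟨q, hq⟩ : ∃ q : A, q = ∑ μ ∈ S, g' μ := ⟨_, rfl⟩
    rw [← hq] at hsumU ⊢
    rw [← hsumU] at hpv hqv
    obtain ⟨a, ha⟩ := Pool.Agent.H996R3.NK.exists_mul_left v q
    obtain ⟨b, hb⟩ := Pool.Agent.H996R3.NK.exists_mul_right w q
    have hqq : (q : Unitization ℂ A) * q = q := by
      have h5 : (q : Unitization ℂ A) * w * v * q = q * (w * v) * q := by
        rw [mul_assoc (q : Unitization ℂ A) w v]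
      rw [h5, hwv, mul_one] at hqv
      exact hqv
    refine ⟨s1 a, s1 b, ?_, ?_⟩
    · rw [Pool.Agent.H719R4.NK.s1_mul]
      congr 1
      apply hinj
      rw [Unitization.inr_mul, ha, hb, hpv]
      calc v * (q : Unitization ℂ A) * (q * w) = v * (q * q) * w := by
            simp only [mul_assoc]
        _ = _ := by rw [hqq]
    · rw [Pool.Agent.H719R4.NK.s1_mul]
      congr 1
      apply hinj
      rw [Unitization.inr_mul, ha, hb]
      calc (q : Unitization ℂ A) * w * (v * q) = q * w * v * q := by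
            simp only [mul_assoc]
        _ = _ := hqv

end nonunital

end Pool.Agent.V8H73.NK2
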