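import Pool.Agent.V8H73.NK2.Gcl
import Pool.Agent.H494R3.NK.MatZ

set_option autoImplicit false

/-!
Closed ideals of C*-algebras generated by idempotents, and the classes of the idempotents that they
contain.
-/

namespace Pool.Agent.V8H73.NK2

open Pool.Agent.H494R3.NK

universe u

section
variable {A : Type u} [NonUnitalCStarAlgebra A]

/-- the ideal generated by `P` -/
def IdP (P : Set A) : Submodule ℂ A := Submodule.span ℂ {z | ∃ x f y, f ∈ P ∧ z = x * f * y}

/-- the closed ideal generated by `P` -/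
def JP (P : Set A) : Submodule ℂ A := (IdP P).topologicalClosure

theorem IdP_mul_left (P : Set A) (a : A) {z : A} (hz : z ∈ IdP P) : a * z ∈ IdP P := by
  induction hz using Submodule.span_induction with
  | mem z h =>
    obtain ⟨x, f, y, hf, rfl⟩ := h
    exact Submodule.subset_span ⟨a * x, f, y, hf, by simp only [mul_assoc]⟩
  | zero => rw [mul_zero]; exact Submodule.zero_mem _
  | add z w _ _ hz hw => rw [mul_add]; exact Submodule.add_mem _ hz hw
  | smul c z _ hz => rw [mul_smul_comm]; exact Submodule.smul_mem _ c hz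

theorem IdP_mul_right (P : Set A) (a : A) {z : A} (hz : z ∈ IdP P) : z * a ∈ IdP P := by
  induction hz using Submodule.span_induction with
  | mem z h =>
    obtain ⟨x, f, y, hf, rfl⟩ := h
    exact Submodule.subset_span ⟨x, f, y * a, hf, by simp only [mul_assoc]⟩
  | zero => rw [zero_mul]; exact Submodule.zero_mem _
  | add z w _ _ hz hw => rw [add_mul]; exact Submodule.add_mem _ hz hw
  | smul c z _ hz => rw [smul_mul_assoc]; exact Submodule.smul_mem _ c hz

theorem JP_mul_left (P : Set A) (a : A) {z : A} (hz : z ∈ JP P) : a * z ∈ JP P := by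
  have hc : Continuous fun z : A => a * z := continuous_const.mul continuous_id
  exact map_mem_closure (f := fun z : A => a * z) hc hz fun _ hw => IdP_mul_left P a hw

theorem JP_mul_right (P : Set A) (a : A) {z : A} (hz : z ∈ JP P) : z * a ∈ JP P := by
  have hc : Continuous fun z : A => z * a := continuous_id.mul continuous_const
  exact map_mem_closure (f := fun z : A => z * a) hc hz fun _ hw => IdP_mul_right P a hw

theorem JP_closed (P : Set A) : IsClosed (JP P : Set A) := Submodule.isClosed_topologicalClosure _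

theorem IdP_sum (P : Set A) {z : A} (hz : z ∈ IdP P) :
    ∃ (m : ℕ) (x f y : Fin m → A), (∀ i, f i ∈ P) ∧ z = ∑ i, x i * f i * y i := by
  induction hz using Submodule.span_induction with
  | mem z h =>
    obtain ⟨x, f, y, hf, rfl⟩ := h
    exact ⟨1, fun _ => x, fun _ => f, fun _ => y, fun _ => hf, by simp⟩
  | zero => exact ⟨0, Fin.elim0, Fin.elim0, Fin.elim0, fun i => i.elim0, by simp⟩
  | add z w _ _ hz hw =>
    obtain ⟨m, x, f, y, hf, rfl⟩ := hz
    obtain ⟨m', x', f', y', hf', rfl⟩ := hw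
    refine ⟨m + m', Fin.append x x', Fin.append f f', Fin.append y y', ?_, ?_⟩
    · intro i
      refine Fin.addCases (fun i => ?_) (fun i => ?_) i
      · rw [Fin.append_left]; exact hf i
      · rw [Fin.append_right]; exact hf' i
    · rw [Fin.sum_univ_add]
      simp
  | smul c z _ hz =>
    obtain ⟨m, x, f, y, hf, rfl⟩ := hz
    refine ⟨m, fun i => c • x i, f, y, hf, ?_⟩
    rw [Finset.smul_sum]
    exact Finset.sum_congr rfl fun i _ => by rw [smul_mul_assoc, smul_mul_assoc]

theorem fac' {P : Set A} {n : ℕ} (K : Matrix (Fin n) (Fin n) A)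
    (hK : ∀ i j, K i j ∈ IdP P) (s : Finset (Fin n × Fin n)) :
    ∃ (m : ℕ) (X : Fin n → Fin m → A) (f : Fin m → A) (Y : Fin m → Fin n → A), (∀ k, f k ∈ P) ∧
      ∀ i j, ∑ k, X i k * f k * Y k j = if (i, j) ∈ s then K i j else 0 := by
  classical
  induction s using Finset.induction_on with
  | empty => exact ⟨0, fun _ => Fin.elim0, Fin.elim0, Fin.elim0, fun k => k.elim0,
      fun i j => by simp⟩
  | insert p s hp ih =>
    obtain ⟨m, X, f, Y, hf, h⟩ := ih
    obtain ⟨m', x, f', y, hf', hxy⟩ := IdP_sum P (hK p.1 p.2)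
    refine ⟨m + m', fun i => Fin.append (X i) (fun k => if i = p.1 then x k else 0),
      Fin.append f f',
      fun k j => Fin.append (fun k => Y k j) (fun k => if j = p.2 then y k else 0) k, ?_, ?_⟩
    · intro i
      refine Fin.addCases (fun i => ?_) (fun i => ?_) i
      · rw [Fin.append_left]; exact hf i
      · rw [Fin.append_right]; exact hf' i
    intro i j
    rw [Fin.sum_univ_add]
    simp only [Fin.append_left, Fin.append_right]
    rw [h]
    by_cases hi : i = p.1
    · by_cases hj : j = p.2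
      · have hij : (i, j) = p := Prod.ext hi hj
        have h1 : (i, j) ∉ s := hij ▸ hp
        rw [if_neg h1, if_pos (by rw [hij]; exact Finset.mem_insert_self _ _), zero_add]
        simp only [if_pos hi, if_pos hj]
        rw [← hxy, hi, hj]
      · have hij : (i, j) ≠ p := fun h => hj (congrArg Prod.snd h)
        simp [hj, hij]
    · have hij : (i, j) ≠ p := fun h => hi (congrArg Prod.fst h)
      simp [hi, hij]

theorem diag_idem {R : Type u} [NonUnitalRing R] {m : ℕ} {f : Fin m → R}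
    (hf : ∀ i, f i * f i = f i) :
    Matrix.diagonal f * Matrix.diagonal f = Matrix.diagonal f := by
  rw [Matrix.diagonal_mul_diagonal]
  congr 1
  funext i
  exact hf i

theorem gcl_diag {R : Type u} [NonUnitalRing R] {m : ℕ} {f : Fin m → R}
    (hf : ∀ i, f i * f i = f i) :
    gcl (Matrix.diagonal f) (diag_idem hf) = ∑ i, cl (hf i) := by
  classical
  have hG : ∀ i, (Matrix.diagonal (Pi.single i (f i)) : Matrix (Fin m) (Fin m) R) *
      Matrix.diagonal (Pi.single i (f i)) = Matrix.diagonal (Pi.single i (f i)) := by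
    intro i
    apply diag_idem
    intro j
    by_cases hj : j = i
    · subst hj
      rw [Pi.single_eq_same, hf]
    · rw [Pi.single_eq_of_ne hj, mul_zero]
  have ho : ∀ i j, i ≠ j → (Matrix.diagonal (Pi.single i (f i)) : Matrix (Fin m) (Fin m) R) *
      Matrix.diagonal (Pi.single j (f j)) = 0 := by
    intro i j hij
    rw [Matrix.diagonal_mul_diagonal]
    rw [← Matrix.diagonal_zero]
    congr 1
    funext k
    by_cases hk : k = i
    · have : k ≠ j := fun h => hij (hk.symm.trans h)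
      rw [Pi.single_eq_of_ne this, mul_zero]
    · rw [Pi.single_eq_of_ne hk, zero_mul]
  obtain ⟨h1, h2⟩ := gcl_sum Finset.univ
    (fun i => (Matrix.diagonal (Pi.single i (f i)) : Matrix (Fin m) (Fin m) R)) hG ho
  have h3 : Matrix.diagonal f = ∑ i, (Matrix.diagonal (Pi.single i (f i)) :
      Matrix (Fin m) (Fin m) R) := by
    ext a b
    rw [Matrix.sum_apply]
    by_cases hab : a = b
    · subst hab
      rw [Matrix.diagonal_apply_eq, Finset.sum_eq_single a]
      · rw [Matrix.diagonal_apply_eq, Pi.single_eq_same]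
      · intro i _ hi
        rw [Matrix.diagonal_apply_eq, Pi.single_eq_of_ne (Ne.symm hi)]
      · intro h; exact absurd (Finset.mem_univ _) h
    · rw [Matrix.diagonal_apply_ne _ hab]
      exact (Finset.sum_eq_zero fun i _ => Matrix.diagonal_apply_ne _ hab).symm
  rw [gcl_congr h3 _ h1, h2]
  refine Finset.sum_congr rfl fun i _ => ?_
  rw [cl_eq_gcl, gcl_eq]
  have hi1 : ∀ a : Fin m, (Pi.single i (f i) : Fin m → R) a * (Pi.single i (f i) : Fin m → R) a =
      (Pi.single i (f i) : Fin m → R) a := by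
    intro a
    by_cases ha : a = i
    · subst ha
      rw [Pi.single_eq_same, hf]
    · rw [Pi.single_eq_of_ne ha, mul_zero]
  obtain ⟨d, hd⟩ : ∃ d : Fin m → R, d = Pi.single i (f i) := ⟨_, rfl⟩
  rw [← hd]
  refine ⟨Matrix.of fun a _ => d a, Matrix.of fun _ a => d a, ?_, ?_⟩
  · ext a b
    rw [Matrix.mul_apply]
    simp only [Matrix.of_apply, Finset.univ_unique, Finset.sum_singleton, hd]
    by_cases hab : a = b
    · subst hab
      rw [Matrix.diagonal_apply_eq, hi1]
    · rw [Matrix.diagonal_apply_ne _ hab]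
      by_cases ha : a = i
      · have : b ≠ i := fun h => hab (ha.trans h.symm)
        rw [Pi.single_eq_of_ne this, mul_zero]
      · rw [Pi.single_eq_of_ne ha, zero_mul]
  · ext a b
    rw [Matrix.mul_apply]
    simp only [Matrix.of_apply, hd, hi1]
    have h4 : ∑ x, (Pi.single i (f i) : Fin m → R) x = f i := by
      rw [Finset.sum_eq_single i, Pi.single_eq_same]
      · intro j _ hj
        exact Pi.single_eq_of_ne hj _
      · intro h; exact absurd (Finset.mem_univ _) h
    exact h4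

attribute [local instance] Matrix.linftyOpNormedRing in
/-- An idempotent matrix with entries in the closed ideal generated by a set of idempotents. -/
theorem matP {P : Set A} (hP : ∀ f ∈ P, f * f = f) {n : ℕ} (e : Matrix (Fin n) (Fin n) A)
    (he : e * e = e) (hcl : ∀ i j, e i j ∈ JP P) :
    ∃ (m : ℕ) (f : Fin m → A) (hf : ∀ i, f i * f i = f i) (_ : ∀ i, f i ∈ P) (z : VV A),
      gcl e he + z = ∑ i, cl (hf i) := by
  obtain ⟨φ, hφ⟩ : ∃ φ : A →ₙ+* Unitization ℂ A, ∀ a, φ a = (a : Unitization ℂ A) :=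
    ⟨{ toFun := fun a => (a : Unitization ℂ A)
       map_mul' := fun a b => Unitization.inr_mul ℂ a b
       map_zero' := Unitization.inr_zero ℂ
       map_add' := fun a b => Unitization.inr_add ℂ a b }, fun _ => rfl⟩
  have hinj : Function.Injective φ := by
    intro a b h
    rw [hφ, hφ] at h
    exact Unitization.inr_injective h
  obtain ⟨E, hE⟩ : ∃ E : Matrix (Fin n) (Fin n) (Unitization ℂ A), E = e.map φ := ⟨_, rfl⟩
  have hEE : E * E = E := by rw [hE, ← Matrix.map_mul, he]
  obtain ⟨δ, hδ0, hδ⟩ : ∃ δ : ℝ, 0 < δ ∧ ‖E‖ * (n * δ) * ‖E‖ < 1 := by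
    refine ⟨1 / ((‖E‖ * n * ‖E‖) + 1), by positivity, ?_⟩
    have : ‖E‖ * (n * (1 / ((‖E‖ * n * ‖E‖) + 1))) * ‖E‖ =
        (‖E‖ * n * ‖E‖) / ((‖E‖ * n * ‖E‖) + 1) := by ring
    rw [this, div_lt_one (by positivity)]
    linarith
  have hex : ∀ i j, ∃ k ∈ IdP P, ‖e i j - k‖ < δ := by
    intro i j
    obtain ⟨k, hk, h⟩ := Metric.mem_closure_iff.1 (hcl i j) δ hδ0
    exact ⟨k, hk, by rwa [dist_eq_norm] at h⟩
  choose K hK hKe using hex
  obtain ⟨m, X, f, Y, hfP, hXY⟩ := fac' K hK Finset.univ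
  have hf : ∀ i, f i * f i = f i := fun i => hP _ (hfP i)
  simp only [Finset.mem_univ, if_true] at hXY
  obtain ⟨Xm, hXm⟩ : ∃ Xm : Matrix (Fin n) (Fin m) A, Xm = X := ⟨_, rfl⟩
  obtain ⟨Ym, hYm⟩ : ∃ Ym : Matrix (Fin m) (Fin n) A, Ym = Y := ⟨_, rfl⟩
  obtain ⟨Km, hKm⟩ : ∃ Km : Matrix (Fin n) (Fin n) A, Km = K := ⟨_, rfl⟩
  obtain ⟨D, hD⟩ : ∃ D : Matrix (Fin m) (Fin m) A, D = Matrix.diagonal f := ⟨_, rfl⟩
  have hKD : Xm * D * Ym = Km := by
    apply Matrix.ext
    intro i j
    rw [Matrix.mul_apply, hKm, ← hXY i j, hD]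
    refine Finset.sum_congr rfl fun k _ => ?_
    rw [Matrix.mul_diagonal, hXm, hYm]
  obtain ⟨Kh, hKh⟩ : ∃ Kh : Matrix (Fin n) (Fin n) (Unitization ℂ A), Kh = Km.map φ := ⟨_, rfl⟩
  have hn1 : ‖E - Kh‖ ≤ n * δ := by
    apply mat_norm _ _ hδ0.le
    intro i j
    have : (E - Kh) i j = ((e i j - K i j : A) : Unitization ℂ A) := by
      rw [hE, hKh, hKm]
      show φ (e i j) - φ (K i j) = _
      rw [← map_sub, hφ]
    rw [this, Unitization.norm_inr]
    exact (hKe i j).le
  have hd : ‖E * (E - Kh) * E‖ < 1 := by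
    calc ‖E * (E - Kh) * E‖ ≤ ‖E * (E - Kh)‖ * ‖E‖ := norm_mul_le _ _
      _ ≤ (‖E‖ * ‖E - Kh‖) * ‖E‖ := by gcongr; exact norm_mul_le _ _
      _ ≤ ‖E‖ * (n * δ) * ‖E‖ := by gcongr
      _ < 1 := hδ
  obtain ⟨v, hv⟩ := mat_unit _ hd
  have hEv : E * (v : Matrix (Fin n) (Fin n) (Unitization ℂ A)) = E * Kh * E := by
    rw [hv]
    calc E * (1 - E * (E - Kh) * E) = E - ((E * E) * E * E - (E * E) * Kh * E) := by
          noncomm_ring
      _ = E * Kh * E := by simp only [hEE]; abel
  obtain ⟨W, hW⟩ : ∃ W : Matrix (Fin n) (Fin n) (Unitization ℂ A),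
      W = ((v⁻¹ : (Matrix (Fin n) (Fin n) (Unitization ℂ A))ˣ) :
        Matrix (Fin n) (Fin n) (Unitization ℂ A)) := ⟨_, rfl⟩
  have hEW : E = E * Kh * E * W := by
    rw [← hEv, Matrix.mul_assoc, hW]
    have : (v : Matrix (Fin n) (Fin n) (Unitization ℂ A)) *
      ((v⁻¹ : (Matrix (Fin n) (Fin n) (Unitization ℂ A))ˣ) :
        Matrix (Fin n) (Fin n) (Unitization ℂ A)) = 1 := Units.mul_inv v
    rw [this, Matrix.mul_one]
  obtain ⟨Y', hY'⟩ : ∃ Y' : Matrix (Fin m) (Fin n) (Unitization ℂ A),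
      Y' = Ym.map φ * (E * W) := ⟨_, rfl⟩
  obtain ⟨Y2, hY2⟩ : ∃ Y2 : Matrix (Fin m) (Fin n) A, Y2 = fun i j => (Y' i j).snd := ⟨_, rfl⟩
  have hY2' : Y2.map φ = Y' := by
    apply Matrix.ext
    intro i j
    show φ (Y2 i j) = Y' i j
    rw [hφ, hY2]
    apply Unitization.ext
    · have : (Y' i j).fst = 0 := by
        rw [hY', Matrix.mul_apply]
        have h1 : ∀ (s : Finset (Fin n)) (f : Fin n → Unitization ℂ A), (∀ k, (f k).fst = 0) →
            (∑ k ∈ s, f k).fst = 0 := by
          intro s f hf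
          classical
          induction s using Finset.induction_on with
          | empty => simp
          | insert a s ha ih => rw [Finset.sum_insert ha, Unitization.fst_add, hf, ih, add_zero]
        apply h1
        intro k
        show (φ (Ym i k) * _).fst = 0
        rw [hφ, Unitization.fst_mul, Unitization.fst_inr, zero_mul]
      rw [this, Unitization.fst_inr]
    · rw [Unitization.snd_inr]
  have hfin : e = ((e * Xm) * D) * Y2 := by
    apply Matrix.map_injective hinj
    show e.map φ = (((e * Xm) * D) * Y2).map φ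
    rw [Matrix.map_mul, Matrix.map_mul, Matrix.map_mul, hY2', hY', ← hE]
    have h2 : Xm.map φ * D.map φ * Ym.map φ = Kh := by
      rw [← Matrix.map_mul, ← Matrix.map_mul, hKD, hKh]
    calc E = E * Kh * E * W := hEW
      _ = E * (Xm.map φ * D.map φ * Ym.map φ) * E * W := by rw [h2]
      _ = _ := by simp only [Matrix.mul_assoc]
  rw [hD] at hfin
  obtain ⟨G, hG, hDG, _, _, _, h6⟩ := gcl_dom he (diag_idem hf) _ _ hfin
  exact ⟨m, f, hf, hfP, _, by rw [h6, gcl_diag]⟩

/-! ### the ideal of a state of `V` -/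

/-- the idempotents killed by `s` -/
def Kz (s : VV A →+ ℕ) : Set A := {f | ∃ h : f * f = f, s (cl h) = 0}

/-- the closed ideal generated by the idempotents killed by `s` -/
def Js (s : VV A →+ ℕ) : Submodule ℂ A := JP (Kz s)

theorem mem_Js {s : VV A →+ ℕ} {e : A} (he : e * e = e) : e ∈ Js s ↔ s (cl he) = 0 := by
  constructor
  · intro h
    obtain ⟨m, f, hf, hfP, z, hz⟩ := matP (P := Kz s) (fun f hf => hf.1) (s1 e) (s1_idem he)
      (fun _ _ => h)
    have h1 : s (cl he) + s z = ∑ i, s (cl (hf i)) := by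
      rw [cl_eq_gcl, ← map_add, hz, map_sum]
    have h2 : ∑ i, s (cl (hf i)) = 0 := Finset.sum_eq_zero fun i _ => (hfP i).2
    omega
  · intro h
    have h1 : e * e * e ∈ IdP (Kz s) := Submodule.subset_span ⟨e, e, e, ⟨he, h⟩, rfl⟩
    rw [he, he] at h1
    exact Submodule.le_topologicalClosure _ h1

theorem Js_mul_left (s : VV A →+ ℕ) (a : A) {z : A} (hz : z ∈ Js s) : a * z ∈ Js s :=
  JP_mul_left _ a hz

theorem Js_mul_right (s : VV A →+ ℕ) (a : A) {z : A} (hz : z ∈ Js s) : z * a ∈ Js s :=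
  JP_mul_right _ a hz

theorem Js_closed (s : VV A →+ ℕ) : IsClosed (Js s : Set A) := JP_closed _

/-- a projection outside of a closed ideal has distance one from it -/
theorem dist_Js {s : VV A →+ ℕ} {g k : A} (hg : g * g = g) (hgs : star g = g) (hgJ : g ∉ Js s)
    (hk : k ∈ Js s) : 1 ≤ ‖g - k‖ := by
  by_contra hcon
  push Not at hcon
  apply hgJ
  have hg1 : ‖g‖ ≤ 1 := by
    have h := CStarRing.norm_star_mul_self (x := g)
    rw [hgs, hg] at h
    nlinarith [norm_nonneg g]
  have h1 : ‖g - g * k * g‖ < 1 := by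
    have h2 : g - g * k * g = g * (g - k) * g := by
      rw [mul_sub, sub_mul, hg, hg]
    rw [h2]
    calc ‖g * (g - k) * g‖ ≤ ‖g * (g - k)‖ * ‖g‖ := norm_mul_le _ _
      _ ≤ (‖g‖ * ‖g - k‖) * ‖g‖ := by gcongr; exact norm_mul_le _ _
      _ ≤ (1 * ‖g - k‖) * 1 := by gcongr
      _ < 1 := by linarith
  have h2 : ‖((g - g * k * g : A) : Unitization ℂ A)‖ < 1 := by rwa [Unitization.norm_inr]
  obtain ⟨v, hv⟩ := isUnit_one_sub_of_norm_lt_one h2
  -- `g = v⁻¹ (g k g)`
  have h3 : (v : Unitization ℂ A) * (g : Unitization ℂ A) = ((g * k * g : A) : Unitization ℂ A) := by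
    rw [hv, sub_mul, one_mul, ← Unitization.inr_mul, ← Unitization.inr_sub]
    congr 1
    rw [sub_mul, hg]
    have : g * k * g * g = g * k * g := by rw [mul_assoc (g * k), hg]
    rw [this]
    abel
  have h4 : (g : Unitization ℂ A) = ((v⁻¹ : (Unitization ℂ A)ˣ) : Unitization ℂ A) *
      ((g * k * g : A) : Unitization ℂ A) := by
    rw [← h3, ← mul_assoc, Units.inv_mul, one_mul]
  obtain ⟨w, hw⟩ : ∃ w : Unitization ℂ A, w = ((v⁻¹ : (Unitization ℂ A)ˣ) : Unitization ℂ A) :=
    ⟨_, rfl⟩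
  rw [← hw] at h4
  have h5 : g = w.fst • (g * k * g) + w.snd * (g * k * g) := by
    have h6 := congrArg (fun z : Unitization ℂ A => z.snd) h4
    simpa using h6
  have h7 : g * k * g ∈ Js s := Js_mul_right s g (Js_mul_left s g hk)
  rw [h5]
  exact Submodule.add_mem _ (Submodule.smul_mem _ _ h7) (Js_mul_left s _ h7)

/-- closedness, in terms of approximations -/
theorem mem_of_approx (J : Submodule ℂ A) (hJ : IsClosed (J : Set A)) (y : A) (K : ℝ)
    (h : ∀ ε : ℝ, 0 < ε → ∃ k ∈ J, ‖y - k‖ ≤ K * ε) : y ∈ J := by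
  have h1 : y ∈ closure (J : Set A) := by
    rw [Metric.mem_closure_iff]
    intro ε hε
    obtain ⟨k, hk, hk1⟩ := h (ε / (|K| + 1)) (by positivity)
    refine ⟨k, hk, ?_⟩
    rw [dist_eq_norm]
    refine lt_of_le_of_lt hk1 ?_
    have h2 : K * (ε / (|K| + 1)) ≤ |K| * (ε / (|K| + 1)) :=
      mul_le_mul_of_nonneg_right (le_abs_self K) (by positivity)
    refine lt_of_le_of_lt h2 ?_
    rw [mul_div_assoc', div_lt_iff₀ (by positivity)]
    nlinarith [abs_nonneg K]
  rwa [hJ.closure_eq] at h1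

end

end Pool.Agent.V8H73.NK2
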