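import Pool.Agent.V8H73.NK2.CId

set_option autoImplicit false

/-!
Four idempotents in a complex algebra.
-/

namespace Pool.Agent.V8H73.NK2

open Pool.Agent.H494R3.NK

universe u

section alg
variable {Q : Type u} [Ring Q] [Algebra ℂ Q]

/-- Two idempotents in generic position with scalar compressions. -/
theorem anti {p e q : Q} (hp : p * p = p) (he : e * e = e) (hq : q * q = q)
    (hpe : p * e = e) (hep : e * p = e) (hpq : p * q = q) (hqp : q * p = q)
    (he0 : e ≠ 0) (he1 : p - e ≠ 0) (hq0 : q ≠ 0) (hq1 : p - q ≠ 0) (l m : ℂ)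
    (h1 : e * q * e = l • e) (h2 : (p - e) * q * (p - e) = m • (p - e)) :
    ∃ c : ℂ, (2 • e - p) * (2 • q - p) + (2 • q - p) * (2 • e - p) = (2 * c) • p := by
  obtain ⟨f, hf⟩ : ∃ f, f = p - e := ⟨_, rfl⟩
  rw [← hf] at h2 he1
  have hff : f * f = f := by
    rw [hf, mul_sub, sub_mul, sub_mul, hp, hpe, hep, he]
    abel
  have hef : e * f = 0 := by rw [hf, mul_sub, hep, he, sub_self]
  have hfe : f * e = 0 := by rw [hf, sub_mul, hpe, he, sub_self]
  have hsum : e + f = p := by rw [hf]; abel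
  have hqmid : q = q * e * q + q * f * q := by
    calc q = q * p * q := by rw [hqp, hq]
      _ = _ := by rw [← hsum]; noncomm_ring
  have hq4 : q = e * q * e + e * q * f + f * q * e + f * q * f := by
    calc q = p * q * p := by rw [hpq, hqp]
      _ = _ := by rw [← hsum]; noncomm_ring
  obtain ⟨b, hb⟩ : ∃ b, b = e * q * f := ⟨_, rfl⟩
  obtain ⟨b', hb'⟩ : ∃ b', b' = f * q * e := ⟨_, rfl⟩
  -- the off-diagonal equations
  have e01 : b = (l + m) • b := by
    have h3 : b = (e * q * e) * b + b * (f * q * f) := by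
      calc b = e * q * f := hb
        _ = e * (q * e * q + q * f * q) * f := by rw [← hqmid]
        _ = e * q * (e * e) * q * f + e * q * (f * f) * q * f := by
            rw [he, hff]; noncomm_ring
        _ = _ := by rw [hb]; noncomm_ring
    have h4 : e * b = b := by rw [hb, ← mul_assoc, ← mul_assoc, he]
    have h5 : b * f = b := by rw [hb, mul_assoc, hff]
    rw [h1, h2, smul_mul_assoc, mul_smul_comm, h4, h5, ← add_smul] at h3
    exact h3
  have e10 : b' = (l + m) • b' := by
    have h3 : b' = b' * (e * q * e) + (f * q * f) * b' := by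
      calc b' = f * q * e := hb'
        _ = f * (q * e * q + q * f * q) * e := by rw [← hqmid]
        _ = f * q * (e * e) * q * e + f * q * (f * f) * q * e := by
            rw [he, hff]; noncomm_ring
        _ = _ := by rw [hb']; noncomm_ring
    have h4 : f * b' = b' := by rw [hb', ← mul_assoc, ← mul_assoc, hff]
    have h5 : b' * e = b' := by rw [hb', mul_assoc, he]
    rw [h1, h2, smul_mul_assoc, mul_smul_comm, h4, h5, ← add_smul] at h3
    exact h3
  have e00 : l • e = (l * l) • e + b * b' := by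
    have h3 : e * q * e = (e * q * e) * (e * q * e) + b * b' := by
      calc e * q * e = e * (q * e * q + q * f * q) * e := by rw [← hqmid]
        _ = e * q * (e * e) * q * e + e * q * (f * f) * q * e := by
            rw [he, hff]; noncomm_ring
        _ = _ := by rw [hb, hb']; noncomm_ring
    rw [h1, smul_mul_smul_comm, he] at h3
    exact h3
  have e11 : m • f = (m * m) • f + b' * b := by
    have h3 : f * q * f = (f * q * f) * (f * q * f) + b' * b := by
      calc f * q * f = f * (q * e * q + q * f * q) * f := by rw [← hqmid]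
        _ = f * q * (e * e) * q * f + f * q * (f * f) * q * f := by
            rw [he, hff]; noncomm_ring
        _ = _ := by rw [hb, hb']; noncomm_ring
    rw [h2, smul_mul_smul_comm, hff] at h3
    exact h3
  rw [h1, h2, ← hb, ← hb'] at hq4
  have hlm : l + m = 1 := by
    by_contra hne
    have hne' : (l + m) - 1 ≠ 0 := sub_ne_zero.2 hne
    have hb0 : b = 0 := by
      have h3 : ((l + m) - 1) • b = 0 := by rw [sub_smul, ← e01, one_smul, sub_self]
      exact (smul_eq_zero.1 h3).resolve_left hne'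
    have hb0' : b' = 0 := by
      have h3 : ((l + m) - 1) • b' = 0 := by rw [sub_smul, ← e10, one_smul, sub_self]
      exact (smul_eq_zero.1 h3).resolve_left hne'
    rw [hb0, zero_mul, add_zero] at e00
    rw [hb0, mul_zero, add_zero] at e11
    have hl : l * (l - 1) = 0 := by
      have h3 : (l * l - l) • e = 0 := by rw [sub_smul, ← e00, sub_self]
      have h4 := (smul_eq_zero.1 h3).resolve_right he0
      linear_combination h4
    have hm : m * (m - 1) = 0 := by
      have h3 : (m * m - m) • f = 0 := by rw [sub_smul, ← e11, sub_self]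
      have h4 := (smul_eq_zero.1 h3).resolve_right he1
      linear_combination h4
    rw [hb0, hb0', add_zero, add_zero] at hq4
    rcases mul_eq_zero.1 hl with hl | hl
    · rcases mul_eq_zero.1 hm with hm | hm
      · apply hq0
        rw [hq4, hl, hm, zero_smul, zero_smul, add_zero]
      · apply hne
        rw [hl, sub_eq_zero.1 hm, zero_add]
    · rcases mul_eq_zero.1 hm with hm | hm
      · apply hne
        rw [hm, sub_eq_zero.1 hl, add_zero]
      · apply hq1
        rw [hq4, sub_eq_zero.1 hl, sub_eq_zero.1 hm, one_smul, one_smul, hsum, sub_self]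
  refine ⟨1 - 2 * m, ?_⟩
  have h3 : (2 • e - p) * (2 • q - p) + (2 • q - p) * (2 • e - p) =
      4 • (e * q + q * e - q) - 4 • e + 2 • p := by
    have h4 : (2 • e - p) * (2 • q - p) + (2 • q - p) * (2 • e - p) =
        4 • (e * q + q * e) - 2 • (e * p) - 2 • (p * q) - 2 • (q * p) - 2 • (p * e) +
          2 • (p * p) := by
      noncomm_ring
    rw [h4, hep, hpq, hqp, hpe, hp]
    noncomm_ring
  have h5 : e * q + q * e - q = l • e - m • f := by
    have h6 : e * b = b := by rw [hb, ← mul_assoc, ← mul_assoc, he]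
    have h7 : b * e = 0 := by rw [hb, mul_assoc, hfe, mul_zero]
    have h8 : e * b' = 0 := by rw [hb', ← mul_assoc, ← mul_assoc, hef, zero_mul, zero_mul]
    have h9 : b' * e = b' := by rw [hb', mul_assoc, he]
    have h10 : e * q = l • e + b := by
      rw [hq4, mul_add, mul_add, mul_add, mul_smul_comm, mul_smul_comm, he, h6, h8, hef,
        smul_zero, add_zero, add_zero]
    have h11 : q * e = l • e + b' := by
      rw [hq4, add_mul, add_mul, add_mul, smul_mul_assoc, smul_mul_assoc, he, h7, h9, hfe,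
        smul_zero, add_zero, add_zero]
    rw [h10, h11]
    conv_lhs => rw [hq4]
    abel
  rw [h3, h5, hf]
  have hl : l = 1 - m := by linear_combination hlm
  rw [hl]
  module

theorem endgame {p q0 q1 q2 q3 : Q} (hp : p * p = p) (h0 : q0 * q0 = q0) (h1 : q1 * q1 = q1)
    (h2 : q2 * q2 = q2) (h3 : q3 * q3 = q3)
    (p0 : p * q0 = q0) (p0' : q0 * p = q0) (p1 : p * q1 = q1) (p1' : q1 * p = q1)
    (p2 : p * q2 = q2) (p2' : q2 * p = q2) (p3 : p * q3 = q3) (p3' : q3 * p = q3)
    (c12 : q1 * q2 = q2 * q1) (c13 : q1 * q3 = q3 * q1)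
    (a1 : ∃ l m : ℂ, q0 * q1 * q0 = l • q0 ∧ (p - q0) * q1 * (p - q0) = m • (p - q0))
    (a2 : ∃ l m : ℂ, q0 * q2 * q0 = l • q0 ∧ (p - q0) * q2 * (p - q0) = m • (p - q0))
    (a3 : ∃ l m : ℂ, q0 * q3 * q0 = l • q0 ∧ (p - q0) * q3 * (p - q0) = m • (p - q0))
    (n0 : q0 ≠ 0) (n0' : p - q0 ≠ 0) (n1 : p - q1 ≠ 0) (n2 : p - q2 ≠ 0) (n3 : p - q3 ≠ 0)
    (n12 : q1 * (p - q2) ≠ 0) (n123 : q1 * q2 * q3 ≠ 0)
    (z : (p - q1) * (p - q2) * (p - q3) = 0) : False := by
  have m1 : q1 ≠ 0 := fun h => n123 (by rw [h, zero_mul, zero_mul])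
  have m2 : q2 ≠ 0 := fun h => n123 (by rw [h, mul_zero, zero_mul])
  have m3 : q3 ≠ 0 := fun h => n123 (by rw [h, mul_zero])
  have m12 : q1 * q2 ≠ 0 := fun h => n123 (by rw [h, zero_mul])
  obtain ⟨l1, k1, b1, b1'⟩ := a1
  obtain ⟨l2, k2, b2, b2'⟩ := a2
  obtain ⟨l3, k3, b3, b3'⟩ := a3
  obtain ⟨c1, e1⟩ := anti hp h0 h1 p0 p0' p1 p1' n0 n0' m1 n1 l1 k1 b1 b1'
  obtain ⟨c2, e2⟩ := anti hp h0 h2 p0 p0' p2 p2' n0 n0' m2 n2 l2 k2 b2 b2'
  obtain ⟨c3, e3⟩ := anti hp h0 h3 p0 p0' p3 p3' n0 n0' m3 n3 l3 k3 b3 b3'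
  obtain ⟨r0, hr0⟩ : ∃ r, r = 2 • q0 - p := ⟨_, rfl⟩
  obtain ⟨r1, hr1⟩ : ∃ r, r = 2 • q1 - p := ⟨_, rfl⟩
  obtain ⟨r2, hr2⟩ : ∃ r, r = 2 • q2 - p := ⟨_, rfl⟩
  obtain ⟨r3, hr3⟩ : ∃ r, r = 2 • q3 - p := ⟨_, rfl⟩
  rw [← hr0, ← hr1] at e1
  rw [← hr0, ← hr2] at e2
  rw [← hr0, ← hr3] at e3
  have pr : ∀ q : Q, p * q = q → p * (2 • q - p) = 2 • q - p := by
    intro q hq
    rw [mul_sub, mul_smul_comm, hq, hp]
  have rp : ∀ q : Q, q * p = q → (2 • q - p) * p = 2 • q - p := by
    intro q hq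
    rw [sub_mul, smul_mul_assoc, hq, hp]
  have pr1 : p * r1 = r1 := by rw [hr1]; exact pr q1 p1
  have rp1 : r1 * p = r1 := by rw [hr1]; exact rp q1 p1'
  have pr2 : p * r2 = r2 := by rw [hr2]; exact pr q2 p2
  have rp2 : r2 * p = r2 := by rw [hr2]; exact rp q2 p2'
  have pr3 : p * r3 = r3 := by rw [hr3]; exact pr q3 p3
  have rp3 : r3 * p = r3 := by rw [hr3]; exact rp q3 p3'
  -- commuting symmetries
  have key : ∀ (a b : Q) (c d : ℂ), p * a = a → a * p = a → p * b = b → b * p = b →
      a * b = b * a → r0 * a + a * r0 = (2 * c) • p → r0 * b + b * r0 = (2 * d) • p →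
      c • b = d • a := by
    intro a b c d pa ap pb bp hab ha hb
    have ha' : r0 * a = (2 * c) • p - a * r0 := by rw [← ha]; abel
    have hb' : r0 * b = (2 * d) • p - b * r0 := by rw [← hb]; abel
    have t1 : r0 * a * b = (2 * c) • b - (2 * d) • a + a * b * r0 := by
      calc r0 * a * b = ((2 * c) • p - a * r0) * b := by rw [ha']
        _ = (2 * c) • (p * b) - a * (r0 * b) := by
          rw [sub_mul, smul_mul_assoc, mul_assoc a r0 b]
        _ = (2 * c) • b - a * ((2 * d) • p - b * r0) := by rw [pb, hb']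
        _ = (2 * c) • b - ((2 * d) • (a * p) - a * b * r0) := by
          rw [mul_sub, mul_smul_comm, mul_assoc a b r0]
        _ = _ := by rw [ap]; abel
    have t2 : r0 * b * a = (2 * d) • a - (2 * c) • b + b * a * r0 := by
      calc r0 * b * a = ((2 * d) • p - b * r0) * a := by rw [hb']
        _ = (2 * d) • (p * a) - b * (r0 * a) := by
          rw [sub_mul, smul_mul_assoc, mul_assoc b r0 a]
        _ = (2 * d) • a - b * ((2 * c) • p - a * r0) := by rw [pa, ha']
        _ = (2 * d) • a - ((2 * c) • (b * p) - b * a * r0) := by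
          rw [mul_sub, mul_smul_comm, mul_assoc b a r0]
        _ = _ := by rw [bp]; abel
    have t3 : r0 * a * b = r0 * b * a := by rw [mul_assoc, hab, mul_assoc]
    rw [t1, t2, hab] at t3
    have t4 : (4 : ℂ) • (c • b - d • a) = 0 := by
      have t5 : (4 : ℂ) • (c • b - d • a) = ((2 * c) • b - (2 * d) • a + b * a * r0) -
          ((2 * d) • a - (2 * c) • b + b * a * r0) := by module
      rw [t5, t3, sub_self]
    exact sub_eq_zero.1 ((smul_eq_zero.1 t4).resolve_left (by norm_num))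
  have rcomm : ∀ a b : Q, p * a = a → a * p = a → p * b = b → b * p = b → a * b = b * a →
      (2 • a - p) * (2 • b - p) = (2 • b - p) * (2 • a - p) := by
    intro a b pa ap pb bp hab
    have t1 : (2 • a - p) * (2 • b - p) = 4 • (a * b) - 2 • (a * p) - 2 • (p * b) + p * p := by
      noncomm_ring
    have t2 : (2 • b - p) * (2 • a - p) = 4 • (b * a) - 2 • (b * p) - 2 • (p * a) + p * p := by
      noncomm_ring
    rw [t1, t2, ap, pb, bp, pa, hab]
    abel
  have k12 : c1 • r2 = c2 • r1 := key r1 r2 c1 c2 pr1 rp1 pr2 rp2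
    (by rw [hr1, hr2]; exact rcomm q1 q2 p1 p1' p2 p2' c12) e1 e2
  have k13 : c1 • r3 = c3 • r1 := key r1 r3 c1 c3 pr1 rp1 pr3 rp3
    (by rw [hr1, hr3]; exact rcomm q1 q3 p1 p1' p3 p3' c13) e1 e3
  have rq1 : r1 * q1 = q1 := by
    rw [hr1, sub_mul, smul_mul_assoc, h1, p1, two_smul]
    abel
  have rq2 : r2 * q2 = q2 := by
    rw [hr2, sub_mul, smul_mul_assoc, h2, p2, two_smul]
    abel
  have hc : c1 = c2 := by
    have t1 : r2 * (q1 * q2) = q1 * q2 := by rw [c12, ← mul_assoc, rq2]
    have t2 : r1 * (q1 * q2) = q1 * q2 := by rw [← mul_assoc, rq1]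
    have t3 := congrArg (fun z => z * (q1 * q2)) k12
    simp only [smul_mul_assoc, t1, t2] at t3
    have t4 : (c1 - c2) • (q1 * q2) = 0 := by rw [sub_smul, t3, sub_self]
    exact sub_eq_zero.1 ((smul_eq_zero.1 t4).resolve_right m12)
  have hc' : c1 = -c2 := by
    have t0 : q2 * (p - q2) = 0 := by rw [mul_sub, p2', h2, sub_self]
    have t1 : r2 * (q1 * (p - q2)) = -(q1 * (p - q2)) := by
      rw [hr2, sub_mul, smul_mul_assoc]
      have t5 : q2 * (q1 * (p - q2)) = 0 := by
        rw [← mul_assoc, ← c12, mul_assoc, t0, mul_zero]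
      have t6 : p * (q1 * (p - q2)) = q1 * (p - q2) := by rw [← mul_assoc, p1]
      rw [t5, t6, smul_zero, zero_sub]
    have t2 : r1 * (q1 * (p - q2)) = q1 * (p - q2) := by rw [← mul_assoc, rq1]
    have t3 := congrArg (fun z => z * (q1 * (p - q2))) k12
    simp only [smul_mul_assoc, t1, t2] at t3
    have t4 : (c1 + c2) • (q1 * (p - q2)) = 0 := by
      rw [add_smul, ← t3, smul_neg, add_neg_cancel]
    have t5 := (smul_eq_zero.1 t4).resolve_right n12
    linear_combination t5
  have z1 : c1 = 0 := by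
    have : (2 : ℂ) * c1 = 0 := by
      rw [two_mul]
      nth_rewrite 2 [hc']
      rw [hc, add_neg_cancel]
    exact (mul_eq_zero.1 this).resolve_left two_ne_zero
  have z2 : c2 = 0 := by rw [← hc, z1]
  have z3 : c3 = 0 := by
    rw [z1, zero_smul] at k13
    have t3 := congrArg (fun z => z * q1) k13
    simp only [smul_mul_assoc, rq1, zero_mul] at t3
    exact (smul_eq_zero.1 t3.symm).resolve_right m1
  rw [z1, mul_zero, zero_smul] at e1
  rw [z2, mul_zero, zero_smul] at e2
  rw [z3, mul_zero, zero_smul] at e3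
  have pr0 : p * r0 = r0 := by rw [hr0]; exact pr q0 p0
  have rp0 : r0 * p = r0 := by rw [hr0]; exact rp q0 p0'
  have swap : ∀ q : Q, r0 * (2 • q - p) + (2 • q - p) * r0 = 0 → r0 * q = (p - q) * r0 := by
    intro q hq
    have t1 : r0 * (2 • q - p) + (2 • q - p) * r0 = 2 • (r0 * q) + 2 • (q * r0) - r0 * p -
        p * r0 := by noncomm_ring
    rw [t1, rp0, pr0] at hq
    have t2 : (2 : ℂ) • (r0 * q - (p - q) * r0) = 0 := by
      rw [sub_mul, pr0]
      have t3 : (2 : ℂ) • (r0 * q - (r0 - q * r0)) = 2 • (r0 * q) + 2 • (q * r0) - r0 - r0 := by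
        module
      rw [t3, hq]
    exact sub_eq_zero.1 ((smul_eq_zero.1 t2).resolve_left two_ne_zero)
  have s1 : r0 * q1 = (p - q1) * r0 := swap q1 (by rw [← hr1]; exact e1)
  have s2 : r0 * q2 = (p - q2) * r0 := swap q2 (by rw [← hr2]; exact e2)
  have s3 : r0 * q3 = (p - q3) * r0 := swap q3 (by rw [← hr3]; exact e3)
  have hr00 : r0 * r0 = p := by
    have t1 : (2 • q0 - p) * (2 • q0 - p) = 4 • (q0 * q0) - 2 • (q0 * p) - 2 • (p * q0) +
        p * p := by noncomm_ring
    rw [hr0, t1, h0, p0, p0', hp]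
    noncomm_ring
  apply n123
  calc q1 * q2 * q3 = p * q1 * q2 * q3 := by rw [p1]
    _ = r0 * ((r0 * q1) * q2 * q3) := by rw [← hr00]; noncomm_ring
    _ = r0 * ((p - q1) * (r0 * q2) * q3) := by rw [s1]; noncomm_ring
    _ = r0 * ((p - q1) * (p - q2) * (r0 * q3)) := by rw [s2]; noncomm_ring
    _ = r0 * (((p - q1) * (p - q2) * (p - q3)) * r0) := by rw [s3]; noncomm_ring
    _ = 0 := by rw [z, zero_mul, mul_zero]

end alg

section quot
variable {A : Type u} [NonUnitalCStarAlgebra A]

/-- the quotient by a closed ideal, as an algebra -/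
theorem exists_quot (s : VV A →+ ℕ) : ∃ (Q : Type u) (_ : Ring Q) (_ : Algebra ℂ Q)
    (π : A →ₙₐ[ℂ] Q), ∀ a, π a = 0 ↔ a ∈ Js s := by
  let J : Ideal (Unitization ℂ A) :=
    { carrier := {u | ∃ k ∈ Js s, (k : Unitization ℂ A) = u}
      add_mem' := by
        rintro _ _ ⟨k, hk, rfl⟩ ⟨l, hl, rfl⟩
        exact ⟨k + l, Submodule.add_mem _ hk hl, Unitization.inr_add ℂ k l⟩
      zero_mem' := ⟨0, Submodule.zero_mem _, Unitization.inr_zero ℂ⟩
      smul_mem' := by
        rintro c _ ⟨k, hk, rfl⟩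
        refine ⟨c.fst • k + c.snd * k, Submodule.add_mem _ (Submodule.smul_mem _ _ hk)
          (Js_mul_left s _ hk), ?_⟩
        apply Unitization.ext <;> simp }
  have hJ2 : J.IsTwoSided := ⟨by
    rintro _ c ⟨k, hk, rfl⟩
    refine ⟨c.fst • k + k * c.snd, Submodule.add_mem _ (Submodule.smul_mem _ _ hk)
      (Js_mul_right s _ hk), ?_⟩
    apply Unitization.ext <;> simp⟩
  refine ⟨Unitization ℂ A ⧸ J, inferInstance, inferInstance,
    { toFun := fun a => Ideal.Quotient.mk J (a : Unitization ℂ A)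
      map_smul' := fun c a => by
        rw [Unitization.inr_smul]
        rfl
      map_zero' := by rw [Unitization.inr_zero, map_zero]
      map_add' := fun a b => by rw [Unitization.inr_add, map_add]
      map_mul' := fun a b => by rw [Unitization.inr_mul, map_mul] }, ?_⟩
  intro a
  show Ideal.Quotient.mk J (a : Unitization ℂ A) = 0 ↔ _
  rw [Ideal.Quotient.eq_zero_iff_mem]
  constructor
  · rintro ⟨k, hk, hka⟩
    rwa [← Unitization.inr_injective (R := ℂ) hka]
  · intro h
    exact ⟨a, h, rfl⟩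

end quot

end Pool.Agent.V8H73.NK2
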