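import Mathlib

set_option autoImplicit false

/-!
Free quadruples for set mappings.
-/

namespace Pool.Agent.V8H73.NK2

open Cardinal

theorem exists_avoid' {Ω I ι : Type} (f : Ω → I) (hf : Function.Injective f) (κ : Cardinal.{0})
    (hκ : ℵ₀ ≤ κ) (hι : #ι ≤ κ) (hΩ : κ < #Ω) (B : ι → Set I) (hB : ∀ t, (B t).Countable) :
    ∃ x : Ω, ∀ t : ι, f x ∉ B t := by
  by_contra hcon
  push Not at hcon
  have hsub : (Set.univ : Set Ω) ⊆ ⋃ t : ι, f ⁻¹' (B t) := by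
    intro x _
    obtain ⟨t, ht⟩ := hcon x
    exact Set.mem_iUnion.2 ⟨t, ht⟩
  have h1 : #(Set.univ : Set Ω) ≤ #(⋃ t : ι, f ⁻¹' (B t)) := Cardinal.mk_le_mk_of_subset hsub
  rw [Cardinal.mk_univ] at h1
  have h2 : #(⋃ t : ι, f ⁻¹' (B t)) ≤ Cardinal.sum fun t : ι => #(f ⁻¹' (B t)) :=
    Cardinal.mk_iUnion_le_sum_mk
  have h3 : (Cardinal.sum fun t : ι => #(f ⁻¹' (B t))) ≤ Cardinal.sum fun _ : ι => ℵ₀ := by
    apply Cardinal.sum_le_sum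
    intro t
    exact Cardinal.le_aleph0_iff_set_countable.2 ((hB t).preimage hf)
  have h4 : (Cardinal.sum fun _ : ι => ℵ₀) = #ι * ℵ₀ := by
    rw [Cardinal.sum_const']
  have h5 : #ι * ℵ₀ ≤ κ := by
    calc #ι * ℵ₀ ≤ κ * κ := mul_le_mul' hι hκ
      _ = κ := Cardinal.mul_eq_self hκ
  exact absurd (hΩ.trans_le (h1.trans (h2.trans (h3.trans (h4.le.trans h5))))) (lt_irrefl _)

/-- sets of cardinalities `ℵ₁`, `ℵ₂`, `ℵ₃`, `ℵ₄` -/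
def Om (k : Fin 4) : Type := (aleph (((k : ℕ) + 1 : ℕ) : Ordinal.{0})).out

theorem mk_Om (k : Fin 4) : #(Om k) = aleph (((k : ℕ) + 1 : ℕ) : Ordinal.{0}) :=
  Cardinal.mk_out _

/-- the index set -/
def II : Type := Σ k : Fin 4, Om k

/-- the index of colour `k` -/
def ix (k : Fin 4) (ω : Om k) : II := ⟨k, ω⟩

theorem ix_inj (k : Fin 4) : Function.Injective (ix k) := by
  intro a b h
  exact eq_of_heq (Sigma.mk.inj h).2

theorem free4 (Φ : II → II → Set II) (Ψ : II → II → II → Set II)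
    (hΦ : ∀ i j, (Φ i j).Countable) (hΨ : ∀ i j k, (Ψ i j k).Countable) :
    ∃ (w0 : Om 0) (w1 : Om 1) (w2 : Om 2) (w3 : Om 3),
      ix 0 w0 ∉ Ψ (ix 1 w1) (ix 2 w2) (ix 3 w3) ∧
      ix 1 w1 ∉ Φ (ix 0 w0) (ix 2 w2) ∧ ix 1 w1 ∉ Φ (ix 0 w0) (ix 3 w3) ∧
      ix 2 w2 ∉ Φ (ix 0 w0) (ix 1 w1) ∧ ix 2 w2 ∉ Φ (ix 0 w0) (ix 3 w3) ∧
      ix 3 w3 ∉ Φ (ix 0 w0) (ix 1 w1) ∧ ix 3 w3 ∉ Φ (ix 0 w0) (ix 2 w2) := by
  have a0 : ∀ n : ℕ, ℵ₀ ≤ aleph (n : Ordinal.{0}) := fun n => Cardinal.aleph0_le_aleph _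
  have ale : ∀ m n : ℕ, m ≤ n → aleph (m : Ordinal.{0}) ≤ aleph (n : Ordinal.{0}) := fun m n h =>
    Cardinal.aleph_le_aleph.2 (by exact_mod_cast h)
  have alt : ∀ m n : ℕ, m < n → aleph (m : Ordinal.{0}) < aleph (n : Ordinal.{0}) := fun m n h =>
    Cardinal.aleph_lt_aleph.2 (by exact_mod_cast h)
  obtain ⟨w3, h3⟩ := exists_avoid' (ι := Om 0 × (Om 1 ⊕ Om 2)) (ix 3) (ix_inj 3)
    (aleph ((3 : ℕ) : Ordinal.{0})) (a0 3)
    (by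
      rw [Cardinal.mk_prod, Cardinal.mk_sum]
      simp only [Cardinal.lift_id]
      rw [mk_Om, mk_Om, mk_Om]
      have e1 : aleph ((((0 : Fin 4) : ℕ) + 1 : ℕ) : Ordinal.{0}) ≤
        aleph ((3 : ℕ) : Ordinal.{0}) := ale _ _ (by decide)
      have e2 : aleph ((((1 : Fin 4) : ℕ) + 1 : ℕ) : Ordinal.{0}) ≤
        aleph ((3 : ℕ) : Ordinal.{0}) := ale _ _ (by decide)
      have e3 : aleph ((((2 : Fin 4) : ℕ) + 1 : ℕ) : Ordinal.{0}) ≤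
        aleph ((3 : ℕ) : Ordinal.{0}) := ale _ _ (by decide)
      calc _ ≤ aleph ((3 : ℕ) : Ordinal.{0}) * (aleph ((3 : ℕ) : Ordinal.{0}) +
            aleph ((3 : ℕ) : Ordinal.{0})) := mul_le_mul' e1 (add_le_add e2 e3)
        _ = aleph ((3 : ℕ) : Ordinal.{0}) := by
          rw [Cardinal.add_eq_self (a0 3), Cardinal.mul_eq_self (a0 3)])
    (by rw [mk_Om]; exact alt _ _ (by decide))
    (fun t => Φ (ix 0 t.1) (Sum.elim (ix 1) (ix 2) t.2)) (fun t => hΦ _ _)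
  obtain ⟨w2, h2⟩ := exists_avoid' (ι := Om 0 × (Om 1 ⊕ Unit)) (ix 2) (ix_inj 2)
    (aleph ((2 : ℕ) : Ordinal.{0})) (a0 2)
    (by
      rw [Cardinal.mk_prod, Cardinal.mk_sum]
      simp only [Cardinal.lift_id]
      rw [mk_Om, mk_Om, Cardinal.mk_unit]
      have e1 : aleph ((((0 : Fin 4) : ℕ) + 1 : ℕ) : Ordinal.{0}) ≤
        aleph ((2 : ℕ) : Ordinal.{0}) := ale _ _ (by decide)
      have e2 : aleph ((((1 : Fin 4) : ℕ) + 1 : ℕ) : Ordinal.{0}) ≤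
        aleph ((2 : ℕ) : Ordinal.{0}) := ale _ _ (by decide)
      have e3 : (1 : Cardinal.{0}) ≤ aleph ((2 : ℕ) : Ordinal.{0}) :=
        Cardinal.one_le_aleph0.trans (a0 2)
      calc _ ≤ aleph ((2 : ℕ) : Ordinal.{0}) * (aleph ((2 : ℕ) : Ordinal.{0}) +
            aleph ((2 : ℕ) : Ordinal.{0})) := mul_le_mul' e1 (add_le_add e2 e3)
        _ = aleph ((2 : ℕ) : Ordinal.{0}) := by
          rw [Cardinal.add_eq_self (a0 2), Cardinal.mul_eq_self (a0 2)])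
    (by rw [mk_Om]; exact alt _ _ (by decide))
    (fun t => Φ (ix 0 t.1) (Sum.elim (ix 1) (fun _ => ix 3 w3) t.2)) (fun t => hΦ _ _)
  obtain ⟨w1, h1⟩ := exists_avoid' (ι := Om 0) (ix 1) (ix_inj 1)
    (aleph ((1 : ℕ) : Ordinal.{0})) (a0 1)
    (by rw [mk_Om]; exact ale _ _ (by decide))
    (by rw [mk_Om]; exact alt _ _ (by decide))
    (fun t => Φ (ix 0 t) (ix 2 w2) ∪ Φ (ix 0 t) (ix 3 w3)) (fun t => (hΦ _ _).union (hΦ _ _))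
  obtain ⟨w0, h0⟩ := exists_avoid' (ι := Unit) (ix 0) (ix_inj 0) ℵ₀ le_rfl
    (by rw [Cardinal.mk_unit]; exact Cardinal.one_le_aleph0)
    (by
      rw [mk_Om, ← Cardinal.aleph_zero]
      exact Cardinal.aleph_lt_aleph.2 (by norm_num))
    (fun _ => Ψ (ix 1 w1) (ix 2 w2) (ix 3 w3)) (fun t => hΨ _ _ _)
  refine ⟨w0, w1, w2, w3, h0 (), ?_, ?_, ?_, ?_, ?_, ?_⟩
  · exact fun h => h1 w0 (Or.inl h)
  · exact fun h => h1 w0 (Or.inr h)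
  · exact h2 (w0, Sum.inl w1)
  · exact h2 (w0, Sum.inr ())
  · exact h3 (w0, Sum.inl w1)
  · exact h3 (w0, Sum.inr w2)

end Pool.Agent.V8H73.NK2
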