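import Mathlib

set_option autoImplicit false

/-!
Dimension groups, and commutative monoids that are positive cones of dimension groups.
-/

namespace Pool.Agent.V8H73.NK2

universe u

/-- A partially ordered abelian group `G` is a dimension group if it is directed, unperforated and
has the Riesz interpolation property. -/
structure IsDimensionGroup (G : Type u) [AddCommGroup G] [PartialOrder G] [IsOrderedAddMonoid G] :
    Prop where
  /-- `G` is directed -/
  directed : ∀ a b : G, ∃ c, a ≤ c ∧ b ≤ c
  /-- `G` is unperforated -/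
  unperforated : ∀ (n : ℕ) (a : G), 0 < n → 0 ≤ n • a → 0 ≤ a
  /-- the Riesz interpolation property -/
  interpolation : ∀ a b c d : G, a ≤ c → a ≤ d → b ≤ c → b ≤ d →
    ∃ e, a ≤ e ∧ b ≤ e ∧ e ≤ c ∧ e ≤ d

/-- `M` is cancellative and unperforated and has the refinement property. -/
structure GoodMon (M : Type u) [AddCommMonoid M] : Prop where
  cancel : ∀ a b c : M, a + c = b + c → a = b
  unperf : ∀ (n : ℕ) (a b x : M), 0 < n → n • a + x = n • b → ∃ y, a + y = b
  refine : ∀ a b c d : M, a + b = c + d →
    ∃ x y z w, a = x + y ∧ b = z + w ∧ c = x + z ∧ d = y + w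

section
variable {M : Type u} [AddCommMonoid M]

open Algebra GrothendieckAddGroup

/-- A conical good monoid is the positive cone of a dimension group. -/
theorem exists_dimensionGroup (h : GoodMon M) (hc : ∀ a b : M, a + b = 0 → a = 0) :
    ∃ (G : Type u) (_ : AddCommGroup G) (_ : PartialOrder G) (_ : IsOrderedAddMonoid G),
      IsDimensionGroup G ∧ Nonempty (M ≃+ AddSubmonoid.nonneg G) := by
  have : IsCancelAdd M := by
    have : IsRightCancelAdd M := ⟨fun a b c hab => h.cancel b c a hab⟩
    exact AddCommMagma.IsRightCancelAdd.toIsCancelAdd M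
  let G := GrothendieckAddGroup M
  let f : M →+ G := GrothendieckAddGroup.of
  have hf : Function.Injective f := GrothendieckAddGroup.of_injective
  have hsurj : ∀ x : G, ∃ a b : M, x + f b = f a := by
    intro x
    obtain ⟨⟨a, b⟩, hab⟩ := (AddLocalization.addMonoidOf (⊤ : AddSubmonoid M)).surj x
    exact ⟨a, b, hab⟩
  let P : PartialOrder G :=
    { le := fun x y => ∃ m : M, y = x + f m
      le_refl := fun x => ⟨0, by simp⟩
      le_trans := by
        rintro x y z ⟨m, rfl⟩ ⟨n, rfl⟩
        exact ⟨m + n, by rw [map_add, add_assoc]⟩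
      le_antisymm := by
        rintro x y ⟨m, hm⟩ ⟨n, hn⟩
        have h1 : f (m + n) = f 0 := by
          rw [map_add, map_zero]
          have h2 : x + (f m + f n) = x + 0 := by
            rw [← add_assoc, ← hm, ← hn, add_zero]
          exact add_left_cancel h2
        have h3 := hc m n (hf h1)
        rw [hm, h3, map_zero, add_zero] }
  have hle : ∀ x y : G, P.le x y ↔ ∃ m : M, y = x + f m := fun x y => Iff.rfl
  have hO : @IsOrderedAddMonoid G _ P.toPreorder := by
    let _ := P
    exact
    { add_le_add_left := by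
        rintro a b ⟨m, rfl⟩ c
        exact ⟨m, by abel⟩ }
  refine ⟨G, inferInstance, P, hO, ?_, ?_⟩
  · let _ := P
    refine ⟨?_, ?_, ?_⟩
    · intro a b
      obtain ⟨a1, a2, ha⟩ := hsurj a
      obtain ⟨b1, b2, hb⟩ := hsurj b
      refine ⟨f a1 + f b1, ⟨a2 + b1, ?_⟩, ⟨b2 + a1, ?_⟩⟩
      · rw [map_add, ← add_assoc, ha]
      · rw [map_add, ← add_assoc, hb, add_comm]
    · rintro n a hn ⟨m, hm⟩
      obtain ⟨a1, a2, ha⟩ := hsurj a
      rw [zero_add] at hm
      have h1 : n • a2 + m = n • a1 := by
        apply hf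
        rw [map_add, map_nsmul, map_nsmul, ← hm, ← ha, nsmul_add, add_comm]
      obtain ⟨y, hy⟩ := h.unperf n a2 a1 m hn h1
      refine ⟨y, ?_⟩
      rw [zero_add]
      have h2 : a + f a2 = f y + f a2 := by
        rw [ha, ← hy, map_add, add_comm]
      exact add_right_cancel h2
    · rintro a b c d ⟨p, hp⟩ ⟨q, hq⟩ ⟨r, hr⟩ ⟨s, hs⟩
      have h1 : p + s = q + r := by
        apply hf
        rw [map_add, map_add]
        have e1 : (a + b) + (f p + f s) = (a + b) + (f q + f r) := by
          calc (a + b) + (f p + f s) = (a + f p) + (b + f s) := by abel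
            _ = (b + f r) + (a + f q) := by rw [← hp, ← hs, hr, hq]
            _ = (a + b) + (f q + f r) := by abel
        exact add_left_cancel e1
      obtain ⟨x, y, z, w, e1, e2, e3, e4⟩ := h.refine p s q r h1
      refine ⟨a + f x, ⟨x, rfl⟩, ⟨w, ?_⟩, ⟨y, ?_⟩, ⟨z, ?_⟩⟩
      · have h2 : a + f x + f y = b + f w + f y := by
          rw [add_assoc, ← map_add, ← e1, ← hp, hr, e4, map_add]
          abel
        exact add_right_cancel h2
      · rw [hp, e1, map_add, add_assoc]
      · rw [hq, e3, map_add, add_assoc]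
  · let _ := P
    have hpos : ∀ m : M, 0 ≤ f m := fun m => ⟨m, by rw [zero_add]⟩
    refine ⟨AddEquiv.ofBijective
      ({ toFun := fun m => ⟨f m, hpos m⟩
         map_zero' := Subtype.ext (map_zero f)
         map_add' := fun a b => Subtype.ext (map_add f a b) } : M →+ AddSubmonoid.nonneg G) ⟨?_, ?_⟩⟩
    · intro a b hab
      exact hf (congrArg Subtype.val hab)
    · rintro ⟨x, m, hm⟩
      refine ⟨m, Subtype.ext ?_⟩
      show f m = x
      rw [hm, zero_add]

/-- A monoid isomorphic to a good one is good. -/
theorem GoodMon.of_equiv {N : Type*} [AddCommMonoid N] (h : GoodMon M) (e : M ≃+ N) :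
    GoodMon N where
  cancel a b c hab := by
    have := h.cancel (e.symm a) (e.symm b) (e.symm c) (by rw [← map_add, hab, map_add])
    exact e.symm.injective this
  unperf n a b x hn hab := by
    obtain ⟨y, hy⟩ := h.unperf n (e.symm a) (e.symm b) (e.symm x) hn (by
      rw [← map_nsmul, ← map_nsmul, ← map_add, hab])
    exact ⟨e y, by rw [← e.apply_symm_apply a, ← map_add, hy, e.apply_symm_apply]⟩
  refine a b c d hab := by
    obtain ⟨x, y, z, w, h1, h2, h3, h4⟩ := h.refine (e.symm a) (e.symm b) (e.symm c) (e.symm d)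
      (by rw [← map_add, hab, map_add])
    refine ⟨e x, e y, e z, e w, ?_, ?_, ?_, ?_⟩
    · rw [← map_add, ← h1, e.apply_symm_apply]
    · rw [← map_add, ← h2, e.apply_symm_apply]
    · rw [← map_add, ← h3, e.apply_symm_apply]
    · rw [← map_add, ← h4, e.apply_symm_apply]

end

end Pool.Agent.V8H73.NK2
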