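import Pool.Agent.H494R3.NK.Stmts
import Pool.Agent.V8H73.NK2.Good

set_option autoImplicit false

/-!
Classes in `V(R)` of idempotent matrices indexed by arbitrary finite types.
-/

namespace Pool.Agent.V8H73.NK2

open Pool.Agent.H494R3.NK

universe u v

section
variable {R : Type u} [NonUnitalRing R] {ι κ μ : Type} [Fintype ι] [Fintype κ] [Fintype μ]

/-- the class in `V(R)` of an idempotent matrix indexed by a finite type -/
noncomputable def gcl (E : Matrix ι ι R) (h : E * E = E) : VV R :=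
  VV.mk ⟨Fintype.card ι, E.submatrix (Fintype.equivFin ι).symm (Fintype.equivFin ι).symm,
    idem_sub h (Fintype.equivFin ι).symm⟩

theorem gcl_eq {E : Matrix ι ι R} {F : Matrix κ κ R} (hE : E * E = E) (hF : F * F = F) :
    gcl E hE = gcl F hF ↔ Eqv E F := by
  unfold gcl
  rw [VV.mk_eq]
  have h1 := Eqv.reindex hE (Fintype.equivFin ι)
  have h2 := Eqv.reindex hF (Fintype.equivFin κ)
  constructor
  · intro h
    exact Eqv.trans hE hF h1 (Eqv.trans (idem_sub hE _) hF h h2.symm)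
  · intro h
    exact Eqv.trans (idem_sub hE _) (idem_sub hF _) h1.symm (Eqv.trans hE (idem_sub hF _) h h2)

theorem mk_eq_gcl (e : Idem R) : VV.mk e = gcl e.mat e.idem := by
  unfold gcl
  rw [VV.mk_eq]
  exact Eqv.reindex e.idem (Fintype.equivFin (Fin e.size))

theorem exists_gcl (c : VV R) : ∃ (n : ℕ) (E : Matrix (Fin n) (Fin n) R) (h : E * E = E),
    c = gcl E h := by
  induction c using Quotient.ind with
  | _ e => exact ⟨e.size, e.mat, e.idem, mk_eq_gcl e⟩

theorem gcl_blocks {E : Matrix ι ι R} {F : Matrix κ κ R} (hE : E * E = E) (hF : F * F = F) :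
    gcl (Matrix.fromBlocks E 0 0 F) (idem_blocks hE hF) = gcl E hE + gcl F hF := by
  set e : Idem R := ⟨Fintype.card ι,
    E.submatrix (Fintype.equivFin ι).symm (Fintype.equivFin ι).symm, idem_sub hE _⟩ with he
  set f : Idem R := ⟨Fintype.card κ,
    F.submatrix (Fintype.equivFin κ).symm (Fintype.equivFin κ).symm, idem_sub hF _⟩ with hf
  have h0 : gcl E hE + gcl F hF = VV.mk (e.add f) := rfl
  rw [h0, mk_eq_gcl, gcl_eq]
  have h1 : Eqv (Matrix.fromBlocks E 0 0 F) (Matrix.fromBlocks e.mat 0 0 f.mat) :=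
    Eqv.blocks (Eqv.reindex hE _) (Eqv.reindex hF _)
  exact Eqv.trans (idem_blocks hE hF) (blk_idem e.idem f.idem) h1 (Eqv.blk e.idem f.idem)

/-- orthogonal idempotent matrices -/
theorem gcl_orth {E F : Matrix ι ι R} (hE : E * E = E) (hF : F * F = F)
    (hEF : E * F = 0) (hFE : F * E = 0) (h : (E + F) * (E + F) = E + F) :
    gcl (E + F) h = gcl E hE + gcl F hF := by
  rw [← gcl_blocks, gcl_eq]
  refine ⟨Matrix.fromCols E F, Matrix.fromRows E F, ?_, ?_⟩
  · rw [colrow, hE, hF]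
  · rw [rowcol, hE, hF, hEF, hFE]

theorem gcl_zero : gcl (0 : Matrix ι ι R) (by simp) = 0 := by
  rw [VV.zero_mk, mk_eq_gcl, gcl_eq]
  exact Eqv.zero

theorem gcl_eq_zero {E : Matrix ι ι R} (hE : E * E = E) : gcl E hE = 0 ↔ E = 0 := by
  constructor
  · intro h
    rw [VV.zero_mk, mk_eq_gcl, gcl_eq] at h
    obtain ⟨x, y, h1, _⟩ := h
    have : IsEmpty (Fin (Idem.zero R).size) := inferInstanceAs (IsEmpty (Fin 0))
    rw [← h1]
    ext i j
    rw [Matrix.mul_apply]
    exact Finset.sum_of_isEmpty _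
  · rintro rfl
    exact gcl_zero

theorem cl_eq_gcl {p : R} (hp : p * p = p) : cl hp = gcl (s1 p) (s1_idem hp) := mk_eq_gcl _

/-- An idempotent matrix that factors through the idempotent matrix `D` is a summand of it. -/
theorem gcl_dom {E : Matrix ι ι R} {D : Matrix κ κ R} (hE : E * E = E) (hD : D * D = D)
    (X : Matrix ι κ R) (Y : Matrix κ ι R) (h : E = X * D * Y) :
    ∃ (G : Matrix κ κ R) (hG : G * G = G) (hDG : (D - G) * (D - G) = D - G),
      D * G = G ∧ G * D = G ∧ gcl G hG = gcl E hE ∧ gcl E hE + gcl (D - G) hDG = gcl D hD := by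
  set x : Matrix ι κ R := E * (X * D) with hx
  set y : Matrix κ ι R := D * (Y * E) with hy
  have hxD : x * D = x := by rw [hx, Matrix.mul_assoc, Matrix.mul_assoc, hD]
  have hDy : D * y = y := by rw [hy, ← Matrix.mul_assoc, hD]
  have hex : E * x = x := by rw [hx, ← Matrix.mul_assoc, hE]
  have hxy : x * y = E := by
    rw [hy, ← Matrix.mul_assoc, hxD, hx, Matrix.mul_assoc E, ← Matrix.mul_assoc (X * D), ← h, hE,
      hE]
  set g : Matrix κ κ R := y * x with hgdef
  have hg : g * g = g := by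
    rw [hgdef, Matrix.mul_assoc, ← Matrix.mul_assoc x, hxy, hex]
  have hgD : g * D = g := by rw [hgdef, Matrix.mul_assoc, hxD]
  have hDg : D * g = g := by rw [hgdef, ← Matrix.mul_assoc, hDy]
  have hf : (D - g) * (D - g) = D - g := by
    rw [Matrix.mul_sub, Matrix.sub_mul, Matrix.sub_mul, hD, hgD, hDg, hg]
    simp
  have hgf : g * (D - g) = 0 := by rw [Matrix.mul_sub, hgD, hg, sub_self]
  have hfg : (D - g) * g = 0 := by rw [Matrix.sub_mul, hDg, hg, sub_self]
  have e1 : gcl g hg = gcl E hE := by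
    rw [gcl_eq]
    exact ⟨y, x, rfl, hxy⟩
  refine ⟨g, hg, hf, hDg, hgD, e1, ?_⟩
  rw [← e1]
  have h3 : g + (D - g) = D := by abel
  have h4 := gcl_orth hg hf hgf hfg (by rw [h3, hD])
  rw [← h4]
  congr 1

/-- splitting of idempotent matrices -/
theorem gcl_split {E : Matrix ι ι R} (hE : E * E = E) (x y : VV R) (h : gcl E hE = x + y) :
    ∃ (G H : Matrix ι ι R) (hG : G * G = G) (hH : H * H = H), G + H = E ∧ G * H = 0 ∧ H * G = 0 ∧
      gcl G hG = x ∧ gcl H hH = y := by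
  obtain ⟨n, X, hX, rfl⟩ := exists_gcl x
  obtain ⟨m, Y, hY, rfl⟩ := exists_gcl y
  rw [← gcl_blocks, gcl_eq] at h
  obtain ⟨a, b, hab, hba⟩ := h
  set B := Matrix.fromBlocks X 0 0 Y with hB
  set P : Matrix (Fin n ⊕ Fin m) (Fin n ⊕ Fin m) R := Matrix.fromBlocks X 0 0 0 with hP
  set Q : Matrix (Fin n ⊕ Fin m) (Fin n ⊕ Fin m) R := Matrix.fromBlocks 0 0 0 Y with hQ
  have hBB : B * B = B := idem_blocks hX hY
  have hPP : P * P = P := by rw [hP, Matrix.fromBlocks_multiply]; simp [hX]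
  have hQQ : Q * Q = Q := by rw [hQ, Matrix.fromBlocks_multiply]; simp [hY]
  have hPQ : P * Q = 0 := by rw [hP, hQ, Matrix.fromBlocks_multiply]; simp
  have hQP : Q * P = 0 := by rw [hP, hQ, Matrix.fromBlocks_multiply]; simp
  have hPB : P * B = P := by rw [hP, hB, Matrix.fromBlocks_multiply]; simp [hX]
  have hQB : Q * B = Q := by rw [hQ, hB, Matrix.fromBlocks_multiply]; simp [hY]
  have hsum : P + Q = B := by rw [hP, hQ, hB, Matrix.fromBlocks_add]; simp
  have cut : ∀ U V : Matrix (Fin n ⊕ Fin m) (Fin n ⊕ Fin m) R, U * B = U →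
      (a * U * b) * (a * V * b) = a * (U * V) * b := by
    intro U V hU
    calc (a * U * b) * (a * V * b) = a * (U * (b * a)) * V * b := by
          simp only [Matrix.mul_assoc]
      _ = a * (U * V) * b := by rw [hba, hU]; simp only [Matrix.mul_assoc]
  have cutE : ∀ U : Matrix (Fin n ⊕ Fin m) (Fin n ⊕ Fin m) R, U * U = U → U * B = U →
      Eqv (a * U * b) U := by
    intro U hU hUB
    refine ⟨a * U, U * b, ?_, ?_⟩
    · calc (a * U) * (U * b) = a * (U * U) * b := by simp only [Matrix.mul_assoc]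
        _ = a * U * b := by rw [hU]
    · calc (U * b) * (a * U) = U * (b * a) * U := by simp only [Matrix.mul_assoc]
        _ = U := by rw [hba, hUB, hU]
  have hG : (a * P * b) * (a * P * b) = a * P * b := by rw [cut _ _ hPB, hPP]
  have hH : (a * Q * b) * (a * Q * b) = a * Q * b := by rw [cut _ _ hQB, hQQ]
  refine ⟨a * P * b, a * Q * b, hG, hH, ?_, ?_, ?_, ?_, ?_⟩
  · rw [← Matrix.add_mul, ← Matrix.mul_add, hsum, ← hba]
    calc a * (b * a) * b = (a * b) * (a * b) := by simp only [Matrix.mul_assoc]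
      _ = E := by rw [hab, hE]
  · rw [cut _ _ hPB, hPQ, Matrix.mul_zero, Matrix.zero_mul]
  · rw [cut _ _ hQB, hQP, Matrix.mul_zero, Matrix.zero_mul]
  · rw [gcl_eq]
    exact Eqv.trans hG hX (cutE P hPP hPB) (Eqv.stab hX)
  · rw [gcl_eq]
    refine Eqv.trans hH hY (cutE Q hQQ hQB) ?_
    refine ⟨Matrix.fromRows 0 Y, Matrix.fromCols 0 Y, ?_, ?_⟩
    · rw [rowcol]; simp [hY, hQ]
    · rw [colrow]; simp [hY]

end

section
variable {R : Type u} [NonUnitalRing R] {S : Type v} [NonUnitalRing S]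
  {ι κ μ : Type} [Fintype ι] [Fintype κ] [Fintype μ]

theorem map_idem (φ : R →ₙ+* S) {E : Matrix ι ι R} (h : E * E = E) :
    E.map φ * E.map φ = E.map φ := by
  rw [← Matrix.map_mul, h]

theorem Eqv.map (φ : R →ₙ+* S) {E : Matrix ι ι R} {F : Matrix κ κ R} (h : Eqv E F) :
    Eqv (E.map φ) (F.map φ) := by
  obtain ⟨x, y, h1, h2⟩ := h
  exact ⟨x.map φ, y.map φ, by rw [← Matrix.map_mul, h1], by rw [← Matrix.map_mul, h2]⟩

/-- functoriality of `V` -/
noncomputable def vmap (φ : R →ₙ+* S) : VV R →+ VV S where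
  toFun := Quotient.lift (s := Idem.setoid R)
    (fun e => VV.mk (⟨e.size, e.mat.map φ, map_idem φ e.idem⟩ : Idem S)) (fun e f h => by
      have h1 : Eqv e.mat f.mat := (Idem.equiv_iff e f).1 h
      exact VV.mk_eq.2 (Eqv.map φ h1))
  map_zero' := by
    rw [VV.zero_mk]
    apply VV.mk_eq.2
    exact ⟨0, 0, by ext i; exact Fin.elim0 i, by ext i; exact Fin.elim0 i⟩
  map_add' := by
    rintro ⟨a⟩ ⟨b⟩
    apply VV.mk_eq.2
    show Eqv ((blk a.mat b.mat).map φ) (blk (a.mat.map φ) (b.mat.map φ))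
    have : (blk a.mat b.mat).map φ = blk (a.mat.map φ) (b.mat.map φ) := by
      unfold blk
      rw [← Matrix.submatrix_map, Matrix.fromBlocks_map]
      simp [Matrix.map_zero φ (map_zero φ)]
    rw [this]
    exact Eqv.refl (blk_idem (map_idem φ a.idem) (map_idem φ b.idem))

theorem vmap_mk (φ : R →ₙ+* S) (e : Idem R) :
    vmap φ (VV.mk e) = VV.mk (⟨e.size, e.mat.map φ, map_idem φ e.idem⟩ : Idem S) := rfl

theorem vmap_gcl (φ : R →ₙ+* S) {E : Matrix ι ι R} (h : E * E = E) :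
    vmap φ (gcl E h) = gcl (E.map φ) (map_idem φ h) := by
  unfold gcl
  rw [vmap_mk]
  rfl

end

/-! ### sums -/

theorem gcl_congr {R : Type u} [NonUnitalRing R] {ι : Type} [Fintype ι] {E F : Matrix ι ι R}
    (h : E = F) (hE : E * E = E) (hF : F * F = F) : gcl E hE = gcl F hF := by
  subst h
  rfl

theorem cl_congr {R : Type u} [NonUnitalRing R] {e f : R} (h : e = f) (he : e * e = e)
    (hf : f * f = f) : cl he = cl hf := by
  subst h
  rfl

theorem gcl_sum {R : Type u} [NonUnitalRing R] {ι κ : Type} [Fintype ι] (s : Finset κ)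
    (G : κ → Matrix ι ι R) (hG : ∀ x, G x * G x = G x) (ho : ∀ x y, x ≠ y → G x * G y = 0) :
    ∃ h : (∑ x ∈ s, G x) * (∑ x ∈ s, G x) = ∑ x ∈ s, G x,
      gcl (∑ x ∈ s, G x) h = ∑ x ∈ s, gcl (G x) (hG x) := by
  classical
  induction s using Finset.induction_on with
  | empty =>
    have h0 : (∑ x ∈ (∅ : Finset κ), G x) = 0 := Finset.sum_empty
    have h1 : (∑ x ∈ (∅ : Finset κ), G x) * (∑ x ∈ (∅ : Finset κ), G x) =
        ∑ x ∈ (∅ : Finset κ), G x := by rw [h0, Matrix.mul_zero]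
    exact ⟨h1, by rw [(gcl_eq_zero h1).2 h0, Finset.sum_empty]⟩
  | insert a s ha ih =>
    obtain ⟨h1, h2⟩ := ih
    have h3 : G a * ∑ x ∈ s, G x = 0 := by
      rw [Finset.mul_sum]
      exact Finset.sum_eq_zero fun x hx => ho a x fun h => ha (h ▸ hx)
    have h4 : (∑ x ∈ s, G x) * G a = 0 := by
      rw [Finset.sum_mul]
      exact Finset.sum_eq_zero fun x hx => ho x a fun h => ha (h ▸ hx)
    have h5 : (G a + ∑ x ∈ s, G x) * (G a + ∑ x ∈ s, G x) = G a + ∑ x ∈ s, G x := by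
      rw [Matrix.mul_add, Matrix.add_mul, Matrix.add_mul, hG, h1, h3, h4]
      simp
    have h6 : ∑ x ∈ insert a s, G x = G a + ∑ x ∈ s, G x := Finset.sum_insert ha
    have h7 : (∑ x ∈ insert a s, G x) * (∑ x ∈ insert a s, G x) = ∑ x ∈ insert a s, G x := by
      rw [h6, h5]
    refine ⟨h7, ?_⟩
    have h8 : ∑ x ∈ insert a s, gcl (G x) (hG x) =
        gcl (G a) (hG a) + ∑ x ∈ s, gcl (G x) (hG x) := Finset.sum_insert ha
    rw [h8, ← h2, ← gcl_orth (hG a) h1 h3 h4 h5]
    exact gcl_congr h6 _ _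

end Pool.Agent.V8H73.NK2
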