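import Pool.Agent.V8H73.NK2.Appr

set_option autoImplicit false

/-!
Elements of a corner of a C*-algebra of real rank zero modulo a closed ideal.
-/

namespace Pool.Agent.V8H73.NK2

open Pool.Agent.H494R3.NK

universe u

section
variable {A : Type u} [NonUnitalCStarAlgebra A]

/-- a sequence of approximations and a countable set of coordinates -/
theorem exists_countable {I : Type} (Jf : VV A → Finset I) (hA : RealRankZero A) (p x : A)
    (hpp : p * p = p) (hps : star p = p) (hx : star x = x) (hpx : p * x = x) (hxp : x * p = x) :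
    ∃ C : Set I, C.Countable ∧ ∀ ε : ℝ, 0 < ε → ∃ a : Appr p x ε (2 * (‖x‖ + 1)),
      ∀ μ ∈ a.S, (Jf (cl (a.idem μ)) : Set I) ⊆ C := by
  have h : ∀ n : ℕ, Nonempty (Appr p x (1 / ((n : ℝ) + 1)) (2 * (‖x‖ + 1))) := fun n =>
    exists_appr hA p x hpp hps hx hpx hxp _ (by positivity)
  let a := fun n => (h n).some
  refine ⟨⋃ n, ⋃ μ ∈ (a n).S, (Jf (cl ((a n).idem μ)) : Set I), ?_, ?_⟩
  · refine Set.countable_iUnion fun n => ?_
    refine Set.Countable.biUnion (a n).S.countable_toSet fun μ _ => ?_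
    exact Finset.countable_toSet _
  · intro ε hε
    obtain ⟨n, hn⟩ := exists_nat_one_div_lt hε
    refine ⟨⟨(a n).S, (a n).g, (a n).c, (a n).idem, (a n).sa, (a n).orth, (a n).bound,
      (a n).hp.trans hn.le, (a n).hx.trans hn.le, (a n).cls⟩, ?_⟩
    intro μ hμ i hi
    exact Set.mem_iUnion.2 ⟨n, Set.mem_iUnion₂.2 ⟨μ, hμ, hi⟩⟩

theorem sum_sub_mem {s : VV A →+ ℕ} {p x : A} {ε C : ℝ} (a : Appr p x ε C) (μ : ℝ)
    (h : ∀ ν ∈ a.S, ν ≠ μ → s (cl (a.idem ν)) = 0) :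
    ∑ ν ∈ a.S, a.c ν • a.g ν - a.c μ • ∑ ν ∈ a.S, a.g ν ∈ Js s := by
  rw [Finset.smul_sum, ← Finset.sum_sub_distrib]
  refine Submodule.sum_mem _ fun ν hν => ?_
  by_cases hνμ : ν = μ
  · rw [hνμ, sub_self]
    exact Submodule.zero_mem _
  · rw [← sub_smul]
    exact Submodule.smul_mem _ _ ((mem_Js (a.idem ν)).2 (h ν hν hνμ))

/-- If at most one projection of every approximation survives then `x` is a scalar. -/
theorem scalar_mod (s : VV A →+ ℕ) (q x : A) (C : ℝ) (hC : 0 ≤ C)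
    (happ : ∀ ε : ℝ, 0 < ε → ∃ a : Appr q x ε C, ∀ μ ∈ a.S, ∀ ν ∈ a.S, μ ≠ ν →
      s (cl (a.idem μ)) = 0 ∨ s (cl (a.idem ν)) = 0) : ∃ c : ℂ, x - c • q ∈ Js s := by
  have hcl : IsClosed ((Js s ⊔ Submodule.span ℂ {q} : Submodule ℂ A) : Set A) :=
    Submodule.isClosed_sup_finiteDimensional _ _ (Js_closed s)
  have hx : x ∈ (Js s ⊔ Submodule.span ℂ {q} : Submodule ℂ A) := by
    apply mem_of_approx _ hcl x (1 + C)
    intro ε hε
    obtain ⟨a, ha⟩ := happ ε hε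
    by_cases hz : ∀ μ ∈ a.S, s (cl (a.idem μ)) = 0
    · refine ⟨∑ μ ∈ a.S, a.c μ • a.g μ, ?_, ?_⟩
      · apply Submodule.mem_sup_left
        exact Submodule.sum_mem _ fun μ hμ =>
          Submodule.smul_mem _ _ ((mem_Js (a.idem μ)).2 (hz μ hμ))
      · have := a.hx
        nlinarith
    · push Not at hz
      obtain ⟨μ, hμ, hμ0⟩ := hz
      have h1 := sum_sub_mem (s := s) a μ fun ν hν hne => (ha ν hν μ hμ hne).resolve_right hμ0
      refine ⟨(∑ ν ∈ a.S, a.c ν • a.g ν - a.c μ • ∑ ν ∈ a.S, a.g ν) + a.c μ • q, ?_, ?_⟩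
      · exact Submodule.add_mem _ (Submodule.mem_sup_left h1)
          (Submodule.mem_sup_right (Submodule.smul_mem _ _ (Submodule.mem_span_singleton_self q)))
      · have h2 : x - ((∑ ν ∈ a.S, a.c ν • a.g ν - a.c μ • ∑ ν ∈ a.S, a.g ν) + a.c μ • q) =
            (x - ∑ ν ∈ a.S, a.c ν • a.g ν) - a.c μ • (q - ∑ ν ∈ a.S, a.g ν) := by
          rw [smul_sub]
          abel
        rw [h2]
        refine (norm_sub_le _ _).trans ?_
        rw [norm_smul]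
        have h3 : ‖a.c μ‖ * ‖q - ∑ ν ∈ a.S, a.g ν‖ ≤ C * ε :=
          mul_le_mul (a.bound μ) a.hp (norm_nonneg _) hC
        have := a.hx
        linarith
  obtain ⟨k, hk, l, hl, hkl⟩ := Submodule.mem_sup.1 hx
  obtain ⟨c, hc⟩ := Submodule.mem_span_singleton.1 hl
  refine ⟨c, ?_⟩
  rw [← hkl, ← hc]
  have : k + c • q - c • q = k := by abel
  rw [this]
  exact hk

theorem norm_le_of_dist {s : VV A →+ ℕ} {g z : A} (hg : g * g = g) (hgs : star g = g)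
    (hgJ : g ∉ Js s) (c : ℂ) (r : ℝ) (hz : z ∈ Js s) (h : ‖c • g - z‖ ≤ r) : ‖c‖ ≤ r := by
  by_cases hc : c = 0
  · rw [hc, norm_zero]
    exact (norm_nonneg _).trans h
  · have h1 : c • g - z = c • (g - c⁻¹ • z) := by
      rw [smul_sub, smul_smul, mul_inv_cancel₀ hc, one_smul]
    rw [h1, norm_smul] at h
    have h2 := dist_Js hg hgs hgJ (Submodule.smul_mem (Js s) c⁻¹ hz)
    have h3 : ‖c‖ * 1 ≤ ‖c‖ * ‖g - c⁻¹ • z‖ := mul_le_mul_of_nonneg_left h2 (norm_nonneg c)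
    linarith

theorem nv_mpr (s : VV A →+ ℕ) (sx : Fin 4 → (VV A →+ ℕ)) (p y : A) (hpp : p * p = p)
    (hps : star p = p) (C : ℝ) (hC : 0 ≤ C) (h1 : ∀ x, sx x (cl hpp) = 1)
    (happ : ∀ ε : ℝ, 0 < ε → ∃ a : Appr p y ε C, ∀ μ ∈ a.S,
      s (cl (a.idem μ)) = ∑ x, sx x (cl (a.idem μ)))
    (hy : ∀ x, y ∈ Js (sx x)) : y ∈ Js s := by
  classical
  apply mem_of_approx _ (Js_closed s) y (1 + 4 * (1 + C))
  intro ε hε
  obtain ⟨a, ha⟩ := happ ε hε
  have huniq : ∀ x, ∀ μ ∈ a.S, sx x (cl (a.idem μ)) ≠ 0 → ∀ ν ∈ a.S, ν ≠ μ →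
      sx x (cl (a.idem ν)) = 0 := by
    intro x μ hμ hμ0 ν hν hne
    have h2 : ∑ μ ∈ a.S, sx x (cl (a.idem μ)) = 1 := by
      rw [← map_sum, ← a.cls hpp, h1]
    have h3 : ∑ κ ∈ {μ, ν}, sx x (cl (a.idem κ)) ≤ ∑ μ ∈ a.S, sx x (cl (a.idem μ)) := by
      apply Finset.sum_le_sum_of_subset
      intro κ hκ
      rcases Finset.mem_insert.1 hκ with h | h
      · rw [h]; exact hμ
      · rw [Finset.mem_singleton.1 h]; exact hν
    rw [Finset.sum_pair (Ne.symm hne), h2] at h3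
    omega
  have hbad : ∀ μ ∈ a.S, s (cl (a.idem μ)) ≠ 0 → ‖a.c μ‖ ≤ (1 + C) * ε := by
    intro μ hμ hμ0
    have h2 : ∃ x, sx x (cl (a.idem μ)) ≠ 0 := by
      by_contra hcon
      push Not at hcon
      apply hμ0
      rw [ha μ hμ]
      exact Finset.sum_eq_zero fun x _ => hcon x
    obtain ⟨x, hx⟩ := h2
    have h3 := sum_sub_mem (s := sx x) a μ (huniq x μ hμ hx)
    have hpJ : p ∉ Js (sx x) := by
      rw [mem_Js hpp, h1]
      exact one_ne_zero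
    apply norm_le_of_dist hpp hps hpJ (a.c μ) _ (Submodule.sub_mem _ (hy x) h3)
    have h4 : a.c μ • p - (y - (∑ ν ∈ a.S, a.c ν • a.g ν - a.c μ • ∑ ν ∈ a.S, a.g ν)) =
        a.c μ • (p - ∑ ν ∈ a.S, a.g ν) - (y - ∑ ν ∈ a.S, a.c ν • a.g ν) := by
      rw [smul_sub]
      abel
    rw [h4]
    refine (norm_sub_le _ _).trans ?_
    rw [norm_smul]
    have h5 : ‖a.c μ‖ * ‖p - ∑ ν ∈ a.S, a.g ν‖ ≤ C * ε :=
      mul_le_mul (a.bound μ) a.hp (norm_nonneg _) hC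
    have := a.hx
    linarith
  obtain ⟨B, hB⟩ : ∃ B, B = a.S.filter fun μ => s (cl (a.idem μ)) ≠ 0 := ⟨_, rfl⟩
  obtain ⟨G, hG⟩ : ∃ G, G = a.S.filter fun μ => ¬ s (cl (a.idem μ)) ≠ 0 := ⟨_, rfl⟩
  have hsplit : ∑ μ ∈ a.S, a.c μ • a.g μ = ∑ μ ∈ B, a.c μ • a.g μ + ∑ μ ∈ G, a.c μ • a.g μ := by
    rw [hB, hG, Finset.sum_filter_add_sum_filter_not]
  have hcard : B.card ≤ 4 := by
    have h2 : ∑ μ ∈ a.S, s (cl (a.idem μ)) = 4 := by
      rw [Finset.sum_congr rfl ha, Finset.sum_comm]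
      have : ∀ x, ∑ μ ∈ a.S, sx x (cl (a.idem μ)) = 1 := by
        intro x
        rw [← map_sum, ← a.cls hpp, h1]
      rw [Finset.sum_congr rfl fun x _ => this x]
      rfl
    have h3 : ∑ μ ∈ B, 1 ≤ ∑ μ ∈ B, s (cl (a.idem μ)) := by
      refine Finset.sum_le_sum fun μ hμ => ?_
      rw [hB, Finset.mem_filter] at hμ
      exact Nat.one_le_iff_ne_zero.2 hμ.2
    have h4 : ∑ μ ∈ B, s (cl (a.idem μ)) ≤ ∑ μ ∈ a.S, s (cl (a.idem μ)) := by
      apply Finset.sum_le_sum_of_subset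
      rw [hB]
      exact Finset.filter_subset _ _
    rw [Finset.sum_const, smul_eq_mul, mul_one] at h3
    omega
  refine ⟨∑ μ ∈ G, a.c μ • a.g μ, ?_, ?_⟩
  · refine Submodule.sum_mem _ fun μ hμ => Submodule.smul_mem _ _ ((mem_Js (a.idem μ)).2 ?_)
    rw [hG, Finset.mem_filter] at hμ
    exact not_not.1 hμ.2
  · have h2 : y - ∑ μ ∈ G, a.c μ • a.g μ =
        (y - ∑ μ ∈ a.S, a.c μ • a.g μ) + ∑ μ ∈ B, a.c μ • a.g μ := by
      rw [hsplit]
      abel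
    rw [h2]
    refine (norm_add_le _ _).trans ?_
    have h3 : ‖∑ μ ∈ B, a.c μ • a.g μ‖ ≤ 4 * ((1 + C) * ε) := by
      refine (norm_sum_le _ _).trans ?_
      have h4 : ∀ μ ∈ B, ‖a.c μ • a.g μ‖ ≤ (1 + C) * ε := by
        intro μ hμ
        rw [hB, Finset.mem_filter] at hμ
        have h5 := hbad μ hμ.1 hμ.2
        have h6 : ‖a.g μ‖ ≤ 1 := by
          have h := CStarRing.norm_star_mul_self (x := a.g μ)
          rw [a.sa, a.idem] at h
          nlinarith [norm_nonneg (a.g μ)]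
        rw [norm_smul]
        calc ‖a.c μ‖ * ‖a.g μ‖ ≤ ((1 + C) * ε) * 1 :=
              mul_le_mul h5 h6 (norm_nonneg _) (by positivity)
          _ = (1 + C) * ε := mul_one _
      refine (Finset.sum_le_sum h4).trans ?_
      rw [Finset.sum_const, nsmul_eq_mul]
      have h7 : (B.card : ℝ) ≤ 4 := by exact_mod_cast hcard
      have h8 : 0 ≤ (1 + C) * ε := by positivity
      exact mul_le_mul_of_nonneg_right h7 h8
    have := a.hx
    linarith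

theorem nv_mp (s : VV A →+ ℕ) (sx : Fin 4 → (VV A →+ ℕ)) (p y : A) (hpp : p * p = p)
    (C : ℝ) (h1 : ∀ x, sx x (cl hpp) = 1)
    (happ : ∀ ε : ℝ, 0 < ε → ∃ a : Appr p y ε C, ∀ μ ∈ a.S,
      s (cl (a.idem μ)) = ∑ x, sx x (cl (a.idem μ)))
    (hy : y ∈ Js s) (x : Fin 4) : y ∈ Js (sx x) := by
  classical
  apply mem_of_approx _ (Js_closed (sx x)) y 2
  intro ε hε
  obtain ⟨a, ha⟩ := happ ε hε
  have h2 : ∑ μ ∈ a.S, sx x (cl (a.idem μ)) = 1 := by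
    rw [← map_sum, ← a.cls hpp, h1]
  obtain ⟨μ, hμ, hμ0⟩ : ∃ μ ∈ a.S, sx x (cl (a.idem μ)) ≠ 0 := by
    by_contra hcon
    push Not at hcon
    rw [Finset.sum_eq_zero hcon] at h2
    exact absurd h2 (by norm_num)
  have huniq : ∀ ν ∈ a.S, ν ≠ μ → sx x (cl (a.idem ν)) = 0 := by
    intro ν hν hne
    have h3 : ∑ κ ∈ {μ, ν}, sx x (cl (a.idem κ)) ≤ ∑ μ ∈ a.S, sx x (cl (a.idem μ)) := by
      apply Finset.sum_le_sum_of_subset
      intro κ hκ
      rcases Finset.mem_insert.1 hκ with h | h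
      · rw [h]; exact hμ
      · rw [Finset.mem_singleton.1 h]; exact hν
    rw [Finset.sum_pair (Ne.symm hne), h2] at h3
    omega
  have hgJ : a.g μ ∉ Js s := by
    rw [mem_Js (a.idem μ), ha μ hμ]
    intro h3
    exact hμ0 (Finset.sum_eq_zero_iff.1 h3 x (Finset.mem_univ x))
  have hgn : ‖a.g μ‖ ≤ 1 := by
    have h := CStarRing.norm_star_mul_self (x := a.g μ)
    rw [a.sa, a.idem] at h
    nlinarith [norm_nonneg (a.g μ)]
  have hc : ‖a.c μ‖ ≤ ε := by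
    apply norm_le_of_dist (a.idem μ) (a.sa μ) hgJ (a.c μ) _ (Js_mul_left s (a.g μ) hy)
    have h3 : a.c μ • a.g μ = a.g μ * ∑ ν ∈ a.S, a.c ν • a.g ν := by
      rw [Finset.mul_sum, Finset.sum_eq_single μ]
      · rw [mul_smul_comm, a.idem]
      · intro ν _ hne
        rw [mul_smul_comm, a.orth μ ν (Ne.symm hne), smul_zero]
      · intro h; exact absurd hμ h
    rw [h3, ← mul_sub, ← norm_neg, ← mul_neg, neg_sub]
    refine (norm_mul_le _ _).trans ?_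
    calc ‖a.g μ‖ * ‖y - ∑ ν ∈ a.S, a.c ν • a.g ν‖ ≤ 1 * ε :=
          mul_le_mul hgn a.hx (norm_nonneg _) zero_le_one
      _ = ε := one_mul _
  refine ⟨∑ ν ∈ a.S, a.c ν • a.g ν - a.c μ • a.g μ, ?_, ?_⟩
  · have h3 : ∑ ν ∈ a.S, a.c ν • a.g ν - a.c μ • a.g μ =
        ∑ ν ∈ a.S.erase μ, a.c ν • a.g ν := by
      rw [← Finset.add_sum_erase a.S _ hμ]
      abel
    rw [h3]
    refine Submodule.sum_mem _ fun ν hν => Submodule.smul_mem _ _ ((mem_Js (a.idem ν)).2 ?_)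
    rw [Finset.mem_erase] at hν
    exact huniq ν hν.2 hν.1
  · have h3 : y - (∑ ν ∈ a.S, a.c ν • a.g ν - a.c μ • a.g μ) =
        (y - ∑ ν ∈ a.S, a.c ν • a.g ν) + a.c μ • a.g μ := by abel
    rw [h3]
    refine (norm_add_le _ _).trans ?_
    rw [norm_smul]
    have h4 : ‖a.c μ‖ * ‖a.g μ‖ ≤ ε * 1 := mul_le_mul hc hgn (norm_nonneg _) hε.le
    have := a.hx
    linarith

end

end Pool.Agent.V8H73.NK2
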