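import Pool.Agent.V8H73.NK2.RingN
import Pool.Agent.V8H73.NK2.Mod
import Pool.Agent.V8H73.NK2.End
import Pool.Agent.V8H73.NK2.Free
import Pool.Agent.H853R3.NK.TaskSplit
import Pool.Agent.H399R6.NKProj

set_option autoImplicit false

/-!
A regular ring whose monoid `V` is not that of any C*-algebra of real rank zero.
-/

namespace Pool.Agent.V8H73.NK2

open Pool.Agent.H494R3.NK

universe u

section
variable {A : Type u} [NonUnitalCStarAlgebra A]

/-- an idempotent is equivalent to a projection -/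
theorem exists_proj {e : A} (he : e * e = e) :
    ∃ (p : A) (hp : p * p = p), star p = p ∧ p * e = e ∧ e * p = p ∧ cl hp = cl he := by
  obtain ⟨p, hp, hps, hpe, hep⟩ := Pool.Agent.H399R6.NKProj.taskProj A e he
  refine ⟨p, hp, hps, hpe, hep, ?_⟩
  rw [cl_eq_gcl, cl_eq_gcl, gcl_eq]
  refine ⟨s1 e, s1 p, ?_, ?_⟩
  · rw [Pool.Agent.H719R4.NK.s1_mul, hep]
  · rw [Pool.Agent.H719R4.NK.s1_mul, hpe]

theorem exists_subproj {p : A} (hp : p * p = p) (hps : star p = p) (x y : VV A)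
    (h : cl hp = x + y) :
    ∃ (q : A) (hq : q * q = q), star q = q ∧ p * q = q ∧ q * p = q ∧ cl hq = x := by
  obtain ⟨e, f, he, hf, hef, h1, h2, hx, hy⟩ := Pool.Agent.H853R3.NK.Split.taskSplit A p hp x y h
  obtain ⟨q, hq, hqs, hqe, heq, hcl⟩ := exists_proj he
  have hpe : p * e = e := by rw [← hef, add_mul, he, h2, add_zero]
  have hpq : p * q = q := by
    calc p * q = p * (e * q) := by rw [heq]
      _ = (p * e) * q := by rw [mul_assoc]
      _ = q := by rw [hpe, heq]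
  refine ⟨q, hq, hqs, hpq, ?_, hcl.trans hx⟩
  have := congrArg star hpq
  rwa [star_mul, hqs, hps] at this

theorem sub_idem {p q : A} (hp : p * p = p) (hq : q * q = q) (hpq : p * q = q) (hqp : q * p = q) :
    (p - q) * (p - q) = p - q := by
  rw [mul_sub, sub_mul, sub_mul, hp, hpq, hqp, hq]
  abel

theorem cl_sub {p q : A} (hp : p * p = p) (hq : q * q = q) (hpq : p * q = q) (hqp : q * p = q) :
    cl hp = cl hq + cl (sub_idem hp hq hpq hqp) := by
  have h1 : q + (p - q) = p := by abel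
  have h2 : (q + (p - q)) * (q + (p - q)) = q + (p - q) := by rw [h1, hp]
  rw [← Pool.Agent.H719R4.NK.taskSum A _ _ hq (sub_idem hp hq hpq hqp) h2
    (by rw [mul_sub, hqp, hq, sub_self]) (by rw [sub_mul, hpq, hq, sub_self])]
  exact cl_congr h1.symm _ _

theorem exists_base {I : Type} (κ : I → Fin 4) (hA : RealRankZero A)
    (θ : VV A ≃+ VV (RR κ)) : ∃ (J : Finset I) (p : A) (hp : p * p = p), star p = p ∧
      θ (cl hp) = cl (oneN_idem κ J) := by
  classical
  obtain ⟨n, E, hE, hu⟩ := exists_gcl (θ.symm (cl (oneN_idem κ ∅)))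
  obtain ⟨P, hP⟩ : ∃ P : Set A, P = {f | f * f = f ∧ star f = f} := ⟨_, rfl⟩
  have hall : ∀ x : A, x ∈ JP P := by
    intro x
    apply mem_of_approx (JP P) (JP_closed P) x 1
    intro ε hε
    obtain ⟨m, f, c, hf, hx⟩ := Pool.Agent.H486R3.NK.taskDense A hA x ε hε
    refine ⟨∑ i, c i • f i, ?_, by linarith⟩
    refine Submodule.sum_mem _ fun i _ => Submodule.smul_mem _ _ ?_
    apply Submodule.le_topologicalClosure
    have h1 : f i * f i * f i ∈ IdP P := Submodule.subset_span ⟨f i, f i, f i, by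
      rw [hP]
      exact hf i, rfl⟩
    rwa [(hf i).1, (hf i).1] at h1
  obtain ⟨m, f, hf, hfP, z, hz⟩ := matP (P := P) (fun f hf => by
    rw [hP] at hf
    exact hf.1) E hE (fun i j => hall _)
  have h4 : sr κ (fun _ => false) (θ (gcl E hE)) = 4 := by
    rw [← hu, θ.apply_symm_apply]
    exact sr_oneN κ (by simp)
  obtain ⟨i, hi⟩ : ∃ i, sr κ (fun _ => false) (θ (cl (hf i))) ≠ 0 := by
    by_contra hcon
    push Not at hcon
    have h5 := congrArg (fun c => sr κ (fun _ => false) (θ c)) hz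
    simp only [map_add, map_sum, h4] at h5
    rw [Finset.sum_eq_zero fun i _ => hcon i] at h5
    omega
  obtain ⟨J, z', hz'⟩ := exists_oneN κ _ hi
  have h5 : cl (hf i) = θ.symm (cl (oneN_idem κ J)) + θ.symm z' := by
    rw [← map_add, hz', θ.symm_apply_apply]
  obtain ⟨e, f', he, hf', _, _, _, h6, _⟩ := Pool.Agent.H853R3.NK.Split.taskSplit A (f i) (hf i) _ _ h5
  obtain ⟨p, hp', hps, _, _, h7⟩ := exists_proj he
  exact ⟨J, p, hp', hps, by rw [h7, h6, θ.apply_symm_apply]⟩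

end

/-- the colours -/
def kap : II → Fin 4 := fun i => i.1

theorem kap_ix (k : Fin 4) (w : Om k) : kap (ix k w) = k := rfl

theorem ZZ_mem (k : Fin 4) (hk : k ≠ 0) (w0 : Om 0) (w : Om k) (t : II → Bool)
    (ht : ∀ i, t i = true → i = ix 0 w0 ∨ i = ix k w) : ZZ k ∈ CC kap t := by
  constructor
  · intro i hi
    rcases ht i hi with h | h
    · rw [h, kap_ix]
      exact ZZ_comm0 k hk
    · rw [h, kap_ix]
      exact ZZ_comm k hk
  · intro i j _ hj _ hj0
    rcases ht j hj with h | h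
    · rw [h, kap_ix] at hj0
      exact absurd rfl hj0
    · rw [h, kap_ix]

theorem main2 (A : Type u) [NonUnitalCStarAlgebra A] (hA : RealRankZero A) :
    ¬ Nonempty (VV A ≃+ VV (RR kap)) := by
  classical
  rintro ⟨θ⟩
  obtain ⟨J0, p, hp, hps, hpθ⟩ := exists_base kap hA θ
  have hqex : ∀ i : II, ∃ (q : A) (hq : q * q = q), star q = q ∧ p * q = q ∧ q * p = q ∧
      θ (cl hq) = cl (eN_idem kap J0 i) := by
    intro i
    obtain ⟨q, hq, hqs, hpq, hqp, hcl⟩ := exists_subproj hp hps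
      (θ.symm (cl (eN_idem kap J0 i))) (θ.symm (cl (fN_idem kap J0 i))) (by
        rw [← map_add, ← cl_one_split, ← hpθ, θ.symm_apply_apply])
    exact ⟨q, hq, hqs, hpq, hqp, by rw [hcl, θ.apply_symm_apply]⟩
  choose q hq hqs hpq hqp hqθ using hqex
  have hsub : ∀ i, (p - q i) * (p - q i) = p - q i := fun i =>
    sub_idem hp (hq i) (hpq i) (hqp i)
  have hsubs : ∀ i, star (p - q i) = p - q i := fun i => by rw [star_sub, hps, hqs]
  have hpsub : ∀ i, p * (p - q i) = p - q i := fun i => by rw [mul_sub, hp, hpq]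
  have hsubp : ∀ i, (p - q i) * p = p - q i := fun i => by rw [sub_mul, hp, hqp]
  have hcls : ∀ (s : VV A →+ ℕ) i, s (cl hp) = s (cl (hq i)) + s (cl (hsub i)) := fun s i => by
    rw [← map_add, ← cl_sub hp (hq i) (hpq i) (hqp i)]
  choose Jf hJf using fun c : VV A => sr_dep kap (θ c)
  have hCex : ∀ b x : A, ∃ C : Set II, C.Countable ∧ (b * b = b → star b = b → star x = x →
      b * x = x → x * b = x → ∀ ε : ℝ, 0 < ε → ∃ a : Appr b x ε (2 * (‖x‖ + 1)),
        ∀ μ ∈ a.S, (Jf (cl (a.idem μ)) : Set II) ⊆ C) := by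
    intro b x
    by_cases h : b * b = b ∧ star b = b ∧ star x = x ∧ b * x = x ∧ x * b = x
    · obtain ⟨C, hC, h'⟩ := exists_countable Jf hA b x h.1 h.2.1 h.2.2.1 h.2.2.2.1 h.2.2.2.2
      exact ⟨C, hC, fun _ _ _ _ _ => h'⟩
    · exact ⟨∅, Set.countable_empty, fun h1 h2 h3 h4 h5 => absurd ⟨h1, h2, h3, h4, h5⟩ h⟩
  choose C hCc hCa using hCex
  obtain ⟨Y, hY⟩ : ∃ Y : II → II → II → Fin 6 → A, Y = fun i j k =>
      ![Complex.I • (q i * q j - q j * q i), Complex.I • (q i * q k - q k * q i),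
        Complex.I • (q j * q k - q k * q j), q i * (p - q j) * q i,
        q i * q j * q k * q j * q i,
        (p - q i) * (p - q j) * (p - q k) * (p - q j) * (p - q i)] := ⟨_, rfl⟩
  obtain ⟨w0, w1, w2, w3, f0, f1, f1', f2, f2', f3, f3'⟩ := free4
    (fun i j => C (q i) (q i * q j * q i) ∪ C (p - q i) ((p - q i) * q j * (p - q i)) ∪
      (J0 : Set II))
    (fun i j k => (⋃ m, C p (Y i j k m)) ∪ (J0 : Set II))
    (fun i j => ((hCc _ _).union (hCc _ _)).union J0.countable_toSet)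
    (fun i j k => (Set.countable_iUnion fun m => hCc _ _).union J0.countable_toSet)
  obtain ⟨i0, hi0⟩ : ∃ i, i = ix 0 w0 := ⟨_, rfl⟩
  obtain ⟨i1, hi1⟩ : ∃ i, i = ix 1 w1 := ⟨_, rfl⟩
  obtain ⟨i2, hi2⟩ : ∃ i, i = ix 2 w2 := ⟨_, rfl⟩
  obtain ⟨i3, hi3⟩ : ∃ i, i = ix 3 w3 := ⟨_, rfl⟩
  have k0 : kap i0 = 0 := by rw [hi0, kap_ix]
  have k1 : kap i1 = 1 := by rw [hi1, kap_ix]
  have k2 : kap i2 = 2 := by rw [hi2, kap_ix]
  have k3 : kap i3 = 3 := by rw [hi3, kap_ix]
  rw [← hi0, ← hi1, ← hi2, ← hi3] at f0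
  rw [← hi0, ← hi1, ← hi2] at f1
  rw [← hi0, ← hi1, ← hi3] at f1'
  rw [← hi0, ← hi1, ← hi2] at f2
  rw [← hi0, ← hi2, ← hi3] at f2'
  rw [← hi0, ← hi1, ← hi3] at f3
  rw [← hi0, ← hi2, ← hi3] at f3'
  simp only [Set.mem_union, Set.mem_iUnion, not_or, not_exists] at f0 f1 f1' f2 f2' f3 f3'
  have j0 : i0 ∉ J0 := f0.2
  have j1 : i1 ∉ J0 := f1.2
  have j2 : i2 ∉ J0 := f2.2
  have j3 : i3 ∉ J0 := f3.2
  -- the points
  obtain ⟨t, ht⟩ : ∃ t : II → Bool, ∀ i, t i = decide (i = i0 ∨ i = i1 ∨ i = i2 ∨ i = i3) :=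
    ⟨fun i => decide (i = i0 ∨ i = i1 ∨ i = i2 ∨ i = i3), fun _ => rfl⟩
  obtain ⟨r, hr⟩ : ∃ r : II → Bool, ∀ i, r i = decide (i = i1 ∨ i = i2 ∨ i = i3) :=
    ⟨fun i => decide (i = i1 ∨ i = i2 ∨ i = i3), fun _ => rfl⟩
  have htJ : ∀ i ∈ J0, t i = false := by
    intro i hi
    rw [ht, decide_eq_false_iff_not]
    rintro (h | h | h | h)
    · exact j0 (h ▸ hi)
    · exact j1 (h ▸ hi)
    · exact j2 (h ▸ hi)
    · exact j3 (h ▸ hi)
  have hrJ : ∀ i ∈ J0, r i = false := by
    intro i hi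
    rw [hr, decide_eq_false_iff_not]
    rintro (h | h | h)
    · exact j1 (h ▸ hi)
    · exact j2 (h ▸ hi)
    · exact j3 (h ▸ hi)
  have hrk : ∀ i, r i = true → kap i ≠ 0 := by
    intro i hi
    rw [hr, decide_eq_true_iff] at hi
    rcases hi with h | h | h
    · rw [h, k1]; decide
    · rw [h, k2]; decide
    · rw [h, k3]; decide
  have t0 : t i0 = true := by rw [ht, decide_eq_true_iff]; exact Or.inl rfl
  have t1 : t i1 = true := by rw [ht, decide_eq_true_iff]; exact Or.inr (Or.inl rfl)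
  have t2 : t i2 = true := by rw [ht, decide_eq_true_iff]; exact Or.inr (Or.inr (Or.inl rfl))
  have t3 : t i3 = true := by rw [ht, decide_eq_true_iff]; exact Or.inr (Or.inr (Or.inr rfl))
  have r1 : r i1 = true := by rw [hr, decide_eq_true_iff]; exact Or.inl rfl
  have r2 : r i2 = true := by rw [hr, decide_eq_true_iff]; exact Or.inr (Or.inl rfl)
  have r3 : r i3 = true := by rw [hr, decide_eq_true_iff]; exact Or.inr (Or.inr rfl)
  -- the states
  obtain ⟨s, hs⟩ : ∃ s : VV A →+ ℕ, ∀ c, s c = sr kap t (θ c) :=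
    ⟨(sr kap t).comp θ.toAddMonoidHom, fun _ => rfl⟩
  obtain ⟨sX, hsX⟩ : ∃ sX : Fin 4 → (VV A →+ ℕ), ∀ x c, sX x c = sx kap hrk x (θ c) :=
    ⟨fun x => (sx kap hrk x).comp θ.toAddMonoidHom, fun _ _ => rfl⟩
  have sp : s (cl hp) = 4 := by rw [hs, hpθ, sr_oneN kap htJ]
  have sq : ∀ i, t i = true → s (cl (hq i)) = 2 := fun i hi => by
    rw [hs, hqθ, sr_eN kap htJ hi]
  have sq' : ∀ i, t i = true → s (cl (hsub i)) = 2 := fun i hi => by
    have h1 := hcls s i
    rw [sp, sq i hi] at h1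
    omega
  have sXp : ∀ x, sX x (cl hp) = 1 := fun x => by rw [hsX, hpθ, sx_oneN kap hrk hrJ]
  have sXq : ∀ i, r i = true → ∀ x, sX x (cl (hq i)) = if PP (kap i) x x = 0 then 0 else 1 :=
    fun i hi x => by rw [hsX, hqθ, sx_eN kap hrk hrJ hi]
  -- scalar compressions
  have key : ∀ (b x : A) (hb : b * b = b) (tk : II → Bool) (z : M4), z ∈ CC kap tk → z * z = 2 →
      (∀ i ∈ C b x, t i = tk i) → s (cl hb) = 2 → star b = b → star x = x → b * x = x →
      x * b = x → ∃ c : ℂ, x - c • b ∈ Js s := by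
    intro b x hb tk z hz hz2 hC' hs2 hbs hxs hbx hxb
    apply scalar_mod s b x (2 * (‖x‖ + 1)) (by positivity)
    intro ε hε
    obtain ⟨a, ha⟩ := hCa b x hb hbs hxs hbx hxb ε hε
    refine ⟨a, fun μ hμ ν hν hne => ?_⟩
    have hev : ∀ μ ∈ a.S, Even (s (cl (a.idem μ))) := by
      intro μ hμ
      have h1 : s (cl (a.idem μ)) = sr kap tk (θ (cl (a.idem μ))) := by
        rw [hs]
        exact hJf _ _ _ fun i hi => hC' i (ha μ hμ hi)
      rw [h1]
      exact sr_even kap tk z hz hz2 _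
    by_contra hcon
    push Not at hcon
    obtain ⟨x1, hx1⟩ := hev μ hμ
    obtain ⟨x2, hx2⟩ := hev ν hν
    have h2 : ∑ μ ∈ a.S, s (cl (a.idem μ)) = 2 := by
      rw [← map_sum, ← a.cls hb, hs2]
    have h3 : ∑ κ ∈ {μ, ν}, s (cl (a.idem κ)) ≤ ∑ μ ∈ a.S, s (cl (a.idem μ)) := by
      apply Finset.sum_le_sum_of_subset
      intro κ hκ
      rcases Finset.mem_insert.1 hκ with h | h
      · rw [h]; exact hμ
      · rw [Finset.mem_singleton.1 h]; exact hν
    rw [Finset.sum_pair hne, h2] at h3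
    have h4 := hcon.1
    have h5 := hcon.2
    omega
  have keyE : ∀ (k : Fin 4) (hk : k ≠ 0) (w : Om k) (ik : II), ik = ix k w →
      (∀ i ∈ C (q i0) (q i0 * q ik * q i0), t i = decide (i = i0 ∨ i = ik)) →
      (∀ i ∈ C (p - q i0) ((p - q i0) * q ik * (p - q i0)), t i = decide (i = i0 ∨ i = ik)) →
      ∃ l m : ℂ, q i0 * q ik * q i0 - l • q i0 ∈ Js s ∧
        (p - q i0) * q ik * (p - q i0) - m • (p - q i0) ∈ Js s := by
    intro k hk w ik hik h1 h2
    have hz : ZZ k ∈ CC kap (fun i => decide (i = i0 ∨ i = ik)) := by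
      apply ZZ_mem k hk w0 w
      intro i hi
      rw [decide_eq_true_iff, hi0, hik] at hi
      exact hi
    obtain ⟨l, hl⟩ := key (q i0) (q i0 * q ik * q i0) (hq i0) _ (ZZ k) hz (ZZ_sq k hk) h1
      (sq i0 t0) (hqs i0) (by rw [star_mul, star_mul, hqs, hqs, mul_assoc])
      (by rw [← mul_assoc, ← mul_assoc, hq]) (by rw [mul_assoc, hq])
    obtain ⟨m, hm⟩ := key (p - q i0) ((p - q i0) * q ik * (p - q i0)) (hsub i0) _ (ZZ k) hz
      (ZZ_sq k hk) h2 (sq' i0 t0) (hsubs i0) (by rw [star_mul, star_mul, hqs, hsubs, mul_assoc])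
      (by rw [← mul_assoc, ← mul_assoc, hsub]) (by rw [mul_assoc, hsub])
    exact ⟨l, m, hl, hm⟩
  have E1 := keyE 1 (by decide) w1 i1 hi1
    (by
      intro i hi
      have h2 : i ≠ i2 := fun h => f2.1.1 (h ▸ hi)
      have h3 : i ≠ i3 := fun h => f3.1.1 (h ▸ hi)
      rw [ht]
      simp [h2, h3])
    (by
      intro i hi
      have h2 : i ≠ i2 := fun h => f2.1.2 (h ▸ hi)
      have h3 : i ≠ i3 := fun h => f3.1.2 (h ▸ hi)
      rw [ht]
      simp [h2, h3])
  have E2 := keyE 2 (by decide) w2 i2 hi2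
    (by
      intro i hi
      have h2 : i ≠ i1 := fun h => f1.1.1 (h ▸ hi)
      have h3 : i ≠ i3 := fun h => f3'.1.1 (h ▸ hi)
      rw [ht]
      simp [h2, h3])
    (by
      intro i hi
      have h2 : i ≠ i1 := fun h => f1.1.2 (h ▸ hi)
      have h3 : i ≠ i3 := fun h => f3'.1.2 (h ▸ hi)
      rw [ht]
      simp [h2, h3])
  have E3 := keyE 3 (by decide) w3 i3 hi3
    (by
      intro i hi
      have h2 : i ≠ i1 := fun h => f1'.1.1 (h ▸ hi)
      have h3 : i ≠ i2 := fun h => f2'.1.1 (h ▸ hi)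
      rw [ht]
      simp [h2, h3])
    (by
      intro i hi
      have h2 : i ≠ i1 := fun h => f1'.1.2 (h ▸ hi)
      have h3 : i ≠ i2 := fun h => f2'.1.2 (h ▸ hi)
      rw [ht]
      simp [h2, h3])
  -- the points without colour zero
  have nv : ∀ m : Fin 6, star (Y i1 i2 i3 m) = Y i1 i2 i3 m → p * Y i1 i2 i3 m = Y i1 i2 i3 m →
      Y i1 i2 i3 m * p = Y i1 i2 i3 m → (Y i1 i2 i3 m ∈ Js s ↔ ∀ x, Y i1 i2 i3 m ∈ Js (sX x)) := by
    intro m h1 h2 h3
    have hi : i0 ∉ C p (Y i1 i2 i3 m) := f0.1 m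
    obtain ⟨y, hy⟩ : ∃ y, y = Y i1 i2 i3 m := ⟨_, rfl⟩
    rw [← hy] at h1 h2 h3 hi ⊢
    have happ : ∀ ε : ℝ, 0 < ε → ∃ a : Appr p y ε (2 * (‖y‖ + 1)), ∀ μ ∈ a.S,
        s (cl (a.idem μ)) = ∑ x, sX x (cl (a.idem μ)) := by
      intro ε hε
      obtain ⟨a, ha⟩ := hCa p y hp hps h1 h2 h3 ε hε
      refine ⟨a, fun μ hμ => ?_⟩
      have h4 : s (cl (a.idem μ)) = sr kap r (θ (cl (a.idem μ))) := by
        rw [hs]
        refine hJf _ _ _ fun i hi' => ?_
        have h5 : i ≠ i0 := fun h => hi (h ▸ ha μ hμ hi')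
        rw [ht, hr]
        simp [h5]
      rw [h4, sr_eq_sum kap hrk]
      exact Finset.sum_congr rfl fun x _ => (hsX x _).symm
    exact ⟨fun h x => nv_mp s sX p y hp _ sXp happ h x,
      fun h => nv_mpr s sX p y hp hps _ (by positivity) sXp happ h⟩
  have inq : ∀ i, r i = true → ∀ x, PP (kap i) x x = 0 → q i ∈ Js (sX x) := by
    intro i hi x hx
    rw [mem_Js (hq i), sXq i hi, if_pos hx]
  have inq' : ∀ i, r i = true → ∀ x, PP (kap i) x x ≠ 0 → p - q i ∈ Js (sX x) := by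
    intro i hi x hx
    rw [mem_Js (hsub i)]
    have h1 := hcls (sX x) i
    rw [sXp, sXq i hi, if_neg hx] at h1
    omega
  have pnot : ∀ x, p ∉ Js (sX x) := fun x h => by
    rw [mem_Js hp, sXp] at h
    exact absurd h one_ne_zero
  -- commutators
  have comm : ∀ i j, r i = true → ∀ x, Complex.I • (q i * q j - q j * q i) ∈ Js (sX x) := by
    intro i j hi x
    apply Submodule.smul_mem
    by_cases h : PP (kap i) x x = 0
    · have h1 := inq i hi x h
      exact Submodule.sub_mem _ (Js_mul_right _ _ h1) (Js_mul_left _ _ h1)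
    · have h1 := inq' i hi x h
      have h2 : q i * q j - q j * q i = q j * (p - q i) - (p - q i) * q j := by
        rw [mul_sub, sub_mul, hqp, hpq]
        abel
      rw [h2]
      exact Submodule.sub_mem _ (Js_mul_left _ _ h1) (Js_mul_right _ _ h1)
  have commsa : ∀ i j, star (Complex.I • (q i * q j - q j * q i)) =
      Complex.I • (q i * q j - q j * q i) := by
    intro i j
    rw [star_smul, star_sub, star_mul, star_mul, hqs, hqs]
    have h1 : star Complex.I = -Complex.I := Complex.conj_I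
    rw [h1, neg_smul, ← smul_neg, neg_sub]
  have commp : ∀ i j, p * (Complex.I • (q i * q j - q j * q i)) =
      Complex.I • (q i * q j - q j * q i) := by
    intro i j
    rw [mul_smul_comm, mul_sub, ← mul_assoc, ← mul_assoc, hpq, hpq]
  have commp' : ∀ i j, (Complex.I • (q i * q j - q j * q i)) * p =
      Complex.I • (q i * q j - q j * q i) := by
    intro i j
    rw [smul_mul_assoc, sub_mul, mul_assoc, mul_assoc, hqp, hqp]
  have Y0 : Complex.I • (q i1 * q i2 - q i2 * q i1) ∈ Js s := by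
    have h1 := nv 0
    rw [hY] at h1
    exact (h1 (commsa _ _) (commp _ _) (commp' _ _)).2 fun x => comm i1 i2 r1 x
  have Y1 : Complex.I • (q i1 * q i3 - q i3 * q i1) ∈ Js s := by
    have h1 := nv 1
    rw [hY] at h1
    exact (h1 (commsa _ _) (commp _ _) (commp' _ _)).2 fun x => comm i1 i3 r1 x
  have Y2 : Complex.I • (q i2 * q i3 - q i3 * q i2) ∈ Js s := by
    have h1 := nv 2
    rw [hY] at h1
    exact (h1 (commsa _ _) (commp _ _) (commp' _ _)).2 fun x => comm i2 i3 r2 x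
  have Y3 : q i1 * (p - q i2) * q i1 ∉ Js s := by
    intro hcon
    have h1 := nv 3
    rw [hY] at h1
    have h2 := (h1
      (by
        show star (q i1 * (p - q i2) * q i1) = q i1 * (p - q i2) * q i1
        rw [star_mul, star_mul, hqs, hsubs, mul_assoc])
      (by
        show p * (q i1 * (p - q i2) * q i1) = q i1 * (p - q i2) * q i1
        rw [← mul_assoc, ← mul_assoc, hpq])
      (by
        show q i1 * (p - q i2) * q i1 * p = q i1 * (p - q i2) * q i1
        rw [mul_assoc, hqp])).1 hcon 1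
    have h2' : q i1 * (p - q i2) * q i1 ∈ Js (sX 1) := h2
    apply pnot 1
    have h3 : p - q i1 ∈ Js (sX 1) := inq' i1 r1 1 (by rw [k1]; decide)
    have h4 : q i2 ∈ Js (sX 1) := inq i2 r2 1 (by rw [k2]; decide)
    have h5 : p = q i1 * (p - q i2) * q i1 + (p - q i1) + q i1 * q i2 * q i1 := by
      rw [mul_sub, sub_mul, hqp, hq]
      abel
    rw [h5]
    exact Submodule.add_mem _ (Submodule.add_mem _ h2' h3)
      (Js_mul_right _ _ (Js_mul_left _ _ h4))
  have Y4 : q i1 * q i2 * q i3 * q i2 * q i1 ∉ Js s := by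
    intro hcon
    have h1 := nv 4
    rw [hY] at h1
    have h2 := (h1
      (by
        show star (q i1 * q i2 * q i3 * q i2 * q i1) = q i1 * q i2 * q i3 * q i2 * q i1
        rw [star_mul, star_mul, star_mul, star_mul, hqs, hqs, hqs]
        simp only [mul_assoc])
      (by
        show p * (q i1 * q i2 * q i3 * q i2 * q i1) = q i1 * q i2 * q i3 * q i2 * q i1
        simp only [← mul_assoc]
        rw [hpq])
      (by
        show q i1 * q i2 * q i3 * q i2 * q i1 * p = q i1 * q i2 * q i3 * q i2 * q i1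
        rw [mul_assoc, hqp])).1 hcon 0
    have h2' : q i1 * q i2 * q i3 * q i2 * q i1 ∈ Js (sX 0) := h2
    apply pnot 0
    have h3 : p - q i1 ∈ Js (sX 0) := inq' i1 r1 0 (by rw [k1]; decide)
    have h4 : p - q i2 ∈ Js (sX 0) := inq' i2 r2 0 (by rw [k2]; decide)
    have h5 : p - q i3 ∈ Js (sX 0) := inq' i3 r3 0 (by rw [k3]; decide)
    have h6 : p = q i1 * q i2 * q i3 * q i2 * q i1 + (p - q i1) +
        q i1 * ((p - q i2) + q i2 * (p - q i3) * q i2) * q i1 := by
      have e1 : q i2 * (p - q i3) * q i2 = q i2 - q i2 * q i3 * q i2 := by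
        rw [mul_sub, sub_mul, hqp, hq]
      have e2 : (p - q i2) + q i2 * (p - q i3) * q i2 = p - q i2 * q i3 * q i2 := by
        rw [e1]
        abel
      have e3 : q i1 * (p - q i2 * q i3 * q i2) * q i1 =
          q i1 - q i1 * q i2 * q i3 * q i2 * q i1 := by
        rw [mul_sub, sub_mul, hqp, hq]
        simp only [mul_assoc]
      rw [e2, e3]
      abel
    rw [h6]
    exact Submodule.add_mem _ (Submodule.add_mem _ h2' h3)
      (Js_mul_right _ _ (Js_mul_left _ _ (Submodule.add_mem _ h4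
        (Js_mul_right _ _ (Js_mul_left _ _ h5)))))
  have Y5 : (p - q i1) * (p - q i2) * (p - q i3) * (p - q i2) * (p - q i1) ∈ Js s := by
    have h1 := nv 5
    rw [hY] at h1
    refine (h1
      (by
        show star ((p - q i1) * (p - q i2) * (p - q i3) * (p - q i2) * (p - q i1)) =
          (p - q i1) * (p - q i2) * (p - q i3) * (p - q i2) * (p - q i1)
        rw [star_mul, star_mul, star_mul, star_mul, hsubs, hsubs, hsubs]
        simp only [mul_assoc])
      (by
        show p * ((p - q i1) * (p - q i2) * (p - q i3) * (p - q i2) * (p - q i1)) =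
          (p - q i1) * (p - q i2) * (p - q i3) * (p - q i2) * (p - q i1)
        simp only [← mul_assoc]
        rw [hpsub])
      (by
        show (p - q i1) * (p - q i2) * (p - q i3) * (p - q i2) * (p - q i1) * p =
          (p - q i1) * (p - q i2) * (p - q i3) * (p - q i2) * (p - q i1)
        rw [mul_assoc, hsubp])).2 fun x => ?_
    show (p - q i1) * (p - q i2) * (p - q i3) * (p - q i2) * (p - q i1) ∈ Js (sX x)
    have hx : PP 1 x x ≠ 0 ∨ PP 2 x x ≠ 0 ∨ PP 3 x x ≠ 0 := by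
      revert x; decide
    rcases hx with hx | hx | hx
    · have h2 : p - q i1 ∈ Js (sX x) := inq' i1 r1 x (by rw [k1]; exact hx)
      exact Js_mul_left _ _ h2
    · have h2 : p - q i2 ∈ Js (sX x) := inq' i2 r2 x (by rw [k2]; exact hx)
      exact Js_mul_right _ _ (Js_mul_left _ _ h2)
    · have h2 : p - q i3 ∈ Js (sX x) := inq' i3 r3 x (by rw [k3]; exact hx)
      exact Js_mul_right _ _ (Js_mul_right _ _ (Js_mul_left _ _ h2))
  -- the quotient
  obtain ⟨Q, _, _, π, hπ⟩ := exists_quot s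
  have comm' : ∀ i j, Complex.I • (q i * q j - q j * q i) ∈ Js s → π (q i) * π (q j) =
      π (q j) * π (q i) := by
    intro i j h
    have h1 := (hπ _).2 h
    rw [map_smul, map_sub, map_mul, map_mul] at h1
    exact sub_eq_zero.1 ((smul_eq_zero.1 h1).resolve_left Complex.I_ne_zero)
  have c12 := comm' _ _ Y0
  have c13 := comm' _ _ Y1
  have c23 := comm' _ _ Y2
  have hcomp : ∀ ik, (∃ l m : ℂ, q i0 * q ik * q i0 - l • q i0 ∈ Js s ∧
        (p - q i0) * q ik * (p - q i0) - m • (p - q i0) ∈ Js s) →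
      ∃ l m : ℂ, π (q i0) * π (q ik) * π (q i0) = l • π (q i0) ∧
        (π p - π (q i0)) * π (q ik) * (π p - π (q i0)) = m • (π p - π (q i0)) := by
    rintro ik ⟨l, m, hl, hm⟩
    refine ⟨l, m, ?_, ?_⟩
    · have h1 := (hπ _).2 hl
      rw [map_sub, map_mul, map_mul, map_smul] at h1
      exact sub_eq_zero.1 h1
    · have h1 := (hπ _).2 hm
      rw [map_sub, map_mul, map_mul, map_smul, map_sub] at h1
      exact sub_eq_zero.1 h1
  have mulp : ∀ a b c : A, a * b = c → π a * π b = π c := fun a b c h => by rw [← map_mul, h]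
  have nsub : ∀ i, t i = true → π p - π (q i) ≠ 0 := by
    intro i hi h
    rw [← map_sub, hπ, mem_Js (hsub i), sq' i hi] at h
    exact absurd h two_ne_zero
  refine endgame (p := π p) (q0 := π (q i0)) (q1 := π (q i1)) (q2 := π (q i2)) (q3 := π (q i3))
    (mulp _ _ _ hp) (mulp _ _ _ (hq _)) (mulp _ _ _ (hq _)) (mulp _ _ _ (hq _))
    (mulp _ _ _ (hq _)) (mulp _ _ _ (hpq _)) (mulp _ _ _ (hqp _)) (mulp _ _ _ (hpq _))
    (mulp _ _ _ (hqp _)) (mulp _ _ _ (hpq _)) (mulp _ _ _ (hqp _)) (mulp _ _ _ (hpq _))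
    (mulp _ _ _ (hqp _)) c12 c13 (hcomp i1 E1) (hcomp i2 E2) (hcomp i3 E3) ?_ (nsub i0 t0)
    (nsub i1 t1) (nsub i2 t2) (nsub i3 t3) ?_ ?_ ?_
  · intro h
    rw [hπ, mem_Js (hq i0), sq i0 t0] at h
    exact absurd h two_ne_zero
  · intro h
    apply Y3
    rw [← hπ, map_mul, map_mul, map_sub, h, zero_mul]
  · intro h
    apply Y4
    rw [← hπ, map_mul, map_mul, map_mul, map_mul, h, zero_mul, zero_mul]
  · have h1 := (hπ _).2 Y5
    rw [map_mul, map_mul, map_mul, map_mul, map_sub, map_sub, map_sub] at h1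
    obtain ⟨a, ha⟩ : ∃ a, a = π p - π (q i1) := ⟨_, rfl⟩
    obtain ⟨b, hb⟩ : ∃ b, b = π p - π (q i2) := ⟨_, rfl⟩
    obtain ⟨c, hc⟩ : ∃ c, c = π p - π (q i3) := ⟨_, rfl⟩
    have haa : a * a = a := by rw [ha, ← map_sub, ← map_mul, hsub]
    have hbb : b * b = b := by rw [hb, ← map_sub, ← map_mul, hsub]
    have hpi : ∀ i, π p * π (q i) = π (q i) := fun i => mulp _ _ _ (hpq i)
    have hip : ∀ i, π (q i) * π p = π (q i) := fun i => mulp _ _ _ (hqp i)
    have cc : ∀ i j, π (q i) * π (q j) = π (q j) * π (q i) →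
        (π p - π (q i)) * (π p - π (q j)) = (π p - π (q j)) * (π p - π (q i)) := by
      intro i j h
      simp only [mul_sub, sub_mul, hpi, hip, h]
      abel
    have hab : b * a = a * b := by rw [ha, hb]; exact (cc _ _ c12).symm
    have hac : c * a = a * c := by rw [ha, hc]; exact (cc _ _ c13).symm
    have hbc : c * b = b * c := by rw [hb, hc]; exact (cc _ _ c23).symm
    rw [← ha, ← hb, ← hc] at h1 ⊢
    have h2 : a * b * c * b * a = a * b * c := by
      calc a * b * c * b * a = a * b * (c * b) * a := by simp only [mul_assoc]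
        _ = a * (b * b) * (c * a) := by rw [hbc]; simp only [mul_assoc]
        _ = a * (b * a) * c := by rw [hbb, hac]; simp only [mul_assoc]
        _ = (a * a) * b * c := by rw [hab]; simp only [mul_assoc]
        _ = a * b * c := by rw [haa]
    rw [← h2, h1]

end Pool.Agent.V8H73.NK2
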