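import Pool.Agent.V8H73.NK2.AlgP
import Pool.Agent.Y78.NK.Main
import Pool.Agent.V8H73.NK2.MainR

set_option autoImplicit false

/-!
A C*-algebra of real rank zero whose monoid `V` is the positive cone of a dimension group and not
the monoid `V` of a regular ring.
-/

namespace Pool.Agent.V8H73.NK2

open Pool.Agent.H494R3.NK Pool.Agent.Y78.NK
open scoped Matrix.Norms.L2Operator

universe u

theorem mainA : ∃ (A : Type) (_ : CStarAlgebra A), RealRankZero A ∧ GoodMon (VV A) ∧
    ∀ (R : Type u) [NonUnitalRing R], (∀ x : R, ∃ y : R, x * y * x = x) →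
      ¬ Nonempty (VV A ≃+ VV R) := by
  obtain ⟨F, ⟨z, hz⟩, hrot⟩ := exists_fam
  refine ⟨Alg F Ind, inferInstance, alg_rr0 F Ind, Alg_good F Ind, ?_⟩
  rintro R _ hR ⟨e⟩
  obtain ⟨c, hc⟩ := urp hR (e (cl1 (1 : Alg F Ind) (one_mul 1))) (fun i => e (cA F Ind i))
    (fun i => e (cB F Ind i)) (by
      intro i
      rw [← map_add]
      congr 1
      exact cl1_add (pr F Ind i) (pr_idem F Ind i))
  refine main_false F z hz hrot (fun i j => e.symm (c i j)) ?_
  intro i j k
  obtain ⟨h1, h2, h3, h4⟩ := hc i j k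
  refine ⟨?_, ?_, ?_, ?_⟩
  · have := le_of_equiv e h1
    rwa [e.symm_apply_apply] at this
  · have := le_of_equiv e h2
    rwa [e.symm_apply_apply] at this
  · have := le_of_equiv e h3
    rwa [map_add, e.symm_apply_apply, e.symm_apply_apply] at this
  · have := le_of_equiv e h4
    rwa [map_add] at this

theorem mainR : ∃ (R : Type) (_ : Ring R), (∀ x : R, ∃ y : R, x * y * x = x) ∧ GoodMon (VV R) ∧
    ∀ (A : Type u) [NonUnitalCStarAlgebra A], RealRankZero A → ¬ Nonempty (VV A ≃+ VV R) :=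
  ⟨RR kap, inferInstance, RR_reg kap, RR_good kap, fun A _ hA => main2 A hA⟩

end Pool.Agent.V8H73.NK2
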