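import Pool.Agent.V8H73.NK2.RingR
import Pool.Agent.H719R4.NK.Sum

set_option autoImplicit false

/-!
Rank functions on the monoid `V` of the ring of locally constant functions.
-/

namespace Pool.Agent.V8H73.NK2

open Pool.Agent.H494R3.NK

/-! ### ranks over the field with five elements -/

/-- the rank -/
noncomputable def rkF : VV F5 →+ ℕ := (divEquiv F5).symm.toAddMonoidHom

theorem rkF_gcl {ι : Type} [Fintype ι] {G : Matrix ι ι F5} (h : G * G = G) {r : ℕ}
    (hG : Eqv G (1 : Matrix (Fin r) (Fin r) F5)) : rkF (gcl G h) = r := by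
  classical
  have h1 : gcl G h = gcl (1 : Matrix (Fin r) (Fin r) F5) one_idem := (gcl_eq _ _).2 hG
  have h2 : gcl G h = divEquiv F5 r := by rw [h1, gcl_one]; rfl
  rw [h2]
  exact (divEquiv F5).symm_apply_apply r

theorem rkF_eqv {ι : Type} [Fintype ι] {G : Matrix ι ι F5} (h : G * G = G) :
    Eqv G (1 : Matrix (Fin (rkF (gcl G h))) (Fin (rkF (gcl G h))) F5) := by
  classical
  obtain ⟨r, hr⟩ := div_eqv_one G h
  rw [rkF_gcl h hr]
  exact hr

theorem rkF_eq_zero {c : VV F5} : rkF c = 0 ↔ c = 0 := by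
  constructor
  · intro h
    have : (divEquiv F5).symm c = (divEquiv F5).symm 0 := by rw [map_zero]; exact h
    exact (divEquiv F5).symm.injective this
  · rintro rfl
    exact map_zero _

theorem rkF_even {ι : Type} [Fintype ι] [DecidableEq ι] {G : Matrix ι ι F5} (h : G * G = G)
    (Z : Matrix ι ι F5) (hZ : Z * Z = 2) (hc : Z * G = G * Z) : Even (rkF (gcl G h)) := by
  obtain ⟨x, y, hxy, hyx⟩ := rkF_eqv h
  generalize rkF (gcl G h) = r at x y hxy hyx
  have h1 : (y * Z * x) * (y * Z * x) = (2 : Matrix (Fin r) (Fin r) F5) := by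
    calc (y * Z * x) * (y * Z * x) = y * Z * (x * y) * Z * x := by
          simp only [Matrix.mul_assoc]
      _ = y * (Z * G) * Z * x := by rw [hxy]; simp only [Matrix.mul_assoc]
      _ = y * G * (Z * Z) * x := by rw [hc]; simp only [Matrix.mul_assoc]
      _ = y * G * x + y * G * x := by
        rw [hZ, ← one_add_one_eq_two, Matrix.mul_add, Matrix.mul_one, Matrix.add_mul]
      _ = 2 := by
        have : y * G * x = 1 := by
          calc y * G * x = (y * x) * (y * x) := by rw [← hxy]; simp only [Matrix.mul_assoc]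
            _ = 1 := by rw [hyx, Matrix.one_mul]
        rw [this, one_add_one_eq_two]
  have h2 := congrArg Matrix.det h1
  rw [Matrix.det_mul] at h2
  have h3 : (2 : Matrix (Fin r) (Fin r) F5).det = 2 ^ r := by
    have : (2 : Matrix (Fin r) (Fin r) F5) = (2 : F5) • 1 := by
      rw [two_smul, one_add_one_eq_two]
    rw [this, Matrix.det_smul, Matrix.det_one, mul_one, Fintype.card_fin]
  rw [h3] at h2
  by_contra hodd
  rw [Nat.not_even_iff_odd] at hodd
  obtain ⟨m, hm⟩ := hodd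
  have h4 : ∀ u : F5, u * u ≠ 2 := by decide
  have h5 : ((2 : F5) ^ m) ≠ 0 := pow_ne_zero _ (by decide)
  apply h4 ((y * Z * x).det * ((2 : F5) ^ m)⁻¹)
  calc (y * Z * x).det * ((2 : F5) ^ m)⁻¹ * ((y * Z * x).det * ((2 : F5) ^ m)⁻¹) =
      ((y * Z * x).det * (y * Z * x).det) * (((2 : F5) ^ m)⁻¹ * ((2 : F5) ^ m)⁻¹) := by ring
    _ = 2 * (((2 : F5) ^ m) * ((2 : F5) ^ m)⁻¹) * (((2 : F5) ^ m) * ((2 : F5) ^ m)⁻¹) := by
      rw [h2, hm, pow_add, pow_mul']
      ring
    _ = 2 := by rw [mul_inv_cancel₀ h5]; ring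

theorem rk_PP (k : Fin 4) : Eqv (PP k) (1 : Matrix (Fin 2) (Fin 2) F5) := by
  have h : ∀ k : Fin 4, (![!![0, 1; 1, 0; 2, 4; 2, 2], !![1, 0; 0, 1; 0, 0; 0, 0],
      !![1, 0; 0, 0; 0, 1; 0, 0], !![1, 0; 0, 0; 0, 0; 0, 1]] : Fin 4 →
      Matrix (Fin 4) (Fin 2) F5) k * (![!![2, 0, 1, 2; 0, 1, 1, 1], !![1, 0, 0, 0; 0, 1, 0, 0],
      !![1, 0, 0, 0; 0, 0, 1, 0], !![1, 0, 0, 0; 0, 0, 0, 1]] : Fin 4 →
      Matrix (Fin 2) (Fin 4) F5) k = PP k ∧ (![!![2, 0, 1, 2; 0, 1, 1, 1],
      !![1, 0, 0, 0; 0, 1, 0, 0], !![1, 0, 0, 0; 0, 0, 1, 0], !![1, 0, 0, 0; 0, 0, 0, 1]] : Fin 4 →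
      Matrix (Fin 2) (Fin 4) F5) k * (![!![0, 1; 1, 0; 2, 4; 2, 2], !![1, 0; 0, 1; 0, 0; 0, 0],
      !![1, 0; 0, 0; 0, 1; 0, 0], !![1, 0; 0, 0; 0, 0; 0, 1]] : Fin 4 →
      Matrix (Fin 4) (Fin 2) F5) k = 1 := by decide
  exact ⟨_, _, (h k).1, (h k).2⟩

/-! ### the rank functions -/

variable {I : Type} (κ : I → Fin 4)

/-- evaluation at `t` -/
def ev (t : I → Bool) : RR κ →+* M4 := (Pi.evalRingHom (fun _ => M4) t).comp (RR κ).subtype

theorem ev_apply (t : I → Bool) (f : RR κ) : ev κ t f = f.1 t := rfl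

/-- the rank at `t` -/
noncomputable def sr (t : I → Bool) : VV (RR κ) →+ ℕ := rkF.comp (vflat.comp (vr (ev κ t)))

theorem map_idem' {R S : Type} [Ring R] [Ring S] {ι : Type} [Fintype ι] (φ : R →+* S)
    {E : Matrix ι ι R} (h : E * E = E) : E.map φ * E.map φ = E.map φ :=
  map_idem φ.toNonUnitalRingHom h

theorem sr_gcl (t : I → Bool) {ι : Type} [Fintype ι] {E : Matrix ι ι (RR κ)} (h : E * E = E) :
    sr κ t (gcl E h) = rkF (gcl (flat (E.map (ev κ t))) (flat_idem (map_idem' _ h))) := by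
  show rkF (vflat (vr (ev κ t) (gcl E h))) = _
  rw [vr_gcl, vflat_gcl]

theorem sr_dep (c : VV (RR κ)) : ∃ J : Finset I, ∀ t t' : I → Bool, (∀ i ∈ J, t i = t' i) →
    sr κ t c = sr κ t' c := by
  classical
  obtain ⟨n, E, hE, rfl⟩ := exists_gcl c
  choose J hJ using fun (i : Fin n) (j : Fin n) => (E i j).2.1
  refine ⟨Finset.univ.biUnion fun i => Finset.univ.biUnion fun j => J i j, fun t t' h => ?_⟩
  have h1 : E.map (ev κ t) = E.map (ev κ t') := by
    ext1 i j
    show (E i j).1 t = (E i j).1 t'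
    apply hJ i j
    intro l hl
    exact h l (Finset.mem_biUnion.2 ⟨i, Finset.mem_univ _, Finset.mem_biUnion.2
      ⟨j, Finset.mem_univ _, hl⟩⟩)
  rw [sr_gcl, sr_gcl]
  congr 1
  rw [gcl_eq, h1]
  exact Eqv.refl (flat_idem (map_idem' _ hE))

theorem sr_even (t : I → Bool) (z : M4) (hz : z ∈ CC κ t) (hz2 : z * z = 2) (c : VV (RR κ)) :
    Even (sr κ t c) := by
  classical
  obtain ⟨n, E, hE, rfl⟩ := exists_gcl c
  rw [sr_gcl]
  have h2 : flat (Matrix.diagonal (fun _ : Fin n => (2 : M4))) = 2 := by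
    ext ⟨i, a⟩ ⟨j, b⟩
    rw [flat_apply]
    by_cases hij : i = j
    · subst hij
      rw [Matrix.diagonal_apply_eq]
      by_cases hab : a = b
      · subst hab
        rw [← one_add_one_eq_two, ← one_add_one_eq_two, Matrix.add_apply, Matrix.add_apply,
          Matrix.one_apply_eq, Matrix.one_apply_eq]
      · rw [← one_add_one_eq_two, ← one_add_one_eq_two, Matrix.add_apply, Matrix.add_apply,
          Matrix.one_apply_ne hab, Matrix.one_apply_ne (fun h => hab (congrArg Prod.snd h))]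
    · rw [Matrix.diagonal_apply_ne _ hij, ← one_add_one_eq_two, Matrix.add_apply,
        Matrix.one_apply_ne (fun h => hij (congrArg Prod.fst h))]
      rfl
  apply rkF_even _ (flat (Matrix.diagonal fun _ : Fin n => z))
  · rw [← flat_mul, Matrix.diagonal_mul_diagonal, hz2, h2]
  · rw [← flat_mul, ← flat_mul]
    congr 1
    ext1 i j
    rw [Matrix.diagonal_mul, Matrix.mul_diagonal]
    exact (E i j).2.2 t z hz

/-! ### points without coordinates of colour zero -/

theorem diag_at {t : I → Bool} (h : ∀ i, t i = true → κ i ≠ 0) (f : RR κ) :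
    f.1 t = Matrix.diagonal fun x => f.1 t x x := by
  apply diag_of_comm
  intro d
  apply f.2.2 t
  refine ⟨fun j hj => ?_, fun a b ha _ ha0 => absurd ha0 (h a ha)⟩
  rw [PP_diag (κ j) (h j hj), Matrix.diagonal_mul_diagonal, Matrix.diagonal_mul_diagonal]
  congr 1
  funext i
  exact mul_comm _ _

/-- a diagonal entry at `t` -/
def evx {t : I → Bool} (h : ∀ i, t i = true → κ i ≠ 0) (x : Fin 4) : RR κ →+* F5 where
  toFun f := f.1 t x x
  map_one' := by
    show (1 : M4) x x = 1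
    exact Matrix.one_apply_eq x
  map_mul' f g := by
    show (f.1 t * g.1 t) x x = _
    conv_lhs => rw [diag_at κ h f]
    rw [Matrix.diagonal_mul]
  map_zero' := rfl
  map_add' f g := rfl

/-- the rank of a diagonal entry -/
noncomputable def sx {t : I → Bool} (h : ∀ i, t i = true → κ i ≠ 0) (x : Fin 4) :
    VV (RR κ) →+ ℕ := rkF.comp (vr (evx κ h x))

theorem sr_eq_sum {t : I → Bool} (h : ∀ i, t i = true → κ i ≠ 0) (c : VV (RR κ)) :
    sr κ t c = ∑ x, sx κ h x c := by
  classical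
  obtain ⟨n, E, hE, rfl⟩ := exists_gcl c
  rw [sr_gcl]
  let G : Fin 4 → Matrix (Fin n × Fin 4) (Fin n × Fin 4) F5 := fun x => Matrix.of fun p q =>
    if p.2 = x ∧ q.2 = x then (E p.1 q.1).1 t x x else 0
  have hsx : ∀ x, sx κ h x (gcl E hE) = rkF (gcl (E.map (evx κ h x)) (map_idem' _ hE)) := by
    intro x
    show rkF (vr (evx κ h x) (gcl E hE)) = _
    rw [vr_gcl]
  have hEx : ∀ x, E.map (evx κ h x) * E.map (evx κ h x) = E.map (evx κ h x) := fun x =>
    map_idem' _ hE
  have hent : ∀ x i j, ∑ k, (E i k).1 t x x * (E k j).1 t x x = (E i j).1 t x x := by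
    intro x i j
    have := congrFun (congrFun (hEx x) i) j
    rw [Matrix.mul_apply] at this
    exact this
  have hG : ∀ x, G x * G x = G x := by
    intro x
    ext ⟨i, a⟩ ⟨j, b⟩
    rw [Matrix.mul_apply, Fintype.sum_prod_type]
    simp only [G, Matrix.of_apply]
    by_cases ha : a = x
    · by_cases hb : b = x
      · simp [ha, hb, hent]
      · simp [hb]
    · simp [ha]
  have ho : ∀ x y, x ≠ y → G x * G y = 0 := by
    intro x y hxy
    ext ⟨i, a⟩ ⟨j, b⟩
    rw [Matrix.mul_apply, Fintype.sum_prod_type]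
    simp only [G, Matrix.of_apply, Matrix.zero_apply]
    apply Finset.sum_eq_zero
    intro k _
    apply Finset.sum_eq_zero
    intro l _
    by_cases hl : l = x
    · have : l ≠ y := fun h => hxy (hl.symm.trans h)
      simp [this]
    · simp [hl]
  have hflat : flat (E.map (ev κ t)) = ∑ x, G x := by
    ext ⟨i, a⟩ ⟨j, b⟩
    rw [flat_apply, Matrix.sum_apply]
    show (E i j).1 t a b = _
    rw [diag_at κ h (E i j)]
    by_cases hab : a = b
    · subst hab
      rw [Matrix.diagonal_apply_eq, Finset.sum_eq_single a]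
      · simp [G]
      · intro x _ hx
        simp [G, Ne.symm hx]
      · intro h; exact absurd (Finset.mem_univ _) h
    · rw [Matrix.diagonal_apply_ne _ hab]
      symm
      apply Finset.sum_eq_zero
      intro x _
      simp only [G, Matrix.of_apply]
      rw [if_neg]
      rintro ⟨h1, h2⟩
      exact hab (h1.trans h2.symm)
  obtain ⟨h1, h2⟩ := gcl_sum Finset.univ G hG ho
  have h3 : gcl (flat (E.map (ev κ t))) (flat_idem (map_idem' _ hE)) =
      gcl (∑ x, G x) h1 := by
    rw [gcl_eq, hflat]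
    exact Eqv.refl h1
  rw [h3, h2, map_sum]
  refine Finset.sum_congr rfl fun x _ => ?_
  rw [hsx]
  congr 1
  rw [gcl_eq]
  refine ⟨Matrix.of fun p j => if p.2 = x then (E p.1 j).1 t x x else 0,
    Matrix.of fun i q => if q.2 = x then (E i q.1).1 t x x else 0, ?_, ?_⟩
  · ext ⟨i, a⟩ ⟨j, b⟩
    rw [Matrix.mul_apply]
    simp only [G, Matrix.of_apply]
    by_cases ha : a = x
    · by_cases hb : b = x
      · simp [ha, hb, hent]
      · simp [hb]
    · simp [ha]
  · ext i j
    rw [Matrix.mul_apply, Fintype.sum_prod_type]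
    simp only [Matrix.of_apply]
    show _ = (E i j).1 t x x
    simp [hent]

end Pool.Agent.V8H73.NK2
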