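import Pool.Agent.V8H73.NK2.RingF

set_option autoImplicit false

/-!
Elements of the ring of locally constant functions and their ranks.
-/

namespace Pool.Agent.V8H73.NK2

open Pool.Agent.H494R3.NK

variable {I : Type} (κ : I → Fin 4)

/-- the indicator of the set of points that vanish on `J` -/
def oneN (J : Finset I) : RR κ :=
  ⟨fun t => if ∀ i ∈ J, t i = false then 1 else 0, ⟨J, fun t t' h => by
    have : (∀ i ∈ J, t i = false) ↔ ∀ i ∈ J, t' i = false :=
      ⟨fun h1 i hi => (h i hi).symm.trans (h1 i hi), fun h1 i hi => (h i hi).trans (h1 i hi)⟩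
    show (if ∀ i ∈ J, t i = false then (1 : M4) else 0) = if ∀ i ∈ J, t' i = false then 1 else 0
    by_cases h1 : ∀ i ∈ J, t i = false
    · rw [if_pos h1, if_pos (this.1 h1)]
    · rw [if_neg h1, if_neg fun h2 => h1 (this.2 h2)]⟩, fun t y _ => by
    show y * (if ∀ i ∈ J, t i = false then (1 : M4) else 0) =
      (if ∀ i ∈ J, t i = false then (1 : M4) else 0) * y
    split_ifs <;> simp⟩

open Classical in
/-- the restriction of the idempotent `PP (κ i)` to the set of points `t` that vanish on `J` with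
`t i = true` -/
noncomputable def eN (J : Finset I) (i : I) : RR κ :=
  ⟨fun t => if (∀ j ∈ J, t j = false) ∧ t i = true then PP (κ i) else 0,
    ⟨insert i J, fun t t' h => by
    have h0 : t i = t' i := h i (Finset.mem_insert_self _ _)
    have : (∀ j ∈ J, t j = false) ↔ ∀ j ∈ J, t' j = false :=
      ⟨fun h1 j hj => (h j (Finset.mem_insert_of_mem hj)).symm.trans (h1 j hj),
        fun h1 j hj => (h j (Finset.mem_insert_of_mem hj)).trans (h1 j hj)⟩
    show (if (∀ j ∈ J, t j = false) ∧ t i = true then PP (κ i) else 0) =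
      if (∀ j ∈ J, t' j = false) ∧ t' i = true then PP (κ i) else 0
    exact if_congr (and_congr this (by rw [h0])) rfl rfl⟩, fun t y hy => by
    show y * (if (∀ j ∈ J, t j = false) ∧ t i = true then PP (κ i) else 0) =
      (if (∀ j ∈ J, t j = false) ∧ t i = true then PP (κ i) else 0) * y
    split_ifs with h1
    · exact hy.1 i h1.2
    · simp⟩

theorem oneN_of {J : Finset I} {t : I → Bool} (h : ∀ i ∈ J, t i = false) :
    (oneN κ J).1 t = 1 := if_pos h

theorem eN_of {J : Finset I} {i : I} {t : I → Bool} (h : ∀ j ∈ J, t j = false)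
    (hi : t i = true) : (eN κ J i).1 t = PP (κ i) := if_pos ⟨h, hi⟩

theorem oneN_idem (J : Finset I) : oneN κ J * oneN κ J = oneN κ J := by
  apply Subtype.ext
  funext t
  show (if ∀ i ∈ J, t i = false then (1 : M4) else 0) *
    (if ∀ i ∈ J, t i = false then (1 : M4) else 0) = if ∀ i ∈ J, t i = false then (1 : M4) else 0
  split_ifs <;> simp

theorem eN_idem (J : Finset I) (i : I) : eN κ J i * eN κ J i = eN κ J i := by
  apply Subtype.ext
  funext t
  show (if (∀ j ∈ J, t j = false) ∧ t i = true then PP (κ i) else 0) *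
    (if (∀ j ∈ J, t j = false) ∧ t i = true then PP (κ i) else 0) =
      if (∀ j ∈ J, t j = false) ∧ t i = true then PP (κ i) else 0
  split_ifs
  · exact PP_idem _
  · simp

theorem oneN_eN (J : Finset I) (i : I) : oneN κ J * eN κ J i = eN κ J i := by
  apply Subtype.ext
  funext t
  show (if ∀ i ∈ J, t i = false then (1 : M4) else 0) *
    (if (∀ j ∈ J, t j = false) ∧ t i = true then PP (κ i) else 0) =
      if (∀ j ∈ J, t j = false) ∧ t i = true then PP (κ i) else 0
  by_cases h : ∀ i ∈ J, t i = false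
  · rw [if_pos h, one_mul]
  · rw [if_neg h, zero_mul, if_neg fun h1 => h h1.1]

theorem eN_oneN (J : Finset I) (i : I) : eN κ J i * oneN κ J = eN κ J i := by
  apply Subtype.ext
  funext t
  show (if (∀ j ∈ J, t j = false) ∧ t i = true then PP (κ i) else 0) *
    (if ∀ i ∈ J, t i = false then (1 : M4) else 0) =
      if (∀ j ∈ J, t j = false) ∧ t i = true then PP (κ i) else 0
  by_cases h : ∀ i ∈ J, t i = false
  · rw [if_pos h, mul_one]
  · rw [if_neg h, mul_zero, if_neg fun h1 => h h1.1]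

theorem fN_idem (J : Finset I) (i : I) :
    (oneN κ J - eN κ J i) * (oneN κ J - eN κ J i) = oneN κ J - eN κ J i := by
  rw [mul_sub, sub_mul, sub_mul, oneN_idem, oneN_eN, eN_oneN, eN_idem]
  simp

theorem cl_one_split (J : Finset I) (i : I) :
    cl (oneN_idem κ J) = cl (eN_idem κ J i) + cl (fN_idem κ J i) := by
  have h1 : eN κ J i + (oneN κ J - eN κ J i) = oneN κ J := by abel
  have h2 : (eN κ J i + (oneN κ J - eN κ J i)) * (eN κ J i + (oneN κ J - eN κ J i)) =
      eN κ J i + (oneN κ J - eN κ J i) := by rw [h1, oneN_idem]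
  rw [← Pool.Agent.H719R4.NK.taskSum (RR κ) _ _ (eN_idem κ J i) (fN_idem κ J i) h2
    (by rw [mul_sub, eN_oneN, eN_idem, sub_self]) (by rw [sub_mul, oneN_eN, eN_idem, sub_self])]
  exact cl_congr h1.symm _ _

/-! ### ranks -/

theorem val_idem {e : RR κ} (he : e * e = e) (t : I → Bool) : e.1 t * e.1 t = e.1 t :=
  congrFun (congrArg Subtype.val he) t

theorem sr_cl (t : I → Bool) {e : RR κ} (he : e * e = e) :
    sr κ t (cl he) = rkF (gcl (e.1 t) (val_idem κ he t)) := by
  rw [cl_eq_gcl, sr_gcl]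
  congr 1
  rw [gcl_eq]
  have hent : ∀ a b, ∑ c, e.1 t a c * e.1 t c b = e.1 t a b := by
    intro a b
    have := congrFun (congrFun (val_idem κ he t) a) b
    rwa [Matrix.mul_apply] at this
  refine ⟨Matrix.of fun p a => e.1 t p.2 a, Matrix.of fun a p => e.1 t a p.2, ?_, ?_⟩
  · ext ⟨i, a⟩ ⟨j, b⟩
    rw [Matrix.mul_apply]
    exact hent a b
  · ext a b
    rw [Matrix.mul_apply, Fintype.sum_prod_type]
    simp only [Matrix.of_apply, Finset.univ_unique, Finset.sum_singleton]
    exact hent a b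

theorem sr_oneN {J : Finset I} {t : I → Bool} (h : ∀ i ∈ J, t i = false) :
    sr κ t (cl (oneN_idem κ J)) = 4 := by
  rw [sr_cl]
  apply rkF_gcl
  rw [oneN_of κ h]
  exact ⟨1, 1, by simp, by simp⟩

theorem sr_eN {J : Finset I} {i : I} {t : I → Bool} (h : ∀ j ∈ J, t j = false)
    (hi : t i = true) : sr κ t (cl (eN_idem κ J i)) = 2 := by
  rw [sr_cl]
  apply rkF_gcl
  rw [eN_of κ h hi]
  exact rk_PP _

theorem sr_fN {J : Finset I} {i : I} {t : I → Bool} (h : ∀ j ∈ J, t j = false)
    (hi : t i = true) : sr κ t (cl (fN_idem κ J i)) = 2 := by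
  have h1 := congrArg (sr κ t) (cl_one_split κ J i)
  rw [map_add, sr_oneN κ h, sr_eN κ h hi] at h1
  omega

theorem sx_cl {t : I → Bool} (ht : ∀ i, t i = true → κ i ≠ 0) (x : Fin 4) {e : RR κ}
    (he : e * e = e) : sx κ ht x (cl he) = if e.1 t x x = 0 then 0 else 1 := by
  show rkF (vr (evx κ ht x) (cl he)) = _
  rw [cl_eq_gcl, vr_gcl]
  have h1 : e.1 t x x * e.1 t x x = e.1 t x x := by
    have := congrArg (evx κ ht x) he
    rwa [map_mul] at this
  by_cases h : e.1 t x x = 0
  · rw [if_pos h]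
    apply rkF_gcl
    refine ⟨0, 0, ?_, by ext i; exact i.elim0⟩
    ext i j
    show 0 = e.1 t x x
    exact h.symm
  · rw [if_neg h]
    apply rkF_gcl
    have h2 : e.1 t x x = 1 := by
      have : e.1 t x x * (e.1 t x x - 1) = 0 := by rw [mul_sub, h1, mul_one, sub_self]
      exact sub_eq_zero.1 ((mul_eq_zero.1 this).resolve_left h)
    refine ⟨1, 1, ?_, by simp⟩
    ext i j
    rw [Matrix.one_mul, Subsingleton.elim i j, Matrix.one_apply_eq]
    exact h2.symm

theorem sx_oneN {J : Finset I} {t : I → Bool} (ht : ∀ i, t i = true → κ i ≠ 0)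
    (h : ∀ i ∈ J, t i = false) (x : Fin 4) : sx κ ht x (cl (oneN_idem κ J)) = 1 := by
  rw [sx_cl, oneN_of κ h, Matrix.one_apply_eq]
  rfl

theorem sx_eN {J : Finset I} {i : I} {t : I → Bool} (ht : ∀ i, t i = true → κ i ≠ 0)
    (h : ∀ j ∈ J, t j = false) (hi : t i = true) (x : Fin 4) :
    sx κ ht x (cl (eN_idem κ J i)) = if PP (κ i) x x = 0 then 0 else 1 := by
  rw [sx_cl, eN_of κ h hi]

/-- A class that does not vanish at the origin dominates the class of the indicator of a
neighbourhood of the origin. -/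
theorem exists_oneN (c : VV (RR κ)) (hc : sr κ (fun _ => false) c ≠ 0) :
    ∃ (J : Finset I) (z : VV (RR κ)), cl (oneN_idem κ J) + z = c := by
  classical
  obtain ⟨n, E, hE, rfl⟩ := exists_gcl c
  have h1 : ∃ i j, (E i j).1 (fun _ => false) ≠ 0 := by
    by_contra hcon
    push Not at hcon
    apply hc
    rw [sr_gcl]
    have h2 : flat (E.map (ev κ fun _ => false)) = 0 := by
      ext ⟨i, a⟩ ⟨j, b⟩
      show (E i j).1 (fun _ => false) a b = 0
      rw [hcon i j]
      rfl
    rw [(gcl_eq_zero _).2 h2, map_zero]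
  obtain ⟨i, j, hij⟩ := h1
  have h2 := scalar_of_comm ((E i j).1 fun _ => false) fun y => (E i j).2.2 _ y
    ⟨fun i hi => absurd hi (by simp), fun i j hi => absurd hi (by simp)⟩
  set a : F5 := (E i j).1 (fun _ => false) 0 0 with ha
  have ha0 : a ≠ 0 := by
    intro h0
    apply hij
    rw [h2, h0, map_zero]
  obtain ⟨J, hJ⟩ := (E i j).2.1
  -- the scalar `a⁻¹`
  let s : RR κ := ⟨fun _ => Matrix.scalar (Fin 4) a⁻¹, ⟨∅, fun _ _ _ => rfl⟩, fun t y _ =>
    ((Matrix.scalar_commute a⁻¹ (fun r' => mul_comm _ _) y).eq).symm⟩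
  have hs : oneN κ J * E i j * (s * oneN κ J) = oneN κ J := by
    apply Subtype.ext
    funext t
    show (oneN κ J).1 t * (E i j).1 t * (Matrix.scalar (Fin 4) a⁻¹ * (oneN κ J).1 t) =
      (oneN κ J).1 t
    by_cases ht : ∀ i ∈ J, t i = false
    · rw [oneN_of κ ht, hJ t (fun _ => false) ht, h2, one_mul, mul_one, ← map_mul,
        mul_inv_cancel₀ ha0, map_one]
    · have : (oneN κ J).1 t = 0 := if_neg ht
      rw [this, zero_mul, zero_mul]
  obtain ⟨G, hG, hDG, h3, h4, h5, h6⟩ := gcl_dom (s1_idem (oneN_idem κ J)) hE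
    (Matrix.of fun _ k => if k = i then oneN κ J else 0)
    (Matrix.of fun k _ => if k = j then s * oneN κ J else 0) (by
      ext1 a b
      rw [Matrix.mul_apply]
      simp only [Matrix.mul_apply, Matrix.of_apply, ite_mul, zero_mul, Finset.sum_ite_eq',
        Finset.mem_univ, if_true, mul_ite, mul_zero]
      exact hs.symm)
  refine ⟨J, gcl (E - G) hDG, ?_⟩
  rw [cl_eq_gcl, h6]

end Pool.Agent.V8H73.NK2
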