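import Pool.Agent.V8H73.NK2.Union
import Pool.Agent.Y78.NK.Urp

set_option autoImplicit false

/-!
A ring of locally constant functions with values in the four by four matrices over the field with
five elements.
-/

namespace Pool.Agent.V8H73.NK2

open Pool.Agent.H494R3.NK

instance fact5 : Fact (Nat.Prime 5) := ⟨by norm_num⟩

/-- the field with five elements -/
abbrev F5 : Type := ZMod 5

/-- the four by four matrices over the field with five elements -/
abbrev M4 : Type := Matrix (Fin 4) (Fin 4) (ZMod 5)

/-- four idempotent matrices of rank two -/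
def PP : Fin 4 → M4 := ![!![0, 1, 1, 1; 2, 0, 1, 2; 4, 4, 1, 3; 4, 2, 4, 1],
  Matrix.diagonal ![1, 1, 0, 0], Matrix.diagonal ![1, 0, 1, 0], Matrix.diagonal ![1, 0, 0, 1]]

/-- square roots of two -/
def ZZ : Fin 4 → M4 := ![0, !![0, 1, 0, 0; 2, 0, 0, 0; 0, 0, 0, 2; 0, 0, 1, 0],
  !![4, 0, 2, 0; 0, 1, 0, 1; 3, 0, 1, 0; 0, 1, 0, 4],
  !![4, 0, 0, 2; 0, 1, 3, 0; 0, 2, 4, 0; 3, 0, 0, 1]]

theorem PP_idem (k : Fin 4) : PP k * PP k = PP k := by revert k; decide

theorem ZZ_sq (k : Fin 4) (hk : k ≠ 0) : ZZ k * ZZ k = 2 := by revert k; decide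

theorem ZZ_comm0 (k : Fin 4) (hk : k ≠ 0) : ZZ k * PP 0 = PP 0 * ZZ k := by revert k; decide

theorem ZZ_comm (k : Fin 4) (hk : k ≠ 0) : ZZ k * PP k = PP k * ZZ k := by revert k; decide

theorem PP_diag (k : Fin 4) (hk : k ≠ 0) : PP k = Matrix.diagonal fun i => PP k i i := by
  revert k; decide

/-- conjugation of `PP 0` to a diagonal matrix -/
def gg : M4 := !![0, 1, 0, 1; 1, 0, 1, 0; 2, 4, 3, 2; 2, 2, 1, 3]

/-- the inverse of `gg` -/
def gi : M4 := !![2, 0, 1, 2; 0, 1, 1, 1; 3, 1, 4, 3; 1, 4, 4, 4]

theorem gg_gi : gg * gi = 1 := by decide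

theorem gi_gg : gi * gg = 1 := by decide

theorem P0_eq : PP 0 = gg * PP 1 * gi := by decide

/-! ### linear algebra -/

theorem diag_of_comm (x : M4) (h : ∀ d : Fin 4 → F5, Matrix.diagonal d * x = x * Matrix.diagonal d) :
    x = Matrix.diagonal fun i => x i i := by
  ext i j
  by_cases hij : i = j
  · subst hij
    rw [Matrix.diagonal_apply_eq]
  · rw [Matrix.diagonal_apply_ne _ hij]
    have h1 := congrFun (congrFun (h (Pi.single i 1)) i) j
    rw [Matrix.diagonal_mul, Matrix.mul_diagonal, Pi.single_eq_same, Pi.single_eq_of_ne (Ne.symm hij),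
      one_mul, mul_zero] at h1
    exact h1

theorem diag_pow5 (x : M4) (h : x = Matrix.diagonal fun i => x i i) : x ^ 5 = x := by
  rw [h, Matrix.diagonal_pow]
  congr 1
  funext i
  exact ZMod.pow_card _

theorem scalar_of_comm (x : M4) (h : ∀ y : M4, y * x = x * y) : x = Matrix.scalar (Fin 4) (x 0 0) := by
  have h1 := diag_of_comm x fun d => h _
  rw [Matrix.scalar_apply]
  conv_lhs => rw [h1]
  congr 1
  funext i
  have h2 := congrFun (congrFun (h (Matrix.single 0 i 1)) 0) i
  rw [Matrix.single_mul_apply_same, Matrix.mul_single_apply_same] at h2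
  simpa using h2

theorem reg_M4 (x : M4) : ∃ y : M4, x * y * x = x := by
  have h0 : ∀ x : F5, ∃ y : F5, x * y * x = x := by
    intro x
    by_cases hx : x = 0
    · exact ⟨0, by simp [hx]⟩
    · exact ⟨x⁻¹, by rw [mul_inv_cancel₀ hx, one_mul]⟩
  exact Pool.Agent.Y78.NK.mreg_fin h0 4 4 x

/-! ### the ring -/

variable {I : Type} (κ : I → Fin 4)

/-- test matrices at the point `t` -/
def CC (t : I → Bool) : Set M4 :=
  {y | (∀ i, t i = true → y * PP (κ i) = PP (κ i) * y) ∧
    ∀ i j, t i = true → t j = true → κ i = 0 → κ j ≠ 0 → y = ZZ (κ j)}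

/-- commutation with the test matrices -/
def BB (t : I → Bool) (x : M4) : Prop := ∀ y ∈ CC κ t, y * x = x * y

theorem BB.mono {t t' : I → Bool} (h : ∀ i, t i = true → t' i = true) {x : M4} (hx : BB κ t x) :
    BB κ t' x := fun y hy => hx y ⟨fun i hi => hy.1 i (h i hi),
      fun i j hi hj => hy.2 i j (h i hi) (h j hj)⟩

theorem BB.reg {t : I → Bool} {x : M4} (hx : BB κ t x) : ∃ w, BB κ t w ∧ x * w * x = x := by
  by_cases hA : ∃ i j, t i = true ∧ t j = true ∧ κ i = 0 ∧ κ j ≠ 0
  · obtain ⟨i, j, hi, hj, hi0, hj0⟩ := hA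
    obtain ⟨w, hw⟩ := reg_M4 x
    by_cases hz : ZZ (κ j) ∈ CC κ t
    · set z := ZZ (κ j) with hzdef
      have hzz : z * z = 2 := ZZ_sq _ hj0
      have hxz : z * x = x * z := hx z hz
      have h6 : (3 : M4) * 2 = 1 := by decide
      have c3 : ∀ y : M4, (3 : M4) * y = y * 3 := by
        intro y
        exact (Nat.cast_commute 3 y)
      have c2 : ∀ y : M4, (2 : M4) * y = y * 2 := by
        intro y
        exact (Nat.cast_commute 2 y)
      refine ⟨3 * (w + 3 * (z * w * z)), ?_, ?_⟩
      · intro y hy
        have hyz : y = z := hy.2 i j hi hj hi0 hj0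
        rw [hyz]
        have e1 : z * (3 * (w + 3 * (z * w * z))) = 3 * (z * w) + 3 * 3 * ((z * z) * w * z) := by
          have : z * (3 * (w + 3 * (z * w * z))) = (z * 3) * w + (z * 3) * 3 * (z * w * z) := by
            noncomm_ring
          rw [this, ← c3 z]
          calc 3 * z * w + 3 * z * 3 * (z * w * z) = 3 * z * w + 3 * (z * 3) * (z * w * z) := by
                noncomm_ring
            _ = _ := by rw [← c3 z]; noncomm_ring
        have e2 : (3 * (w + 3 * (z * w * z))) * z = 3 * (w * z) + 3 * 3 * (z * w * (z * z)) := by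
          noncomm_ring
        rw [e1, e2, hzz]
        have e3 : (3 : M4) * 3 * (2 * w * z) = 3 * (w * z) := by
          calc (3 : M4) * 3 * (2 * w * z) = 3 * ((3 * 2) * w * z) := by noncomm_ring
            _ = _ := by rw [h6, one_mul]
        have e4 : (3 : M4) * 3 * (z * w * 2) = 3 * (z * w) := by
          rw [← c2 (z * w)]
          calc (3 : M4) * 3 * (2 * (z * w)) = 3 * ((3 * 2) * (z * w)) := by noncomm_ring
            _ = _ := by rw [h6, one_mul]
        rw [e3, e4, add_comm]
      · have e1 : x * (3 * (w + 3 * (z * w * z))) * x =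
            3 * (x * w * x) + 3 * 3 * ((x * z) * w * (z * x)) := by
          have : x * (3 * (w + 3 * (z * w * z))) * x =
            (x * 3) * w * x + (x * 3) * 3 * (z * w * z) * x := by noncomm_ring
          rw [this, ← c3 x]
          calc 3 * x * w * x + 3 * x * 3 * (z * w * z) * x =
              3 * x * w * x + 3 * (x * 3) * (z * w * z) * x := by noncomm_ring
            _ = _ := by rw [← c3 x]; noncomm_ring
        rw [e1, ← hxz, hw]
        have e2 : z * x * w * (z * x) = 2 * x := by
          calc z * x * w * (z * x) = z * x * w * (x * z) := by rw [hxz]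
            _ = z * (x * w * x) * z := by noncomm_ring
            _ = z * (x * z) := by rw [hw, mul_assoc]
            _ = z * (z * x) := by rw [hxz]
            _ = 2 * x := by rw [← mul_assoc, hzz]
        rw [e2]
        calc 3 * x + 3 * 3 * (2 * x) = 3 * x + 3 * ((3 * 2) * x) := by noncomm_ring
          _ = 3 * x + 3 * x := by rw [h6, one_mul]
          _ = (3 * 2) * x := by rw [mul_assoc, two_mul, mul_add]
          _ = x := by rw [h6, one_mul]
    · refine ⟨w, ?_, hw⟩
      intro y hy
      exfalso
      apply hz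
      have : y = ZZ (κ j) := hy.2 i j hi hj hi0 hj0
      rwa [← this]
  · push Not at hA
    have hpow : x ^ 5 = x := by
      by_cases h0 : ∃ i, t i = true ∧ κ i = 0
      · obtain ⟨i, hi, hi0⟩ := h0
        have hall : ∀ j, t j = true → κ j = 0 := fun j hj => hA i j hi hj hi0
        have h1 : ∀ d : Fin 4 → F5, Matrix.diagonal d * (gi * x * gg) =
            (gi * x * gg) * Matrix.diagonal d := by
          intro d
          have hmem : gg * Matrix.diagonal d * gi ∈ CC κ t := by
            refine ⟨fun j hj => ?_, fun a b ha hb _ hb0 => absurd (hall b hb) hb0⟩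
            rw [hall j hj, P0_eq]
            have hc : Matrix.diagonal d * PP 1 = PP 1 * Matrix.diagonal d := by
              rw [PP_diag 1 (by decide), Matrix.diagonal_mul_diagonal,
                Matrix.diagonal_mul_diagonal]
              congr 1
              funext i
              exact mul_comm _ _
            calc gg * Matrix.diagonal d * gi * (gg * PP 1 * gi) =
                gg * Matrix.diagonal d * (gi * gg) * PP 1 * gi := by noncomm_ring
              _ = gg * (Matrix.diagonal d * PP 1) * gi := by rw [gi_gg]; noncomm_ring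
              _ = gg * PP 1 * 1 * Matrix.diagonal d * gi := by rw [hc]; noncomm_ring
              _ = _ := by rw [← gi_gg]; noncomm_ring
          have h2 := hx _ hmem
          calc Matrix.diagonal d * (gi * x * gg) =
              1 * Matrix.diagonal d * (gi * x * gg) := by rw [one_mul]
            _ = gi * (gg * Matrix.diagonal d * gi * x) * gg := by rw [← gi_gg]; noncomm_ring
            _ = gi * x * gg * Matrix.diagonal d * (gi * gg) := by rw [h2]; noncomm_ring
            _ = _ := by rw [gi_gg, mul_one]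
        have h3 := diag_pow5 _ (diag_of_comm _ h1)
        have h4 : ∀ n : ℕ, (gi * x * gg) ^ n = gi * x ^ n * gg := by
          intro n
          induction n with
          | zero => rw [pow_zero, pow_zero, mul_one, gi_gg]
          | succ n ih =>
            rw [pow_succ, ih, pow_succ]
            calc gi * x ^ n * gg * (gi * x * gg) = gi * x ^ n * (gg * gi) * x * gg := by
                  noncomm_ring
              _ = _ := by rw [gg_gi]; noncomm_ring
        rw [h4] at h3
        calc x ^ 5 = (gg * gi) * x ^ 5 * (gg * gi) := by rw [gg_gi, one_mul, mul_one]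
          _ = gg * (gi * x ^ 5 * gg) * gi := by noncomm_ring
          _ = (gg * gi) * x * (gg * gi) := by rw [h3]; noncomm_ring
          _ = x := by rw [gg_gi, one_mul, mul_one]
      · push Not at h0
        apply diag_pow5
        apply diag_of_comm
        intro d
        apply hx
        refine ⟨fun j hj => ?_, fun a b ha _ ha0 => absurd ha0 (h0 a ha)⟩
        rw [PP_diag (κ j) (h0 j hj), Matrix.diagonal_mul_diagonal, Matrix.diagonal_mul_diagonal]
        congr 1
        funext i
        exact mul_comm _ _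
    refine ⟨x ^ 3, ?_, ?_⟩
    · intro y hy
      have h1 : Commute y x := hx y hy
      exact h1.pow_right 3
    · calc x * x ^ 3 * x = x ^ 5 := by noncomm_ring
        _ = x := hpow

/-- dependence on finitely many coordinates -/
def DepOn (J : Finset I) (f : (I → Bool) → M4) : Prop :=
  ∀ t t' : I → Bool, (∀ i ∈ J, t i = t' i) → f t = f t'

theorem DepOn.mono {J J' : Finset I} (h : J ⊆ J') {f : (I → Bool) → M4} (hf : DepOn J f) :
    DepOn J' f := fun t t' ht => hf t t' fun i hi => ht i (h hi)

open Classical in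
/-- The ring. -/
def RR : Subring ((I → Bool) → M4) where
  carrier := {f | (∃ J : Finset I, DepOn J f) ∧ ∀ t, BB κ t (f t)}
  mul_mem' := by
    rintro f g ⟨⟨J, hJ⟩, hf⟩ ⟨⟨K, hK⟩, hg⟩
    refine ⟨⟨J ∪ K, fun t t' h => ?_⟩, fun t y hy => ?_⟩
    · show f t * g t = f t' * g t'
      rw [hJ t t' fun i hi => h i (Finset.mem_union_left _ hi),
        hK t t' fun i hi => h i (Finset.mem_union_right _ hi)]
    · show y * (f t * g t) = f t * g t * y
      rw [← mul_assoc, hf t y hy, mul_assoc, hg t y hy, mul_assoc]
  one_mem' := ⟨⟨∅, fun _ _ _ => rfl⟩, fun t y _ => by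
    show y * 1 = 1 * y
    rw [mul_one, one_mul]⟩
  add_mem' := by
    rintro f g ⟨⟨J, hJ⟩, hf⟩ ⟨⟨K, hK⟩, hg⟩
    refine ⟨⟨J ∪ K, fun t t' h => ?_⟩, fun t y hy => ?_⟩
    · show f t + g t = f t' + g t'
      rw [hJ t t' fun i hi => h i (Finset.mem_union_left _ hi),
        hK t t' fun i hi => h i (Finset.mem_union_right _ hi)]
    · show y * (f t + g t) = (f t + g t) * y
      rw [mul_add, add_mul, hf t y hy, hg t y hy]
  zero_mem' := ⟨⟨∅, fun _ _ _ => rfl⟩, fun t y _ => by
    show y * 0 = 0 * y
    rw [mul_zero, zero_mul]⟩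
  neg_mem' := by
    rintro f ⟨⟨J, hJ⟩, hf⟩
    refine ⟨⟨J, fun t t' h => ?_⟩, fun t y hy => ?_⟩
    · show - f t = - f t'
      rw [hJ t t' h]
    · show y * (- f t) = (- f t) * y
      rw [mul_neg, neg_mul, hf t y hy]

open Classical in
/-- the point `t` restricted to `J` -/
noncomputable def rest (J : Finset I) (t : I → Bool) : I → Bool :=
  fun i => if i ∈ J then t i else false

theorem rest_on (J : Finset I) (t : I → Bool) : ∀ i ∈ J, rest J t i = t i := fun i hi => if_pos hi

theorem rest_le (J : Finset I) (t : I → Bool) (i : I) (h : rest J t i = true) : t i = true := by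
  unfold rest at h
  split_ifs at h
  exact h

theorem rest_congr (J : Finset I) (t t' : I → Bool) (h : ∀ i ∈ J, t i = t' i) :
    rest J t = rest J t' := by
  funext i
  unfold rest
  split_ifs with hi
  · exact h i hi
  · rfl

/-- The subring of functions that depend on the coordinates in `J`. -/
def RJ (J : Finset I) : Subring (RR κ) where
  carrier := {f | DepOn J f.1}
  mul_mem' := by
    intro f g hf hg t t' h
    show f.1 t * g.1 t = f.1 t' * g.1 t'
    rw [hf t t' h, hg t t' h]
  one_mem' := fun _ _ _ => rfl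
  add_mem' := by
    intro f g hf hg t t' h
    show f.1 t + g.1 t = f.1 t' + g.1 t'
    rw [hf t t' h, hg t t' h]
  zero_mem' := fun _ _ _ => rfl
  neg_mem' := by
    intro f hf t t' h
    show - f.1 t = - f.1 t'
    rw [hf t t' h]

theorem RJ_finite (J : Finset I) : Finite (RJ κ J) := by
  classical
  let F : RJ κ J → ((J → Bool) → M4) := fun f s =>
    f.1.1 fun i => if h : i ∈ J then s ⟨i, h⟩ else false
  apply Finite.of_injective F
  intro f g hfg
  apply Subtype.ext
  apply Subtype.ext
  funext t
  have h1 := congrFun hfg fun i : J => t i.1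
  have h2 : f.1.1 t = f.1.1 (fun i => if h : i ∈ J then t i else false) :=
    f.2 _ _ fun i hi => by rw [dif_pos hi]
  have h3 : g.1.1 t = g.1.1 (fun i => if h : i ∈ J then t i else false) :=
    g.2 _ _ fun i hi => by rw [dif_pos hi]
  rw [h2, h3]
  exact h1

theorem RJ_reg (J : Finset I) (f : RJ κ J) : ∃ g : RJ κ J, f * g * f = f := by
  choose w hw1 hw2 using fun t => BB.reg κ (f.1.2.2 t)
  refine ⟨⟨⟨fun t => w (rest J t), ⟨J, ?_⟩, ?_⟩, ?_⟩, ?_⟩
  · intro t t' h
    show w (rest J t) = w (rest J t')
    rw [rest_congr J t t' h]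
  · intro t
    exact BB.mono κ (rest_le J t) (hw1 (rest J t))
  · intro t t' h
    show w (rest J t) = w (rest J t')
    rw [rest_congr J t t' h]
  · apply Subtype.ext
    apply Subtype.ext
    funext t
    show f.1.1 t * w (rest J t) * f.1.1 t = f.1.1 t
    have h1 : f.1.1 t = f.1.1 (rest J t) := (f.2 _ _ (rest_on J t)).symm
    rw [h1]
    exact hw2 _

theorem RR_locReg : LocReg (RR κ) := by
  classical
  intro s hs
  choose J hJ using fun f : RR κ => f.2.1
  refine ⟨RJ κ (hs.toFinset.biUnion J), ?_, RJ_finite κ _, RJ_reg κ _⟩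
  intro f hf
  exact (hJ f).mono (Finset.subset_biUnion_of_mem J (hs.mem_toFinset.2 hf))

theorem RR_good : GoodMon (VV (RR κ)) := good_locReg (RR_locReg κ)

theorem RR_reg (x : RR κ) : ∃ y, x * y * x = x := regular_locReg (RR_locReg κ) x

end Pool.Agent.V8H73.NK2
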