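import Pool.Agent.V8H73.NK2.Gcl

set_option autoImplicit false

/-!
The monoid `V(S)` of a semisimple ring is a power of `ℕ`; in particular it is cancellative and
unperforated and has the refinement property.
-/

namespace Pool.Agent.V8H73.NK2

open Pool.Agent.H494R3.NK

universe u v

/-! ### division rings -/

section div
variable {D : Type u} [DivisionRing D] {ι : Type} [Fintype ι] [DecidableEq ι]

theorem div_eqv_one (E : Matrix ι ι D) (hE : E * E = E) :
    ∃ r : ℕ, Eqv E (1 : Matrix (Fin r) (Fin r) D) := by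
  classical
  set W : Submodule D (ι → D) := LinearMap.range (Matrix.vecMulLinear E) with hW
  have hmem : ∀ v : ι → D, Matrix.vecMul v E ∈ W := fun v => ⟨v, rfl⟩
  have hfix : ∀ w : ι → D, w ∈ W → Matrix.vecMul w E = w := by
    rintro w ⟨v, rfl⟩
    show Matrix.vecMul (Matrix.vecMul v E) E = Matrix.vecMul v E
    rw [Matrix.vecMul_vecMul, hE]
  let b := Module.finBasis D W
  set r := Module.finrank D W with hr
  refine ⟨r, Matrix.of fun i k => b.repr ⟨Matrix.vecMul (Pi.single i 1) E, hmem _⟩ k,
    Matrix.of fun k i => (b k : ι → D) i, ?_, ?_⟩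
  · ext i j
    rw [Matrix.mul_apply]
    simp only [Matrix.of_apply]
    have h1 := b.sum_repr ⟨Matrix.vecMul (Pi.single i 1) E, hmem _⟩
    have h2 := congrArg (fun w : W => (w : ι → D) j) h1
    simp only [Submodule.coe_sum, Submodule.coe_smul, Finset.sum_apply, Pi.smul_apply,
      smul_eq_mul] at h2
    rw [h2, Matrix.single_one_vecMul]
    rfl
  · ext k l
    rw [Matrix.mul_apply]
    simp only [Matrix.of_apply]
    have h1 : (⟨Matrix.vecMul (b k : ι → D) E, hmem _⟩ : W) = b k :=
      Subtype.ext (hfix _ (b k).2)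
    have h2 : (⟨Matrix.vecMul (b k : ι → D) E, hmem _⟩ : W) =
        ∑ i, (b k : ι → D) i • (⟨Matrix.vecMul (Pi.single i 1) E, hmem _⟩ : W) := by
      apply Subtype.ext
      simp only [Submodule.coe_sum, Submodule.coe_smul]
      conv_lhs => rw [pi_eq_sum_univ' (b k : ι → D)]
      rw [← Matrix.vecMulLinear_apply, map_sum]
      refine Finset.sum_congr rfl fun i _ => ?_
      rw [map_smul]
      congr 2
    have h3 := congrArg (fun w : W => b.repr w l) (h2.symm.trans h1)
    simp only [map_sum, map_smul, Finsupp.coe_finsetSum, Finsupp.coe_smul, Finset.sum_apply,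
      Pi.smul_apply, smul_eq_mul, Module.Basis.repr_self] at h3
    rw [h3, Matrix.one_apply, Finsupp.single_apply]

theorem div_one_inj {r s : ℕ} (h : Eqv (1 : Matrix (Fin r) (Fin r) D)
    (1 : Matrix (Fin s) (Fin s) D)) : r = s := by
  obtain ⟨x, y, h1, h2⟩ := h
  let f : (Fin r → D) ≃ₗ[D] (Fin s → D) :=
    LinearEquiv.ofLinearMap (Matrix.vecMulLinear x) (Matrix.vecMulLinear y)
      (by
        apply LinearMap.ext
        intro v
        show Matrix.vecMul (Matrix.vecMul v y) x = v
        rw [Matrix.vecMul_vecMul, h2, Matrix.vecMul_one])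
      (by
        apply LinearMap.ext
        intro v
        show Matrix.vecMul (Matrix.vecMul v x) y = v
        rw [Matrix.vecMul_vecMul, h1, Matrix.vecMul_one])
  have := f.finrank_eq
  rwa [Module.finrank_fin_fun, Module.finrank_fin_fun] at this

theorem one_idem {R : Type u} [Ring R] {κ : Type} [Fintype κ] [DecidableEq κ] :
    (1 : Matrix κ κ R) * 1 = 1 := Matrix.one_mul _

theorem gcl_one {R : Type u} [Ring R] (r : ℕ) :
    gcl (1 : Matrix (Fin r) (Fin r) R) one_idem =
      r • gcl (1 : Matrix (Fin 1) (Fin 1) R) one_idem := by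
  induction r with
  | zero =>
    rw [zero_nsmul, gcl_eq_zero]
    ext i
    exact i.elim0
  | succ r ih =>
    rw [succ_nsmul, ← ih, ← gcl_blocks, gcl_eq]
    have h := Eqv.reindex (one_idem (R := R) (κ := Fin (r + 1))) finSumFinEquiv.symm
    have h2 : (1 : Matrix (Fin (r + 1)) (Fin (r + 1)) R).submatrix (finSumFinEquiv.symm).symm
        (finSumFinEquiv.symm).symm = Matrix.fromBlocks 1 0 0 1 := by
      rw [Matrix.fromBlocks_one, Matrix.submatrix_one_equiv]
    rwa [h2] at h

/-- `V(D)` of a division ring is `ℕ`. -/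
noncomputable def divEquiv (D : Type u) [DivisionRing D] : ℕ ≃+ VV D :=
  AddEquiv.ofBijective
    (multiplesHom (VV D) (gcl (1 : Matrix (Fin 1) (Fin 1) D) one_idem) : ℕ →+ VV D)
    (by
      constructor
      · intro r s h
        simp only [multiplesHom_apply] at h
        rw [← gcl_one, ← gcl_one, gcl_eq] at h
        exact div_one_inj h
      · intro c
        obtain ⟨n, E, hE, rfl⟩ := exists_gcl c
        obtain ⟨r, hr⟩ := div_eqv_one E hE
        refine ⟨r, ?_⟩
        simp only [multiplesHom_apply]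
        rw [← gcl_one, gcl_eq]
        exact hr.symm)

theorem divEquiv_apply (D : Type u) [DivisionRing D] (r : ℕ) :
    divEquiv D r = r • gcl (1 : Matrix (Fin 1) (Fin 1) D) one_idem := rfl

end div

/-! ### flattening -/

section flat
variable {R : Type u} [Ring R] {d : ℕ} {ι κ μ : Type} [Fintype ι] [Fintype κ] [Fintype μ]

/-- a matrix of matrices as a matrix -/
def flat (X : Matrix ι κ (Matrix (Fin d) (Fin d) R)) : Matrix (ι × Fin d) (κ × Fin d) R :=
  Matrix.of fun p q => X p.1 q.1 p.2 q.2

omit [Fintype ι] [Fintype κ] in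
theorem flat_apply (X : Matrix ι κ (Matrix (Fin d) (Fin d) R)) (p : ι × Fin d) (q : κ × Fin d) :
    flat X p q = X p.1 q.1 p.2 q.2 := rfl

theorem flat_mul (X : Matrix ι κ (Matrix (Fin d) (Fin d) R))
    (Y : Matrix κ μ (Matrix (Fin d) (Fin d) R)) : flat (X * Y) = flat X * flat Y := by
  ext p q
  simp only [flat_apply, Matrix.mul_apply, Matrix.sum_apply, Fintype.sum_prod_type]

theorem flat_inj {X Y : Matrix ι κ (Matrix (Fin d) (Fin d) R)} (h : flat X = flat Y) : X = Y := by
  ext i j a b
  exact congrFun (congrFun h (i, a)) (j, b)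

/-- the inverse of `flat` -/
def unflat (X : Matrix (ι × Fin d) (κ × Fin d) R) : Matrix ι κ (Matrix (Fin d) (Fin d) R) :=
  Matrix.of fun i j => Matrix.of fun a b => X (i, a) (j, b)

theorem flat_unflat (X : Matrix (ι × Fin d) (κ × Fin d) R) : flat (unflat X) = X := rfl

theorem flat_idem {E : Matrix ι ι (Matrix (Fin d) (Fin d) R)} (h : E * E = E) :
    flat E * flat E = flat E := by rw [← flat_mul, h]

theorem flat_eqv {E : Matrix ι ι (Matrix (Fin d) (Fin d) R)}
    {F : Matrix κ κ (Matrix (Fin d) (Fin d) R)} : Eqv E F ↔ Eqv (flat E) (flat F) := by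
  constructor
  · rintro ⟨x, y, h1, h2⟩
    exact ⟨flat x, flat y, by rw [← flat_mul, h1], by rw [← flat_mul, h2]⟩
  · rintro ⟨x, y, h1, h2⟩
    refine ⟨unflat x, unflat y, flat_inj ?_, flat_inj ?_⟩
    · rw [flat_mul, flat_unflat, flat_unflat, h1]
    · rw [flat_mul, flat_unflat, flat_unflat, h2]

theorem flat_blocks (E : Matrix ι ι (Matrix (Fin d) (Fin d) R))
    (F : Matrix κ κ (Matrix (Fin d) (Fin d) R)) (hE : E * E = E) (hF : F * F = F) :
    Eqv (flat (Matrix.fromBlocks E 0 0 F)) (Matrix.fromBlocks (flat E) 0 0 (flat F)) := by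
  have h := Eqv.reindex (flat_idem (idem_blocks hE hF)) (Equiv.sumProdDistrib ι κ (Fin d))
  have h2 : (flat (Matrix.fromBlocks E 0 0 F)).submatrix (Equiv.sumProdDistrib ι κ (Fin d)).symm
      (Equiv.sumProdDistrib ι κ (Fin d)).symm = Matrix.fromBlocks (flat E) 0 0 (flat F) := by
    ext (⟨i, a⟩ | ⟨i, a⟩) (⟨j, b⟩ | ⟨j, b⟩) <;> rfl
  rwa [h2] at h

/-- `V(M_d(R)) → V(R)` -/
noncomputable def vflat : VV (Matrix (Fin d) (Fin d) R) →+ VV R where
  toFun := Quotient.lift (s := Idem.setoid _) (fun e => gcl (flat e.mat) (flat_idem e.idem))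
    (fun e f h => (gcl_eq _ _).2 (flat_eqv.1 ((Idem.equiv_iff e f).1 h)))
  map_zero' := by
    show gcl (flat (Idem.zero _).mat) _ = 0
    rw [gcl_eq_zero]
    rfl
  map_add' := by
    rintro ⟨a⟩ ⟨b⟩
    have h1 := flat_eqv.1 (Eqv.blk a.idem b.idem).symm
    have h2 : gcl (flat (blk a.mat b.mat)) (flat_idem (blk_idem a.idem b.idem)) =
        gcl (flat a.mat) (flat_idem a.idem) + gcl (flat b.mat) (flat_idem b.idem) := by
      rw [← gcl_blocks, gcl_eq]
      exact Eqv.trans (flat_idem (blk_idem a.idem b.idem))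
        (idem_blocks (flat_idem a.idem) (flat_idem b.idem)) h1 (flat_blocks _ _ a.idem b.idem)
    exact h2

theorem vflat_gcl {E : Matrix ι ι (Matrix (Fin d) (Fin d) R)} (h : E * E = E) :
    vflat (gcl E h) = gcl (flat E) (flat_idem h) := by
  have h1 := flat_eqv.1 (Eqv.reindex h (Fintype.equivFin ι)).symm
  have h2 : gcl (flat (E.submatrix (Fintype.equivFin ι).symm (Fintype.equivFin ι).symm))
      (flat_idem (idem_sub h (Fintype.equivFin ι).symm)) = gcl (flat E) (flat_idem h) :=
    (gcl_eq _ _).2 h1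
  exact h2

end flat

/-! ### products of matrix rings -/

section prod
variable {n : ℕ} (D : Fin n → Type u) (d : Fin n → ℕ) [∀ i, DivisionRing (D i)]

/-- the product ring -/
abbrev PM : Type u := ∀ i, Matrix (Fin (d i)) (Fin (d i)) (D i)

/-- the ranks of the components -/
noncomputable def rkv : VV (PM D d) →+ (Fin n → ℕ) where
  toFun c := fun i => (divEquiv (D i)).symm (vflat (vmap (Pi.evalRingHom _ i :
    PM D d →+* Matrix (Fin (d i)) (Fin (d i)) (D i)).toNonUnitalRingHom c))
  map_zero' := by funext i; simp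
  map_add' a b := by funext i; simp

variable {D d}

theorem rkv_inj : Function.Injective (rkv D d) := by
  intro a b h
  obtain ⟨k, E, hE, rfl⟩ := exists_gcl a
  obtain ⟨l, F, hF, rfl⟩ := exists_gcl b
  rw [gcl_eq]
  have h1 : ∀ i, Eqv (flat (E.map fun x : PM D d => x i)) (flat (F.map fun x : PM D d => x i)) := by
    intro i
    have h2 := congrFun h i
    have h3 := (divEquiv (D i)).symm.injective h2
    rw [vmap_gcl, vmap_gcl, vflat_gcl, vflat_gcl, gcl_eq] at h3
    exact h3
  choose x y hx hy using h1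
  have hu : ∀ (r s : ℕ) (z : (i : Fin n) → Matrix (Fin r × Fin (d i)) (Fin s × Fin (d i)) (D i)),
      ∃ w : Matrix (Fin r) (Fin s) (PM D d), ∀ p q i a b, w p q i a b = z i (p, a) (q, b) :=
    fun r s z => ⟨Matrix.of fun p q => fun i => Matrix.of fun a b => z i (p, a) (q, b),
      fun p q i a b => rfl⟩
  obtain ⟨X, hX⟩ := hu k l x
  obtain ⟨Y, hY⟩ := hu l k y
  refine ⟨X, Y, ?_, ?_⟩
  · ext p q i a b
    have := congrFun (congrFun (hx i) (p, a)) (q, b)
    rw [Matrix.mul_apply] at this
    rw [Matrix.mul_apply, Finset.sum_apply, Matrix.sum_apply]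
    simp only [Pi.mul_apply, Matrix.mul_apply, Fintype.sum_prod_type, hX, hY] at this ⊢
    exact this
  · ext p q i a b
    have := congrFun (congrFun (hy i) (p, a)) (q, b)
    rw [Matrix.mul_apply] at this
    rw [Matrix.mul_apply, Finset.sum_apply, Matrix.sum_apply]
    simp only [Pi.mul_apply, Matrix.mul_apply, Fintype.sum_prod_type, hX, hY] at this ⊢
    exact this

theorem rkv_surj [∀ i, NeZero (d i)] : Function.Surjective (rkv D d) := by
  classical
  have key : ∀ i : Fin n, ∃ c : VV (PM D d), rkv D d c = Pi.single i 1 := by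
    intro i
    let E0 : PM D d := Pi.single i (Matrix.single 0 0 1)
    have hE0 : E0 * E0 = E0 := by
      funext j
      by_cases hj : j = i
      · subst hj
        simp [E0, Matrix.single_mul_single_same]
      · simp [E0, Pi.single_eq_of_ne hj]
    refine ⟨gcl (s1 E0) (s1_idem hE0), ?_⟩
    funext j
    show (divEquiv (D j)).symm (vflat (vmap _ _)) = _
    rw [vmap_gcl, vflat_gcl]
    by_cases hj : j = i
    · subst hj
      rw [Pi.single_eq_same, AddEquiv.symm_apply_eq, divEquiv_apply, one_nsmul, gcl_eq]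
      refine ⟨Matrix.of fun p _ => if p.2 = 0 then 1 else 0,
        Matrix.of fun _ q => if q.2 = 0 then 1 else 0, ?_, ?_⟩
      · ext p q
        rw [Matrix.mul_apply]
        simp only [Finset.univ_unique, Finset.sum_singleton, Matrix.of_apply]
        have h0 : (Pi.single j (Matrix.single 0 0 1) : PM D d) j p.2 q.2 =
            (if p.2 = 0 then 1 else 0) * if q.2 = 0 then 1 else 0 := by
          rw [Pi.single_eq_same, Matrix.single_apply]
          by_cases h1 : p.2 = 0 <;> by_cases h2 : q.2 = 0 <;> simp [h1, h2, eq_comm]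
        exact h0.symm
      · ext p q
        rw [Subsingleton.elim p q, Matrix.mul_apply, Matrix.one_apply_eq, Fintype.sum_prod_type]
        simp
    · rw [Pi.single_eq_of_ne hj, AddEquiv.symm_apply_eq, divEquiv_apply, zero_nsmul, gcl_eq_zero]
      ext p q
      have h0 : (Pi.single i (Matrix.single 0 0 1) : PM D d) j p.2 q.2 = 0 := by
        rw [Pi.single_eq_of_ne hj]
        rfl
      exact h0
  choose a ha using key
  intro v
  refine ⟨∑ i, v i • a i, ?_⟩
  rw [map_sum]
  simp only [map_nsmul, ha]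
  funext j
  simp [Finset.sum_apply, Pi.single_apply]

end prod

/-! ### goodness -/

theorem good_nat_pi (n : ℕ) : GoodMon (Fin n → ℕ) where
  cancel a b c h := by
    funext i
    have := congrFun h i
    simp only [Pi.add_apply] at this
    omega
  unperf k a b x hk h := by
    refine ⟨fun i => b i - a i, ?_⟩
    funext i
    have := congrFun h i
    simp only [Pi.add_apply, Pi.smul_apply, smul_eq_mul] at this ⊢
    have h1 : a i ≤ b i := by
      by_contra hc
      push Not at hc
      have := Nat.mul_lt_mul_of_pos_left hc hk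
      omega
    omega
  refine a b c d h := by
    refine ⟨fun i => min (a i) (c i), fun i => a i - min (a i) (c i),
      fun i => c i - min (a i) (c i), fun i => b i - (c i - min (a i) (c i)), ?_, ?_, ?_, ?_⟩ <;>
    · funext i
      have := congrFun h i
      simp only [Pi.add_apply] at this ⊢
      omega

theorem good_semisimple (S : Type u) [Ring S] [IsSemisimpleRing S] : GoodMon (VV S) := by
  obtain ⟨n, D, d, _, _, ⟨e⟩⟩ := IsSemisimpleRing.exists_ringEquiv_pi_matrix_divisionRing S
  have h1 : GoodMon (VV (PM D d)) :=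
    (good_nat_pi n).of_equiv (AddEquiv.ofBijective (rkv D d) ⟨rkv_inj, rkv_surj⟩).symm
  have hinv : ∀ (A B : Type u) [Ring A] [Ring B] (f : A ≃+* B) (c : VV A),
      vmap (f.symm : B →+* A).toNonUnitalRingHom (vmap (f : A →+* B).toNonUnitalRingHom c) = c := by
    intro A B _ _ f c
    obtain ⟨k, E, hE, rfl⟩ := exists_gcl c
    rw [vmap_gcl, vmap_gcl, gcl_eq]
    have : (E.map (f : A →+* B).toNonUnitalRingHom).map (f.symm : B →+* A).toNonUnitalRingHom
        = E := by
      ext i j
      exact f.symm_apply_apply _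
    rw [this]
    exact Eqv.refl hE
  refine h1.of_equiv
    { toFun := vmap (e.symm : PM D d →+* S).toNonUnitalRingHom
      invFun := vmap (e : S →+* PM D d).toNonUnitalRingHom
      left_inv := hinv _ _ e.symm
      right_inv := hinv _ _ e
      map_add' := map_add _ }

end Pool.Agent.V8H73.NK2
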