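import Pool.Agent.V8H73.NK2.Semi

set_option autoImplicit false

/-!
Rings in which every finite subset lies in a finite von Neumann regular subring.
-/

namespace Pool.Agent.V8H73.NK2

open Pool.Agent.H494R3.NK

universe u v

/-- A finite von Neumann regular ring is semisimple. -/
theorem semisimple_of_finite (S : Type u) [Ring S] [Finite S] (h : ∀ x : S, ∃ y, x * y * x = x) :
    IsSemisimpleRing S := by
  have : IsArtinianRing S := inferInstance
  rw [IsArtinianRing.isSemisimpleRing_iff_jacobson, ← Ideal.jacobson_bot, eq_bot_iff]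
  intro x hx
  obtain ⟨y, hy⟩ := h x
  rw [Ideal.mem_bot]
  obtain ⟨z, hz⟩ := Ideal.mem_jacobson_iff.1 hx (-y)
  rw [Ideal.mem_bot] at hz
  have h1 : z * (1 - y * x) = 1 := by
    have : z * (1 - y * x) = (z * -y * x + z - 1) + 1 := by noncomm_ring
    rw [this, hz, zero_add]
  have h2 : (1 - y * x) * (1 - y * x) = 1 - y * x := by
    have : (1 - y * x) * (1 - y * x) = 1 - y * x - y * x + y * (x * y * x) := by noncomm_ring
    rw [this, hy]
    abel
  have h3 : (1 : S) = 1 - y * x := by
    calc (1 : S) = z * ((1 - y * x) * (1 - y * x)) := by rw [h2, h1]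
      _ = (z * (1 - y * x)) * (1 - y * x) := by rw [mul_assoc]
      _ = 1 - y * x := by rw [h1, one_mul]
  have h4 : y * x = 0 := by
    have := h3.symm
    rwa [sub_eq_self] at this
  rw [← hy, mul_assoc, h4, mul_zero]

/-- every finite subset lies in a finite von Neumann regular subring -/
def LocReg (R : Type u) [Ring R] : Prop :=
  ∀ s : Set R, s.Finite → ∃ S : Subring R, s ⊆ S ∧ Finite S ∧ ∀ x : S, ∃ y : S, x * y * x = x

section
variable {R : Type u} [Ring R]

/-- lifting of a matrix to a subring -/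
def res {ι κ : Type} (S : Subring R) (E : Matrix ι κ R) (h : ∀ i j, E i j ∈ S) : Matrix ι κ S :=
  Matrix.of fun i j => ⟨E i j, h i j⟩

theorem res_map {ι κ : Type} (S : Subring R) (E : Matrix ι κ R) (h : ∀ i j, E i j ∈ S) :
    (res S E h).map S.subtype = E := rfl

theorem map_inj {ι κ : Type} {S T : Type*} [NonUnitalNonAssocSemiring S]
    [NonUnitalNonAssocSemiring T] (f : S → T) (hf : Function.Injective f) {X Y : Matrix ι κ S}
    (h : X.map f = Y.map f) : X = Y := Matrix.map_injective hf h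

/-- the map induced on `V` by a ring homomorphism -/
noncomputable def vr {R : Type u} [Ring R] {S : Type v} [Ring S] (φ : R →+* S) : VV R →+ VV S :=
  vmap φ.toNonUnitalRingHom

theorem vr_gcl {R : Type u} [Ring R] {S : Type v} [Ring S] {ι : Type} [Fintype ι] (φ : R →+* S)
    {E : Matrix ι ι R} (h : E * E = E) :
    vr φ (gcl E h) = gcl (E.map φ) (map_idem φ.toNonUnitalRingHom h) := vmap_gcl _ h

theorem lift_eqn (hR : LocReg R) {m : ℕ} (c : Fin m → VV R) (u w : Fin m → ℕ)
    (h : ∑ i, u i • c i = ∑ i, w i • c i) :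
    ∃ (T : Subring R) (_ : Finite T) (_ : ∀ x : T, ∃ y : T, x * y * x = x) (c' : Fin m → VV T),
      (∀ i, vr T.subtype (c' i) = c i) ∧ ∑ i, u i • c' i = ∑ i, w i • c' i := by
  classical
  choose n E hE hc using fun i => exists_gcl (c i)
  set s₁ : Set R := ⋃ i, Set.range fun p : Fin (n i) × Fin (n i) => E i p.1 p.2 with hs₁
  have hs₁f : s₁.Finite := Set.finite_iUnion fun i => Set.finite_range _
  have hmem : ∀ i a b, E i a b ∈ s₁ := fun i a b => Set.mem_iUnion.2 ⟨i, ⟨(a, b), rfl⟩⟩
  set S₁ := Subring.closure s₁ with hS₁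
  let E₁ : ∀ i, Matrix (Fin (n i)) (Fin (n i)) S₁ := fun i =>
    res S₁ (E i) (fun a b => Subring.subset_closure (hmem i a b))
  have hE₁ : ∀ i, E₁ i * E₁ i = E₁ i := by
    intro i
    apply map_inj S₁.subtype S₁.subtype_injective
    rw [Matrix.map_mul]
    exact hE i
  let c₁ : Fin m → VV S₁ := fun i => gcl (E₁ i) (hE₁ i)
  have hc₁ : ∀ i, vr S₁.subtype (c₁ i) = c i := by
    intro i
    rw [vr_gcl, hc i]
    rfl
  obtain ⟨k, P, hP, hPe⟩ := exists_gcl (∑ i, u i • c₁ i)
  obtain ⟨l, Q, hQ, hQe⟩ := exists_gcl (∑ i, w i • c₁ i)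
  have h1 : vr S₁.subtype (gcl P hP) = vr S₁.subtype (gcl Q hQ) := by
    rw [← hPe, ← hQe, map_sum, map_sum]
    simp only [map_nsmul, hc₁]
    exact h
  rw [vr_gcl, vr_gcl, gcl_eq] at h1
  obtain ⟨x, y, hxy, hyx⟩ := h1
  set s₂ : Set R := (Set.range fun p : Fin k × Fin l => x p.1 p.2) ∪
    Set.range fun p : Fin l × Fin k => y p.1 p.2 with hs₂
  have hs₂f : s₂.Finite := (Set.finite_range _).union (Set.finite_range _)
  obtain ⟨T, hT, hTf, hTr⟩ := hR (s₁ ∪ s₂) (hs₁f.union hs₂f)
  have hle : S₁ ≤ T := (Subring.closure_le).2 (Set.subset_union_left.trans hT)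
  refine ⟨T, hTf, hTr, fun i => vr (Subring.inclusion hle) (c₁ i), ?_, ?_⟩
  · intro i
    show vr T.subtype (vr (Subring.inclusion hle) (gcl (E₁ i) (hE₁ i))) = _
    rw [← hc₁ i, vr_gcl, vr_gcl]
    show _ = vr S₁.subtype (gcl (E₁ i) (hE₁ i))
    rw [vr_gcl]
    rfl
  · simp only [← map_nsmul, ← map_sum]
    rw [hPe, hQe, vr_gcl, vr_gcl, gcl_eq]
    refine ⟨res T x fun a b => hT (Or.inr (Or.inl ⟨(a, b), rfl⟩)),
      res T y fun a b => hT (Or.inr (Or.inr ⟨(a, b), rfl⟩)), ?_, ?_⟩
    · apply map_inj T.subtype T.subtype_injective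
      rw [Matrix.map_mul, res_map, res_map, hxy]
      rfl
    · apply map_inj T.subtype T.subtype_injective
      rw [Matrix.map_mul, res_map, res_map, hyx]
      rfl

theorem good_locReg (hR : LocReg R) : GoodMon (VV R) where
  cancel a b c h := by
    obtain ⟨T, _, hTr, c', hc', he⟩ := lift_eqn hR ![a, b, c] ![1, 0, 1] ![0, 1, 1]
      (by simp [Fin.sum_univ_three, h])
    have := semisimple_of_finite T hTr
    have h1 := (good_semisimple T).cancel (c' 0) (c' 1) (c' 2)
      (by simpa [Fin.sum_univ_three] using he)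
    have h2 := congrArg (vr T.subtype) h1
    rw [hc', hc'] at h2
    exact h2
  unperf n a b x hn h := by
    obtain ⟨T, _, hTr, c', hc', he⟩ := lift_eqn hR ![a, b, x] ![n, 0, 1] ![0, n, 0]
      (by simp [Fin.sum_univ_three, h])
    have := semisimple_of_finite T hTr
    obtain ⟨y, hy⟩ := (good_semisimple T).unperf n (c' 0) (c' 1) (c' 2) hn
      (by simpa [Fin.sum_univ_three] using he)
    refine ⟨vr T.subtype y, ?_⟩
    have h2 := congrArg (vr T.subtype) hy
    rw [map_add, hc', hc'] at h2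
    exact h2
  refine a b c d h := by
    obtain ⟨T, _, hTr, c', hc', he⟩ := lift_eqn hR ![a, b, c, d] ![1, 1, 0, 0] ![0, 0, 1, 1]
      (by simp [Fin.sum_univ_four, h])
    have := semisimple_of_finite T hTr
    obtain ⟨x, y, z, w, h1, h2, h3, h4⟩ := (good_semisimple T).refine (c' 0) (c' 1) (c' 2) (c' 3)
      (by simpa [Fin.sum_univ_four] using he)
    refine ⟨vr T.subtype x, vr T.subtype y, vr T.subtype z, vr T.subtype w, ?_, ?_, ?_, ?_⟩
    · have := congrArg (vr T.subtype) h1
      rw [map_add, hc'] at this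
      exact this
    · have := congrArg (vr T.subtype) h2
      rw [map_add, hc'] at this
      exact this
    · have := congrArg (vr T.subtype) h3
      rw [map_add, hc'] at this
      exact this
    · have := congrArg (vr T.subtype) h4
      rw [map_add, hc'] at this
      exact this

theorem regular_locReg (hR : LocReg R) (x : R) : ∃ y, x * y * x = x := by
  obtain ⟨S, hS, _, hr⟩ := hR {x} (Set.finite_singleton x)
  obtain ⟨y, hy⟩ := hr ⟨x, hS rfl⟩
  exact ⟨y, congrArg Subtype.val hy⟩

end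

end Pool.Agent.V8H73.NK2
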